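import Pool.Agent.JP.QR

/-!
# [JP-A1] the rings of integers

`qr_P`: `θ = r₁`, `s = 2 r₁`, `Δ = 4 D₁`. PROOF. `quad`: `fr` from `hQ`, `(2 r)² = 4 D`, `τ (2 r) = - 2 r`. `th`: `r - τ r = 2 r`. `int`: `r² = jF F D` is integral (`IsIntegral.of_pow`, `JXD.int_jF`). `ne`: `4 * D ≠ 0` (`hD.ne_zero`).
`gen`: copy the proof of `JXD.exists_int` (file `Pool/Agent/JXD/Q2.lean`), which does not use `¬ la ∣ D`: use `JG.fix_int hD0 hQ` instead of `fix_int hD hQ`, `JD.exists_uv`, `JD.tau_tau`, and copy the private lemmas `q2_par`, `q2_inv`, `q2_sq`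
(rename them `a1_par`, `a1_inv`, `a1_sq`). `JXD.int_KK`, `JXD.int_jF`, `JD.jK_inj`, `JD.jF_apply`, `JD.jK_apply`.

`qr_Q`: `θ = (t + r) / 2`, `s = r`, `Δ = D`, `D ≡ t² mod 4`, `D` odd. PROOF. `th`: `θ - τ θ = (t + r)/2 - (t - r)/2 = r` (`JXD.tau_jF`). `int`: `θ² - t θ + (t² - D)/4 = 0`, i.e. `θ (t - θ) = (t² - D) / 4 = jF F (-k)` for `D - t² = 4 k`;
`θ + τ θ = jF F t`, `θ * τ θ = jF F (-k)`: the monic polynomial `X² - t X - k` over the integers of `KK` (or: `θ ∈` integral closure: `θ² = jF t * θ + jF k`; take `p = X ^ 2 - C (eE t) * X - C (eE k)` over `𝓞 KK` and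
`isIntegral_trans`; or directly: `(2 θ - t)² = D`... the polynomial way is fine: `IsIntegral (𝓞 KK) θ` and then `isIntegral_trans`). Another way for the integrality: the valuations: for all `w`, `w(θ)² ≤ max (w(jF t * θ), w(jF k))` shows `w(θ) ≤ 1`
(`HeightOneSpectrum.mem_integers_of_valuation_le_one`, as in `JG.pg_iff_int`).
`gen`: as in `JXD.exists_int`: `z = u + v r`, `2 u = jK U`, `2 v = jK V`, `V² D = U² - 4 N`. Now `V t ≡ U mod 2`: `(U - V t)(U + V t) = U² - V² t² = 4 N + V² (D - t²)` is divisible by `4`, `U + V t = (U - V t) + 2 V t`; so `4 ∣ x (x + 2 y)` with `x = U - V t`, `y = V t`;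
so `2 ∣ x²`, and `2` is prime (`JC.two_prime`), so `2 ∣ x`. Write `U = V t + 2 A`: `z = (U + V r) / 2 = A + V (t + r) / 2 = jF A + jF V * θ`.
-/

set_option autoImplicit false

open NumberField IsDedekindDomain
open scoped Classical

namespace JP

open CM27 CF JZ JC JXC
open CU (la om eE)
open JD (Quad jF jK OvLa InM)
open JXD (N1)
open JG (WG UCG ClG PG Qs NoBadP LamP LC)

private theorem a1_par {a : Eis} (h : ¬ (2 : Eis) ∣ a) : a.norm % 2 = 1 := by
  by_contra hcon
  apply h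
  have h1 : a.norm % 2 = 0 := by omega
  rw [norm_eq] at h1
  have h2 : a.re % 2 = 0 ∧ a.im % 2 = 0 := by
    rcases Int.emod_two_eq_zero_or_one a.re with hr | hr <;>
      rcases Int.emod_two_eq_zero_or_one a.im with hi | hi
    · exact ⟨hr, hi⟩
    all_goals
      exfalso
      obtain ⟨k, hk⟩ : ∃ k, a.re = 2 * k + a.re % 2 := ⟨a.re / 2, by omega⟩
      obtain ⟨l, hl⟩ : ∃ l, a.im = 2 * l + a.im % 2 := ⟨a.im / 2, by omega⟩
      rw [hr] at hk
      rw [hi] at hl
      rw [hk, hl] at h1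
      ring_nf at h1
      omega
  refine ⟨⟨a.re / 2, a.im / 2⟩, ?_⟩
  ext
  · rw [two_mul, QuadraticAlgebra.re_add]
    change a.re = a.re / 2 + a.re / 2
    omega
  · rw [two_mul, QuadraticAlgebra.im_add]
    change a.im = a.im / 2 + a.im / 2
    omega

private theorem a1_inv {V : Eis} (h : ¬ (2 : Eis) ∣ V) : ∃ V' k : Eis, V * V' = 1 + 4 * k := by
  have h1 := a1_par h
  obtain ⟨m, hm⟩ : ∃ m : ℤ, V.norm = 2 * m + 1 := ⟨V.norm / 2, by omega⟩
  refine ⟨star V * (algebraMap ℤ Eis V.norm), algebraMap ℤ Eis (m ^ 2 + m), ?_⟩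
  rw [← mul_assoc, ← QuadraticAlgebra.algebraMap_norm_eq_mul_star, ← map_mul, hm]
  have h4 : (4 : Eis) = algebraMap ℤ Eis 4 := by simp
  rw [h4, ← map_mul, ← map_one (algebraMap ℤ Eis), ← map_add]
  congr 1
  ring

private theorem a1_sq2 {U : Eis} (h : (2 : Eis) ∣ U ^ 2) : (2 : Eis) ∣ U := by
  by_contra hcon
  have h1 := a1_par hcon
  obtain ⟨k, hk⟩ := h
  have h2 : U.norm ^ 2 = 4 * k.norm := by
    have h3 := congrArg (fun a : Eis => a.norm) hk
    simp only [map_pow, map_mul] at h3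
    rw [h3, norm_eq 2]
    have e1 : (2 : Eis).re = 2 := rfl
    have e2 : (2 : Eis).im = 0 := rfl
    rw [e1, e2]
    ring
  obtain ⟨m, hm⟩ : ∃ m : ℤ, U.norm = 2 * m + 1 := ⟨U.norm / 2, by omega⟩
  rw [hm] at h2
  ring_nf at h2
  omega

private theorem a1_sq {U : Eis} (h : (4 : Eis) ∣ U ^ 2) : (2 : Eis) ∣ U :=
  a1_sq2 (dvd_trans ⟨2, by norm_num⟩ h)

section
variable {D : Eis} {F : Type} [Field F] [NumberField F] [Algebra KK F] {r : F} {τ : F ≃ₐ[KK] F}

private theorem a1_half (hD : Squarefree D) (hQ : Quad D r τ) {z : F} (h : IsIntegral ℤ z) :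
    ∃ (u v : KK) (U V N : Eis), z = algebraMap KK F u + algebraMap KK F v * r ∧ 2 * u = jK U ∧ 2 * v = jK V ∧
      V ^ 2 * D = U ^ 2 - 4 * N := by
  have hDne : D ≠ 0 := hD.ne_zero
  have hinj : Function.Injective (algebraMap KK F) := (algebraMap KK F).injective
  obtain ⟨u, v, huv⟩ := JD.exists_uv hDne hQ z
  have hτz : τ z = algebraMap KK F u - algebraMap KK F v * r := by
    rw [huv, map_add, map_mul, AlgEquiv.commutes, AlgEquiv.commutes, hQ.tau]
    ring
  have hττ := JD.tau_tau hDne hQ z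
  have hτi : IsIntegral ℤ (τ z) := h.map (τ : F →ₐ[KK] F)
  obtain ⟨U, hU⟩ := JG.fix_int hDne hQ (z := z + τ z) (by rw [map_add, hττ, add_comm]) (h.add hτi)
  obtain ⟨N, hN⟩ := JG.fix_int hDne hQ (z := z * τ z) (by rw [map_mul, hττ, mul_comm]) (h.mul hτi)
  have hU' : 2 * u = jK U := by
    apply hinj
    rw [← JD.jF_apply, ← hU, hτz, huv, map_mul, map_ofNat]
    ring
  have hN' : u ^ 2 - v ^ 2 * jK D = jK N := by
    apply hinj
    rw [← JD.jF_apply, ← hN, hτz, huv, map_sub, map_mul, map_pow, map_pow, ← JD.jF_apply, ← hQ.sq]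
    ring
  have hM : (2 * v) ^ 2 * jK D = jK (U ^ 2 - 4 * N) := by
    rw [map_sub, map_mul, map_pow, map_ofNat, ← hU', ← hN']
    ring
  have hw : IsIntegral ℤ ((2 * v) * jK D) := by
    apply IsIntegral.of_pow (n := 2) (by norm_num)
    have h1 : ((2 * v) * jK D) ^ 2 = jK ((U ^ 2 - 4 * N) * D) := by
      rw [map_mul, ← hM]
      ring
    rw [h1, JD.jK_apply]
    exact RingOfIntegers.isIntegral_coe _
  obtain ⟨P, hP⟩ := JXD.int_KK hw
  have hP2 : P ^ 2 = (U ^ 2 - 4 * N) * D := by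
    apply JD.jK_inj
    rw [map_pow, ← hP, map_mul, ← hM]
    ring
  have : IsDomain Eis := eis_isDomain
  have : IsPrincipalIdealRing Eis := eis_pid
  have hDP : D ∣ P := hD.isRadical 2 P (by rw [hP2]; exact dvd_mul_left _ _)
  obtain ⟨V, hV⟩ := hDP
  have hjD : jK D ≠ 0 := by
    intro h1
    apply hDne
    apply JD.jK_inj
    rw [h1, map_zero]
  have hv : 2 * v = jK V := by
    apply mul_right_cancel₀ hjD
    rw [hP, hV, map_mul, mul_comm]
  have hUV : V ^ 2 * D = U ^ 2 - 4 * N := by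
    apply JD.jK_inj
    rw [map_mul, map_pow, ← hv, hM]
  exact ⟨u, v, U, V, N, huv, hU', hv, hUV⟩

private theorem a1_gen_P (hD : Squarefree D) (h2 : CondTwo D) (hQ : Quad D r τ) {z : F} (h : IsIntegral ℤ z) :
    ∃ a b : Eis, z = jF F a + jF F b * r := by
  obtain ⟨u, v, U, V, N, huv, hU', hv, hUV⟩ := a1_half hD hQ h
  have hV2 : (2 : Eis) ∣ V := by
    by_contra hcon
    obtain ⟨V', k, hk⟩ := a1_inv hcon
    apply h2 (U * V')
    refine ⟨-(N * V' ^ 2) - (2 * k + 4 * k ^ 2) * D, ?_⟩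
    have h1 : (V * V') ^ 2 * D = (U ^ 2 - 4 * N) * V' ^ 2 := by
      rw [← hUV]
      ring
    rw [hk] at h1
    linear_combination h1
  obtain ⟨V₁, rfl⟩ := hV2
  have hU2 : (2 : Eis) ∣ U := by
    apply a1_sq
    refine ⟨V₁ ^ 2 * D + N, ?_⟩
    linear_combination -hUV
  obtain ⟨U₁, rfl⟩ := hU2
  have h2 : (2 : KK) ≠ 0 := two_ne_zero
  have hu : u = jK U₁ := by
    apply mul_left_cancel₀ h2
    rw [hU', map_mul, map_ofNat]
  have hv' : v = jK V₁ := by
    apply mul_left_cancel₀ h2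
    rw [hv, map_mul, map_ofNat]
  exact ⟨U₁, V₁, by rw [huv, hu, hv']; rfl⟩

theorem qr_P (hD : Squarefree D) (h2 : CondTwo D) (hQ : Quad D r τ) : QR (4 * D) (2 * r) r τ where
  quad := {
    fr := hQ.fr
    sq := by
      rw [mul_pow, hQ.sq, map_mul, map_ofNat]
      norm_num
    tau := by
      rw [map_mul, hQ.tau, map_ofNat]
      ring }
  th := by
    rw [hQ.tau]
    ring
  int := by
    refine IsIntegral.of_pow (n := 2) (by norm_num) ?_
    rw [hQ.sq]
    exact JXD.int_jF F D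
  gen := fun z hz => a1_gen_P hD h2 hQ hz
  ne := by
    have : IsDomain Eis := eis_isDomain
    exact mul_ne_zero (by decide) hD.ne_zero

theorem qr_Q (hD : Squarefree D) {t : Eis} (ht : (4 : Eis) ∣ D - t ^ 2) (hQ : Quad D r τ) :
    QR D r ((jF F t + r) / 2) τ where
  quad := hQ
  th := by
    have h2 : τ (2 : F) = 2 := map_ofNat τ 2
    rw [map_div₀, map_add, JXD.tau_jF, hQ.tau, h2]
    ring
  int := by
    obtain ⟨k, hk⟩ := ht
    have e1 : ((jF F t + r) / 2) * ((jF F t + r) / 2 - jF F t) = jF F k := by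
      have h1 : r ^ 2 = jF F t ^ 2 + 4 * jF F k := by
        rw [hQ.sq, show D = t ^ 2 + 4 * k by linear_combination hk, map_add, map_mul, map_pow, map_ofNat]
      field_simp
      linear_combination h1
    have hj : ∀ a : Eis, jF F a = algebraMap (𝓞 KK) F (eE a) := fun a => by
      rw [JD.jF_apply, JD.jK_apply]
      exact (IsScalarTower.algebraMap_apply (𝓞 KK) KK F (eE a)).symm
    have hi : IsIntegral (𝓞 KK) ((jF F t + r) / 2) := by
      refine ⟨Polynomial.X ^ 2 - (Polynomial.C (eE t) * Polynomial.X + Polynomial.C (eE k)), ?_, ?_⟩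
      · apply Polynomial.monic_X_pow_sub
        refine lt_of_le_of_lt (b := ((1 : ℕ) : WithBot ℕ)) ?_ (by decide)
        exact Polynomial.degree_linear_le
      · simp only [Polynomial.eval₂_sub, Polynomial.eval₂_add, Polynomial.eval₂_mul, Polynomial.eval₂_pow,
          Polynomial.eval₂_X, Polynomial.eval₂_C]
        rw [← hj, ← hj]
        linear_combination e1
    exact isIntegral_trans _ hi
  gen := by
    intro z hz
    obtain ⟨u, v, U, V, N, huv, hU', hv, hUV⟩ := a1_half hD hQ hz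
    obtain ⟨k, hk⟩ := ht
    have hx : (2 : Eis) ∣ U - V * t := by
      have h1 : (2 : Eis) ∣ (U - V * t) ^ 2 :=
        ⟨2 * N + 2 * V ^ 2 * k - (U - V * t) * (V * t), by linear_combination -hUV + V ^ 2 * hk⟩
      exact a1_sq2 h1
    obtain ⟨A, hA⟩ := hx
    have h2 : (2 : F) ≠ 0 := two_ne_zero
    have hu2 : 2 * algebraMap KK F u = jF F U := by
      rw [JD.jF_apply, ← hU', map_mul, map_ofNat]
    have hv2 : 2 * algebraMap KK F v = jF F V := by
      rw [JD.jF_apply, ← hv, map_mul, map_ofNat]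
    refine ⟨A, V, ?_⟩
    have h3 : jF F U = 2 * jF F A + jF F V * jF F t := by
      rw [show U = 2 * A + V * t by linear_combination hA, map_add, map_mul, map_mul, map_ofNat]
    apply mul_left_cancel₀ h2
    rw [huv]
    field_simp
    linear_combination hu2 + hv2 * r + h3
  ne := hD.ne_zero

end

end JP
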