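import Pool.Agent.JP.A6

/-!
# [JP-A8] the class of `(T + B s) / (T - B s)`

PROOF (model: `JXD.ps_beta` in `Pool/Agent/JXD/F2.lean`). Let `w` be over `λ` (`hw`), `L = w (jF la) < 1`. `w (jF T) = 1`, `w (jF n) = 1` (`JXD.ov_mem`, `JXD.q3b_le`, `JXD.int_jF`), `r'` is integral (`JG.int_r hQ'` or `IsIntegral.of_pow` with `hQ'.sq`), so `w r' ≤ 1`.
Let `ε = jF B * s / jF T`. `w ε ^ 2 ≤ L`: `(jF n)² (jF B)² s² = (jF δ)² (jF B)² r'² = jF (δ² B² D')` (`hns`, `hQ'.sq`) and `la ∣ B² D'`, so `w (jF (B² D')) ≤ L` (write `B² D' = la c`, `map_mul`), `w (jF δ) ≤ 1`.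
`(jF T + jF B s) / (jF T - jF B s) = (1 + ε) / (1 - ε)` (`jF T ≠ 0`; `1 ± ε ≠ 0` because `w ε < 1`). Apply `f2_gen` with `hn := JD.G1_nat w`.
Let `y = 2 e B C`, `z = jF y * r'`, `w z ≤ 1`. `jF T * jF n * (ε - z) = jF (n B) s - jF (n T y) r' = jF (B (δ - 2 e n (C T))) r'` and `9 ∣ δ - 2 e n (C T)`, `9 = la ^ 4 * om` (`by decide`), so `w (ε - z) ≤ L ^ 4 ≤ L ^ 3`.
`(32 ε + 1376 ε³ + 18848 ε⁵) - jF q * r' = 32 (ε - z) + 1376 (ε³ - z³) + 18848 (ε⁵ - z⁵)` because `jF (y² D') = jF y ^ 2 * r' ^ 2`; this is `(ε - z) * (..)` with a factor of valuation `≤ 1` (`w ε ≤ 1`, `w z ≤ 1`).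
Add the two estimates (`Valuation.map_add_le`).
-/

set_option autoImplicit false

open NumberField IsDedekindDomain
open scoped Classical

namespace JP

open CM27 CF JZ JC JXC
open CU (la om eE)
open JD (Quad jF jK OvLa InM)
open JXD (N1)
open JG (WG UCG ClG PG Qs NoBadP LamP LC)

section
variable {D' : Eis} {F : Type} [Field F] [NumberField F] [Algebra KK F] {r' s : F} {τ : F ≃ₐ[KK] F}

theorem qs_direct {n δ e T B C : Eis} (hQ' : Quad D' r' τ) (hns : jF F n * s = jF F δ * r') (hn : ¬ la ∣ n)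
    (he : (9 : Eis) ∣ 2 * e * n - δ) (hT0 : ¬ la ∣ T) (hB : la ∣ B ^ 2 * D') (hC : (9 : Eis) ∣ C * T - 1) :
    Qs r' ((jF F T + jF F B * s) / (jF F T - jF F B * s))
      ((2 * e * B * C) * (32 + 1376 * ((2 * e * B * C) ^ 2 * D') + 18848 * ((2 * e * B * C) ^ 2 * D') ^ 2)) := by
  intro w hw
  have hnz : ∀ x : Eis, ¬ la ∣ x → w.valuation F (jF F x) = 1 := fun x hx => by
    apply le_antisymm (JXD.q3b_le w (JXD.int_jF F x))
    rw [← not_lt, JXD.ov_mem w hw]
    exact hx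
  have hwT := hnz T hT0
  have hwn := hnz n hn
  have hT1 : jF F T ≠ 0 := by
    intro h
    rw [h, map_zero] at hwT
    exact zero_ne_one hwT
  have hn1 : jF F n ≠ 0 := by
    intro h
    rw [h, map_zero] at hwn
    exact zero_ne_one hwn
  have hri : IsIntegral ℤ r' := by
    apply IsIntegral.of_pow (n := 2) (by norm_num)
    rw [hQ'.sq]
    exact JXD.int_jF F D'
  have hwr : w.valuation F r' ≤ 1 := JXD.q3b_le w hri
  have hL : w.valuation F (jF F la) < 1 := hw
  have hint : ∀ x : Eis, w.valuation F (jF F x) ≤ 1 := fun x => JXD.q3b_le w (JXD.int_jF F x)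
  have hnat : ∀ k : ℕ, w.valuation F (k : F) ≤ 1 := fun k => JD.G1_nat w k
  have hws : w.valuation F s = w.valuation F (jF F δ) * w.valuation F r' := by
    have h := congrArg (w.valuation F) hns
    rwa [map_mul, map_mul, hwn, one_mul] at h
  have hr2 : w.valuation F r' ^ 2 = w.valuation F (jF F D') := by
    rw [← map_pow, hQ'.sq]
  set ε : F := jF F B * s / jF F T with hε
  have hwε : w.valuation F ε = w.valuation F (jF F B) * (w.valuation F (jF F δ) * w.valuation F r') := by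
    rw [hε, map_div₀, hwT, div_one, map_mul, hws]
  have hε2 : w.valuation F ε ^ 2 ≤ w.valuation F (jF F la) := by
    obtain ⟨c, hc⟩ := hB
    have h1 : w.valuation F ε ^ 2 = w.valuation F (jF F δ) ^ 2 * w.valuation F (jF F (B ^ 2 * D')) := by
      rw [hwε, map_mul, map_mul, map_pow, map_pow, ← hr2, mul_pow, mul_pow, mul_left_comm]
    rw [h1, hc, map_mul, map_mul]
    calc w.valuation F (jF F δ) ^ 2 * (w.valuation F (jF F la) * w.valuation F (jF F c))
        ≤ 1 * (w.valuation F (jF F la) * 1) :=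
          mul_le_mul' (pow_le_one' (hint δ) 2) (mul_le_mul' le_rfl (hint c))
      _ = w.valuation F (jF F la) := by rw [mul_one, one_mul]
  have hε1 : w.valuation F ε < 1 := by
    by_contra h
    have h3 : 1 ≤ w.valuation F ε := not_lt.1 h
    exact absurd (lt_of_le_of_lt hε2 hL) (not_lt.2 (one_le_pow₀ h3))
  have h1e : (1 - ε) ≠ 0 := by
    intro h
    have h2 : ε = 1 := (sub_eq_zero.1 h).symm
    rw [h2, map_one] at hε1
    exact lt_irrefl _ hε1
  have h2e : 1 + ε ≠ 0 := by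
    intro h
    have h2 : ε = -1 := by linear_combination h
    rw [h2, Valuation.map_neg, map_one] at hε1
    exact lt_irrefl _ hε1
  have hb : (jF F T + jF F B * s) / (jF F T - jF F B * s) = (1 + ε) / (1 - ε) := by
    have h1 : jF F T - jF F B * s = jF F T * (1 - ε) := by
      rw [hε]
      field_simp
    have h2 : jF F T + jF F B * s = jF F T * (1 + ε) := by
      rw [hε]
      field_simp
    rw [h1, h2, mul_div_mul_left _ _ hT1]
  rw [hb]
  set y : Eis := 2 * e * B * C with hy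
  set z : F := jF F y * r' with hz
  have hwz : w.valuation F z ≤ 1 := by
    rw [hz, map_mul]
    exact mul_le_one' (hint y) hwr
  have hfg := f2_gen (w.valuation F) hL hnat hε2 h1e h2e
  have hq : jF F (y * (32 + 1376 * (y ^ 2 * D') + 18848 * (y ^ 2 * D') ^ 2)) * r' =
      32 * z + 1376 * z ^ 3 + 18848 * z ^ 5 := by
    simp only [map_mul, map_add, map_pow, map_ofNat, hz]
    rw [← hQ'.sq]
    ring
  have hdiv : (9 : Eis) ∣ δ - 2 * e * n * (C * T) := by
    have h1 : δ - 2 * e * n * (C * T) = -(2 * e * n - δ) - 2 * e * n * (C * T - 1) := by ring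
    rw [h1]
    exact dvd_sub ((dvd_neg).2 he) (hC.mul_left _)
  have hez : w.valuation F (ε - z) ≤ w.valuation F (jF F la) ^ 3 := by
    obtain ⟨c, hc⟩ := hdiv
    have h9 : (9 : Eis) = la ^ 3 * (la * om) := by decide
    have h1 : jF F T * jF F n * (ε - z) = jF F (la ^ 3 * (la * om) * c * B) * r' := by
      have h2 : jF F (B * (δ - 2 * e * n * (C * T))) = jF F (la ^ 3 * (la * om) * c * B) := by
        rw [hc, h9]
        congr 1
        ring
      rw [← h2, hε, hz, hy]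
      simp only [map_mul, map_sub, map_ofNat]
      field_simp
      linear_combination jF F B * hns
    have h3 := congrArg (w.valuation F) h1
    rw [map_mul, map_mul, hwT, hwn, one_mul, one_mul] at h3
    rw [h3, map_mul, map_mul, map_mul, map_mul, map_mul, map_mul, map_mul, map_pow, map_pow]
    calc w.valuation F (jF F la) ^ 3 * w.valuation F (jF F (la * om)) * w.valuation F (jF F c) *
          w.valuation F (jF F B) * w.valuation F r' ≤ w.valuation F (jF F la) ^ 3 * 1 * 1 * 1 * 1 :=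
          mul_le_mul' (mul_le_mul' (mul_le_mul' (mul_le_mul' le_rfl (hint (la * om))) (hint c)) (hint B)) hwr
      _ = w.valuation F (jF F la) ^ 3 := by simp only [mul_one]
  have hε1' : w.valuation F ε ≤ 1 := hε1.le
  have hmon : ∀ i j : ℕ, w.valuation F (ε ^ i * z ^ j) ≤ 1 := fun i j => by
    rw [map_mul, map_pow, map_pow]
    exact mul_le_one' (pow_le_one' hε1' i) (pow_le_one' hwz j)
  have hfac : w.valuation F (32 + 1376 * (ε ^ 2 * z ^ 0 + ε ^ 1 * z ^ 1 + ε ^ 0 * z ^ 2) +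
      18848 * (ε ^ 4 * z ^ 0 + ε ^ 3 * z ^ 1 + ε ^ 2 * z ^ 2 + ε ^ 1 * z ^ 3 + ε ^ 0 * z ^ 4)) ≤ 1 := by
    have a0 : w.valuation F (32 : F) ≤ 1 := by exact_mod_cast hnat 32
    have a1 : w.valuation F (1376 : F) ≤ 1 := by exact_mod_cast hnat 1376
    have a2 : w.valuation F (18848 : F) ≤ 1 := by exact_mod_cast hnat 18848
    refine Valuation.map_add_le _ (Valuation.map_add_le _ a0 ?_) ?_
    · rw [map_mul]
      exact mul_le_one' a1 (Valuation.map_add_le _ (Valuation.map_add_le _ (hmon 2 0) (hmon 1 1)) (hmon 0 2))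
    · rw [map_mul]
      exact mul_le_one' a2 (Valuation.map_add_le _ (Valuation.map_add_le _ (Valuation.map_add_le _
        (Valuation.map_add_le _ (hmon 4 0) (hmon 3 1)) (hmon 2 2)) (hmon 1 3)) (hmon 0 4))
  have hdiff : w.valuation F ((32 * ε + 1376 * ε ^ 3 + 18848 * ε ^ 5) - (32 * z + 1376 * z ^ 3 + 18848 * z ^ 5)) ≤
      w.valuation F (jF F la) ^ 3 := by
    have h1 : (32 * ε + 1376 * ε ^ 3 + 18848 * ε ^ 5) - (32 * z + 1376 * z ^ 3 + 18848 * z ^ 5) =
        (ε - z) * (32 + 1376 * (ε ^ 2 * z ^ 0 + ε ^ 1 * z ^ 1 + ε ^ 0 * z ^ 2) +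
          18848 * (ε ^ 4 * z ^ 0 + ε ^ 3 * z ^ 1 + ε ^ 2 * z ^ 2 + ε ^ 1 * z ^ 3 + ε ^ 0 * z ^ 4)) := by ring
    rw [h1, map_mul]
    calc _ ≤ w.valuation F (jF F la) ^ 3 * 1 := mul_le_mul' hez hfac
      _ = w.valuation F (jF F la) ^ 3 := mul_one _
  have hsum := Valuation.map_add_le _ hfg hdiff
  rw [hq]
  have hfin : ((1 + ε) / (1 - ε)) ^ 8 - (((1 + ε) / (1 - ε)) ^ 8)⁻¹ - (32 * ε + 1376 * ε ^ 3 + 18848 * ε ^ 5) +
      ((32 * ε + 1376 * ε ^ 3 + 18848 * ε ^ 5) - (32 * z + 1376 * z ^ 3 + 18848 * z ^ 5)) =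
      ((1 + ε) / (1 - ε)) ^ 8 - (((1 + ε) / (1 - ε)) ^ 8)⁻¹ - (32 * z + 1376 * z ^ 3 + 18848 * z ^ 5) := by ring
  rwa [hfin] at hsum

end

end JP
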