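import Pool.Agent.JP.Base

/-!
# [JP-W] the conditions depend only on the residues modulo `9`

`9 = λ⁴ ω`, so `la ^ 3 ∣ 9`, `3 ∣ 9`, `la ∣ 9`, `la ^ 2 ∣ 9` (`⟨_, by decide⟩`).

`wg_neg`: PROOF. In every case of `JG.WG` (file `Pool/Agent/JG/UC.lean`) replace `t` by `-t` (and `b` by `-b` in the fifth case, `(-b)² = b²`).
`wg_congr`: PROOF. In every case: `la³ ∣ q' - ... = (q - ...) - (q - q')`; `la² ∣ q'`, `la ∣ q'`.
`wg_congrD`: PROOF. In every case: `JX.Dig D' d₀ d₁ d₂` from `JX.Dig D d₀ d₁ d₂` (`la³ ∣ D' - ...`), `¬ la ∣ D'`, `¬ 3 ∣ D' - η`, `3 ∣ D' - η`, `la ^ 3 ∣ D' - la * (..)`, `la ∣ D'`.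
`adm_congr`: PROOF. The four conditions of `Adm`. For the last: `D' = la * c`, `D - D' = 9 k = la * (la ^ 3 * om * k)`, so `D = la * (c + la ^ 3 * om * k)`; `la ^ 2 ∣ c - (η + la)` implies `la ^ 2 ∣ (c + la ^ 3 * om * k) - (η + la)`.
`loc_congr`: PROOF. For `x y`: `la ∣ f² D'` implies `la ∣ f² D`; so `JG.WG j D (psi f D)`, `JG.WG j D' (psi f D)` by `wg_congrD`, and `9 ∣ psi f D - psi f D'` (`psi f D - psi f D' = f * ((1 + f² D)² - (1 + f² D')²)`, divisible by `D - D'`), `wg_congr`.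
-/

set_option autoImplicit false

namespace JP

open CM27 CU JZ JC JXC

private theorem w_nine : (9 : Eis) = la ^ 4 * om := by decide

private theorem w_la3 : (la ^ 3 : Eis) ∣ 9 := ⟨la * om, by decide⟩

private theorem w_la2 : (la ^ 2 : Eis) ∣ 9 := ⟨la ^ 2 * om, by decide⟩

private theorem w_la1 : (la : Eis) ∣ 9 := ⟨la ^ 3 * om, by decide⟩

private theorem w_three : (3 : Eis) ∣ 9 := ⟨3, by decide⟩

/-- divisibility of `D' - x` from `D - x` -/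
private theorem w_cg {m D D' : Eis} (x : Eis) (hm : m ∣ 9) (hD : (9 : Eis) ∣ D - D')
    (h : m ∣ D - x) : m ∣ D' - x := by
  have h1 : D' - x = (D - x) - (D - D') := by ring
  rw [h1]
  exact dvd_sub h (hm.trans hD)

private theorem w_cg0 {m D D' : Eis} (hm : m ∣ 9) (hD : (9 : Eis) ∣ D - D')
    (h : m ∣ D) : m ∣ D' := by
  have h1 : D' = D - (D - D') := by ring
  rw [h1]
  exact dvd_sub h (hm.trans hD)

private theorem w_symm {D D' : Eis} (hD : (9 : Eis) ∣ D - D') : (9 : Eis) ∣ D' - D := by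
  have h1 : D' - D = -(D - D') := by ring
  rw [h1]
  exact (dvd_neg).2 hD

theorem wg_neg {j : ℕ} {D' q : Eis} (h : JG.WG j D' q) : JG.WG j D' (-q) := by
  rcases h with ⟨h1, h2, h3, d₀, d₁, d₂, t, h4, h5⟩ | ⟨h1, h2, h3⟩ | ⟨h1, h2, t, h3⟩ | ⟨h1, h2, h3⟩ |
    ⟨h1, h2, b, e₀, e₁, t, hb, he, h3, h4⟩ | ⟨h1, h2, h3⟩
  · refine Or.inl ⟨h1, h2, h3, d₀, d₁, d₂, -t, h4, ?_⟩
    have h6 : -q - ((-t : ℤ) : Eis) * (la * (1 + ((d₁ * (1 + d₂) : ℤ) : Eis) * la)) =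
        -(q - (t : Eis) * (la * (1 + ((d₁ * (1 + d₂) : ℤ) : Eis) * la))) := by
      push_cast
      ring
    rw [h6]
    exact (dvd_neg).2 h5
  · exact Or.inr (Or.inl ⟨h1, h2, (dvd_neg).2 h3⟩)
  · refine Or.inr (Or.inr (Or.inl ⟨h1, h2, -t, ?_⟩))
    have h6 : -q - ((-t : ℤ) : Eis) * la = -(q - (t : Eis) * la) := by
      push_cast
      ring
    rw [h6]
    exact (dvd_neg).2 h3
  · exact Or.inr (Or.inr (Or.inr (Or.inl ⟨h1, h2, (dvd_neg).2 h3⟩)))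
  · refine Or.inr (Or.inr (Or.inr (Or.inr (Or.inl ⟨h1, h2, -b, e₀, e₁, -t, ?_, he, h3, ?_⟩))))
    · rcases hb with rfl | rfl | rfl
      · exact Or.inl (by norm_num)
      · exact Or.inr (Or.inr rfl)
      · exact Or.inr (Or.inl (by norm_num))
    · have h6 : -q - 2 * (((-b : ℤ) : Eis) + ((-t : ℤ) : Eis) *
          (la * ((e₀ : Eis) + ((e₁ - 1 - (-b) ^ 2 : ℤ) : Eis) * la))) =
          -(q - 2 * ((b : Eis) + (t : Eis) *
          (la * ((e₀ : Eis) + ((e₁ - 1 - b ^ 2 : ℤ) : Eis) * la)))) := by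
        push_cast
        ring
      rw [h6]
      exact (dvd_neg).2 h4
  · exact Or.inr (Or.inr (Or.inr (Or.inr (Or.inr ⟨h1, h2, (dvd_neg).2 h3⟩))))

theorem wg_congr {j : ℕ} {D' q q' : Eis} (h : JG.WG j D' q) (hq : la ^ 3 ∣ q - q') : JG.WG j D' q' := by
  have key : ∀ x : Eis, la ^ 3 ∣ q - x → la ^ 3 ∣ q' - x := by
    intro x hx
    have h1 : q' - x = (q - x) - (q - q') := by ring
    rw [h1]
    exact dvd_sub hx hq
  have key' : ∀ m : Eis, m ∣ la ^ 3 → m ∣ q → m ∣ q' := by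
    intro m hm hx
    have h1 : q' = q - (q - q') := by ring
    rw [h1]
    exact dvd_sub hx (hm.trans hq)
  have hla2 : (la ^ 2 : Eis) ∣ la ^ 3 := ⟨la, by ring⟩
  have hla1 : (la : Eis) ∣ la ^ 3 := ⟨la ^ 2, by ring⟩
  rcases h with ⟨h1, h2, h3, d₀, d₁, d₂, t, h4, h5⟩ | ⟨h1, h2, h3⟩ | ⟨h1, h2, t, h3⟩ | ⟨h1, h2, h3⟩ |
    ⟨h1, h2, b, e₀, e₁, t, hb, he, h3, h4⟩ | ⟨h1, h2, h3⟩
  · exact Or.inl ⟨h1, h2, h3, d₀, d₁, d₂, t, h4, key _ h5⟩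
  · exact Or.inr (Or.inl ⟨h1, h2, key' _ hla2 h3⟩)
  · exact Or.inr (Or.inr (Or.inl ⟨h1, h2, t, key _ h3⟩))
  · exact Or.inr (Or.inr (Or.inr (Or.inl ⟨h1, h2, key' _ hla2 h3⟩)))
  · exact Or.inr (Or.inr (Or.inr (Or.inr (Or.inl ⟨h1, h2, b, e₀, e₁, t, hb, he, h3, key _ h4⟩))))
  · exact Or.inr (Or.inr (Or.inr (Or.inr (Or.inr ⟨h1, h2, key' _ hla1 h3⟩))))

theorem wg_congrD {j : ℕ} {D D' q : Eis} (hD : (9 : Eis) ∣ D - D') (h : JG.WG j D q) : JG.WG j D' q := by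
  have hD' := w_symm hD
  rcases h with ⟨h1, h2, h3, d₀, d₁, d₂, t, h4, h5⟩ | ⟨h1, ⟨η, hη, h2⟩, h3⟩ | ⟨h1, h2, t, h3⟩ |
    ⟨h1, h2, h3⟩ | ⟨h1, h2, b, e₀, e₁, t, hb, he, h3, h4⟩ | ⟨h1, h2, h3⟩
  · refine Or.inl ⟨h1, fun h => h2 (w_cg0 w_la1 hD' h), fun η hη h => h3 η hη (w_cg η w_three hD' h),
      d₀, d₁, d₂, t, ?_, h5⟩
    exact ⟨h4.1, h4.2.1, h4.2.2.1, w_cg _ w_la3 hD h4.2.2.2⟩
  · exact Or.inr (Or.inl ⟨h1, ⟨η, hη, w_cg η w_three hD h2⟩, h3⟩)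
  · exact Or.inr (Or.inr (Or.inl ⟨h1, fun h => h2 (w_cg0 w_la1 hD' h), t, h3⟩))
  · exact Or.inr (Or.inr (Or.inr (Or.inl ⟨h1, fun h => h2 (w_cg0 w_la1 hD' h), h3⟩)))
  · exact Or.inr (Or.inr (Or.inr (Or.inr (Or.inl ⟨h1, w_cg0 w_la1 hD h2, b, e₀, e₁, t, hb, he,
      w_cg _ w_la3 hD h3, h4⟩))))
  · exact Or.inr (Or.inr (Or.inr (Or.inr (Or.inr ⟨h1, w_cg0 w_la1 hD h2, h3⟩))))

theorem adm_congr {j : ℕ} {D D' : Eis} (hD : (9 : Eis) ∣ D - D') (h : Adm j D) : Adm j D' := by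
  have hD' := w_symm hD
  obtain ⟨h1, h2, h3, h4⟩ := h
  refine ⟨fun h => h1 (w_cg0 w_la2 hD' h), ?_, ?_, ?_⟩
  · intro hj hla η hη hd
    refine h2 hj (fun h => hla (w_cg0 w_la1 hD h)) η hη ?_
    have e1 : D - η - la ^ 2 = D - (η + la ^ 2) := by ring
    have e2 : D' - η - la ^ 2 = D' - (η + la ^ 2) := by ring
    rw [e1]
    rw [e2] at hd
    exact w_cg _ w_la3 hD' hd
  · intro hj hla
    have h5 := h3 hj (fun h => hla (w_cg0 w_la1 hD h))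
    have e1 : D + 1 = D - (-1) := by ring
    have e2 : D' + 1 = D' - (-1) := by ring
    rw [e1] at h5
    rw [e2]
    exact w_cg _ w_la1 hD h5
  · intro hj c hc η hη hd
    obtain ⟨k, hk⟩ := hD
    refine h4 hj (c + la ^ 3 * om * k) ?_ η hη ?_
    · have e1 : D = D' + 9 * k := by linear_combination hk
      rw [e1, hc, w_nine]
      ring
    · have e1 : c + la ^ 3 * om * k - (η + la) = (c - (η + la)) + la ^ 2 * (la * om * k) := by ring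
      rw [e1]
      exact dvd_add hd (Dvd.intro _ rfl)

theorem loc_congr {j : ℕ} {D D' a b c d : Eis} (hD : (9 : Eis) ∣ D - D') (h : Loc j D a b c d) : Loc j D' a b c d := by
  intro x y hx hy
  have h1 : la ∣ fv a b c d x y ^ 2 * D := by
    have e1 : fv a b c d x y ^ 2 * D = fv a b c d x y ^ 2 * D' + fv a b c d x y ^ 2 * (D - D') := by
      ring
    rw [e1]
    exact dvd_add hy (Dvd.dvd.mul_left (w_la1.trans hD) _)
  have h2 := wg_congrD hD (h x y hx h1)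
  refine wg_congr h2 ?_
  have e2 : psi (fv a b c d x y) D - psi (fv a b c d x y) D' =
      (D - D') * (fv a b c d x y ^ 3 * (2 + fv a b c d x y ^ 2 * (D + D'))) := by
    simp only [psi]
    ring
  rw [e2]
  exact Dvd.dvd.mul_right (w_la3.trans hD) _

end JP
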