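import Pool.Agent.JP.QR
import Pool.Agent.JP.W

/-!
# [JP-A9] uniqueness of the class modulo `λ³`

`qs_unique`: PROOF. `w` over `λ` by `JG.exists_ov hD hQ`. `w (jF (q - q') * r') ≤ w (jF la) ^ 3` (difference of `h w hw` and `h' w hw`, `Valuation.map_sub_le`). If `la ∣ D'`: as in the proof of `JG.psR_qs` (file `Pool/Agent/JG/P.lean`): `JG.ovR hD hl h2 hQ w hw`:
`w (jF la) = exp (-2)`, `w r' = exp (-1)`, write `q - q' = la ^ j * z` with `j ≤ 2`, `¬ la ∣ z` if not divisible by `la ^ 3`, and compare: `-2 j - 1 ≤ -6` is false. If `¬ la ∣ D'`: `w r' ^ 2 = w (jF D') = 1`, so `w r' = 1`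
(`JXD.ov_mem`, `JXD.q3a_le`), and for `q - q' = la ^ j * z`, `j ≤ 2`: `w (jF la) ^ j ≤ w (jF la) ^ 3` is false because `0 < w (jF la) < 1` (`pow_lt_pow_right_of_lt_one₀`).
-/

set_option autoImplicit false

open NumberField IsDedekindDomain
open scoped Classical

namespace JP

open CM27 CF JZ JC JXC
open CU (la om eE)
open JD (Quad jF jK OvLa InM)
open JXD (N1)
open JG (WG UCG ClG PG Qs NoBadP LamP LC)

section
variable {D' : Eis} {F : Type} [Field F] [NumberField F] [Algebra KK F] {r' : F} {τ : F ≃ₐ[KK] F}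

theorem qs_unique (hD : D' ≠ 0) (h2 : ¬ la ^ 2 ∣ D') (hQ : Quad D' r' τ) {b : F} {q q' : Eis} (h : Qs r' b q) (h' : Qs r' b q') :
    la ^ 3 ∣ q - q' := by
  have hdom : IsDomain Eis := eis_isDomain
  obtain ⟨w, hw⟩ := JG.exists_ov hD hQ
  have h3 : w.valuation F (jF F (q - q') * r') ≤ w.valuation F (jF F la) ^ 3 := by
    have e : jF F (q - q') * r' = (b ^ 8 - (b ^ 8)⁻¹ - jF F q' * r') - (b ^ 8 - (b ^ 8)⁻¹ - jF F q * r') := by
      rw [map_sub]
      ring
    rw [e]
    exact Valuation.map_sub_le _ (h' w hw) (h w hw)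
  by_contra hnot
  have key : ∀ (z : Eis), ¬ la ∣ z → w.valuation F (jF F z) = 1 := by
    intro z hz
    apply le_antisymm (JXD.q3a_le w (JXD.int_jF F z))
    rw [← not_lt]
    intro h5
    exact hz ((JXD.ov_mem w hw z).1 h5)
  obtain ⟨j, z, hj, hz, hzq⟩ : ∃ (j : ℕ) (z : Eis), j ≤ 2 ∧ ¬ la ∣ z ∧ q - q' = la ^ j * z := by
    by_cases h5 : la ∣ q - q'
    · obtain ⟨z, hz⟩ := h5
      by_cases h6 : la ∣ z
      · obtain ⟨z', hz'⟩ := h6
        refine ⟨2, z', le_rfl, ?_, by rw [hz, hz']; ring⟩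
        rintro ⟨z'', h7⟩
        exact hnot ⟨z'', by rw [hz, hz', h7]; ring⟩
      · exact ⟨1, z, by norm_num, h6, by rw [hz, pow_one]⟩
    · exact ⟨0, _, by norm_num, h5, by rw [pow_zero, one_mul]⟩
  rw [map_mul, hzq, map_mul, map_mul, map_pow, map_pow, key z hz, mul_one] at h3
  by_cases hl : la ∣ D'
  · obtain ⟨e1, e2⟩ := JG.ovR hD hl h2 hQ w hw
    rw [e1, e2, ← WithZero.exp_nsmul, ← WithZero.exp_add, ← WithZero.exp_nsmul,
      WithZero.exp_le_exp] at h3
    simp at h3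
    omega
  · have h6 : w.valuation F r' ^ 2 = 1 := by
      rw [← map_pow, hQ.sq, key D' hl]
    have h7 : w.valuation F r' = 1 := by
      apply le_antisymm
      · by_contra hlt
        rw [not_le] at hlt
        exact absurd h6 (one_lt_pow₀ hlt two_ne_zero).ne'
      · by_contra hlt
        rw [not_le] at hlt
        exact absurd h6 (pow_lt_one₀ zero_le hlt two_ne_zero).ne
    rw [h7, mul_one] at h3
    have h8 : w.valuation F (jF F la) < 1 := (JXD.ov_mem w hw la).2 dvd_rfl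
    have h9 : 0 < w.valuation F (jF F la) := by
      rw [zero_lt_iff]
      rw [Valuation.ne_zero_iff]
      intro h0
      exact CU.la_prime.ne_zero (JD.jF_inj F (by rw [h0, map_zero]))
    exact absurd h3 (not_le.2 (pow_lt_pow_right_of_lt_one₀ h9 h8 (by omega)))

end

end JP
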