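import Pool.Agent.JP.A7
import Pool.Agent.JP.A8
import Pool.Agent.JP.A9

/-!
# [JP-A10] the local condition for the value of the form

`β = L³ / α`, `2 β = T + B s`. PROOF. `hD0 : D ≠ 0 := JG.nz hD`, `D' ≠ 0`, `s² = jF Δ` (`hq.quad.sq`), `τ s = - s` (`hq.quad.tau`), `α ≠ 0`, `(τ α)⁻¹ = α`. Let `r' = r / jF la ^ j`, `hQ' : Quad D' r' τ := JG.quad' hj hQ`.
1. `n² Δ = δ² D'`: square `hns` and use `hq.quad.sq`, `hQ'.sq`, `JD.jF_inj`.
2. `T² - B² Δ = 4 H³`: `(2 β) * τ (2 β) = (jF T + jF B s) (jF T - jF B s) = jF T ^ 2 - jF (B ^ 2 Δ)` (`JXD.tau_jF`) and `β * τ β = L³ (τ L)³ / (α τ α) = (jF H)³`; `JD.jF_inj`.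
3. `la ∣ B² D'`: `la ∣ (e B)² D' = e² (B² D')` and `¬ la ∣ e` (`9 ∣ 2 e n - δ`, `¬ la ∣ δ`). `la ∣ B² Δ`: `n² B² Δ = δ² B² D'` and `¬ la ∣ n`. So `¬ la ∣ T`: otherwise `la ∣ 4 H³`, but `¬ la ∣ H`, `¬ la ∣ 4`.
4. `eis_loc` gives `η`, `C`; `qs_direct` gives `Qs r' ((jF T + jF B s) / (jF T - jF B s)) q₀`, `q₀ = (2 e B C) (..)`.
5. `(jF T + jF B s) / (jF T - jF B s) = (2 β) / τ (2 β) = β / τ β = (L / τ L)³ * (α²)⁻¹` (`β / τ β = (L³ / α) / ((τ L)³ * α)`).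
6. For `w` over `λ`: `w L = 1` and `w (τ L) = 1`: `w α = 1` (`hα.2.2.1 w hw`), `w (L³) = w (L³ / α) * w α ≤ 1` (`hL : InM α L` is the integrality of `L³ / α`, `JXD.q3b_le`), so `w L ≤ 1`; the same for `τ L` (with the conjugate place, `JXD.exists_cj`, which is also over `λ`:
`τ (jF la) = jF la`); `w L * w (τ L) = w (jF H) = 1` because `¬ la ∣ H` (`JXD.ov_mem`). So both are `1`. Hence `N1 τ (L / τ L)` (`N1 τ a` is `a * τ a = 1 ∧ ∀ w, OvLa w → w a = 1`; look at `JXD.N1`; `L ≠ 0`, `JD.tau_tau hD0 hQ`), as `hn1` in `JXD.noBad_ofX`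
(file `Pool/Agent/JXD/F3.lean`), and `N1 τ α := ⟨hα.1, hα.2.2.1⟩`.
7. `hLC : LC τ (PG D r) := (JG.types hD hQ).1`. `PG D r ((L / τ L)³ * (α²)⁻¹)` from `hLC.mul`, `hLC.cube`, `hLC.inv` and `hα.2.2.2` (`α² = α * α`; `JXD.n1_pow`, `JXD.n1_inv`, `JXD.n1_mul`), as `hpx` in the model.
8. `(JG.pg_iffG hj h2).1` gives `q` with `WG j D' q` and `Qs r' b q`; `qs_unique` gives `la³ ∣ q - q₀`; `wg_congr` gives `WG j D' q₀`; with `la³ ∣ q₀ + η psi (e B) D'` and `wg_congr` again `WG j D' (- η psi)`; `wg_neg` if `η = 1`. (`q₀ - (- η psi) = q₀ + η psi`.)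
-/

set_option autoImplicit false

open NumberField IsDedekindDomain
open scoped Classical

namespace JP

open CM27 CF JZ JC JXC
open CU (la om eE)
open JD (Quad jF jK OvLa InM)
open JXD (N1)
open JG (WG UCG ClG PG Qs NoBadP LamP LC)

section
variable {D D' Δ : Eis} {F : Type} [Field F] [NumberField F] [Algebra KK F] {r s θ : F} {τ : F ≃ₐ[KK] F} {α : F}

theorem loc_of {j : ℕ} {e n δ : Eis} (hD : ClG D) (hj : D = la ^ (2 * j) * D') (h2 : ¬ la ^ 2 ∣ D') (hQ : Quad D r τ)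
    (hq : QR Δ s θ τ) (hns : jF F n * s = jF F δ * (r / jF F la ^ j)) (hn : ¬ la ∣ n) (hδ : ¬ la ∣ δ)
    (he : (9 : Eis) ∣ 2 * e * n - δ) (hα : LamP τ (PG D r) α) {L : F} {T B H : Eis} (hL : InM α L)
    (hH : L * τ L = jF F H) (hT : 2 * (L ^ 3 / α) = jF F T + jF F B * s) (hH1 : ¬ la ∣ H)
    (hB : la ∣ (e * B) ^ 2 * D') : WG j D' (psi (e * B) D') := by
  haveI hdom : IsDomain Eis := eis_isDomain
  have hp := CU.la_prime
  have hD0 : D ≠ 0 := JG.nz hD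
  have hD'0 : D' ≠ 0 := by
    rintro rfl
    exact hD0 (by rw [hj, mul_zero])
  obtain ⟨r', hr'⟩ : ∃ r', r' = r / jF F la ^ j := ⟨_, rfl⟩
  rw [← hr'] at hns
  have hQ' : Quad D' r' τ := by
    rw [hr']
    exact JG.quad' hj hQ
  have hinv' : (τ α)⁻¹ = α := inv_eq_of_mul_eq_one_left hα.1
  have hα0 : α ≠ 0 := left_ne_zero_of_mul_eq_one hα.1
  have hττ := JD.tau_tau hD0 hQ
  have hτj : ∀ a : Eis, τ (jF F a) = jF F a := JXD.tau_jF τ
  have hnΔ : n ^ 2 * Δ = δ ^ 2 * D' := by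
    apply JD.jF_inj F
    have h1 : (jF F n * s) ^ 2 = (jF F δ * r') ^ 2 := by rw [hns]
    rw [mul_pow, mul_pow, hq.quad.sq, hQ'.sq] at h1
    simp only [map_mul, map_pow]
    exact h1
  have hβτ : τ (L ^ 3 / α) = (τ L) ^ 3 * α := by
    rw [map_div₀, map_pow, div_eq_mul_inv, hinv']
  have hTτ : 2 * τ (L ^ 3 / α) = jF F T - jF F B * s := by
    have h1 := congrArg τ hT
    rw [map_mul, map_add, map_mul, hτj, hτj, hq.quad.tau, map_ofNat] at h1
    rw [h1]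
    ring
  have hββ : (L ^ 3 / α) * τ (L ^ 3 / α) = jF F H ^ 3 := by
    rw [hβτ, ← hH]
    field_simp
  have hTB : T ^ 2 - B ^ 2 * Δ = 4 * H ^ 3 := by
    apply JD.jF_inj F
    simp only [map_sub, map_mul, map_pow, map_ofNat]
    rw [← hββ, ← hq.quad.sq]
    linear_combination (-(2 * τ (L ^ 3 / α))) * hT - (jF F T + jF F B * s) * hTτ
  have h9la : la ∣ (9 : Eis) := ⟨la ^ 3 * om, by decide⟩
  have he0 : ¬ la ∣ e := by
    intro h1
    apply hδ
    have h3 : la ∣ 2 * e * n := (h1.mul_left 2).mul_right n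
    have h4 := dvd_sub h3 (h9la.trans he)
    rwa [sub_sub_cancel] at h4
  have hB' : la ∣ B ^ 2 * D' := by
    have h1 : la ∣ e ^ 2 * (B ^ 2 * D') := by
      have e1 : e ^ 2 * (B ^ 2 * D') = (e * B) ^ 2 * D' := by ring
      rw [e1]
      exact hB
    rcases hp.dvd_or_dvd h1 with h3 | h3
    · exact absurd (hp.dvd_of_dvd_pow h3) he0
    · exact h3
  have hBΔ : la ∣ B ^ 2 * Δ := by
    have h1 : la ∣ n ^ 2 * (B ^ 2 * Δ) := by
      have e1 : n ^ 2 * (B ^ 2 * Δ) = δ ^ 2 * (B ^ 2 * D') := by linear_combination B ^ 2 * hnΔ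
      rw [e1]
      exact hB'.mul_left _
    rcases hp.dvd_or_dvd h1 with h3 | h3
    · exact absurd (hp.dvd_of_dvd_pow h3) hn
    · exact h3
  have hT0 : ¬ la ∣ T := by
    intro h1
    have h3 : la ∣ 4 * H ^ 3 := by
      rw [← hTB]
      exact dvd_sub (dvd_pow h1 two_ne_zero) hBΔ
    rcases hp.dvd_or_dvd h3 with h4 | h4
    · have h5 : la ∣ (3 : Eis) := by
        rw [CU.three_eq]
        exact (Dvd.intro_left la (by ring : la * la = la ^ 2)).mul_left _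
      have h6 := dvd_sub h4 h5
      have e9 : (4 - 3 : Eis) = 1 := by ring
      rw [e9] at h6
      exact JXD.not_one_la h6
    · exact hH1 (hp.dvd_of_dvd_pow h4)
  obtain ⟨η, C, hη, hC, hloc⟩ := eis_loc hTB hT0 hB' hnΔ hδ he
  have hqs := qs_direct hQ' hns hn he hT0 hB' hC
  have hHw : ∀ w : HeightOneSpectrum (𝓞 F), OvLa w → w.valuation F (jF F H) = 1 := by
    intro w hw
    apply le_antisymm (JXD.q3b_le w (JXD.int_jF F H))
    rw [← not_lt, JXD.ov_mem w hw]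
    exact hH1
  have hLle : ∀ w : HeightOneSpectrum (𝓞 F), OvLa w → w.valuation F L ≤ 1 := by
    intro w hw
    have h1 : w.valuation F (L ^ 3 / α) ≤ 1 := JXD.q3b_le w hL
    rw [map_div₀, hα.2.2.1 w hw, div_one, map_pow] at h1
    by_contra hc
    rw [not_le] at hc
    exact absurd h1 (not_le.2 (one_lt_pow₀ hc three_ne_zero))
  have hτLle : ∀ w : HeightOneSpectrum (𝓞 F), OvLa w → w.valuation F (τ L) ≤ 1 := by
    intro w hw
    obtain ⟨w', hw'⟩ := JXD.exists_cj τ w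
    have h5 : OvLa w' := by
      show w'.valuation F (jF F la) < 1
      rw [hw', JXD.tau_jF]
      exact hw
    rw [← hw']
    exact hLle w' h5
  have hprod : ∀ w : HeightOneSpectrum (𝓞 F), OvLa w → w.valuation F L * w.valuation F (τ L) = 1 := by
    intro w hw
    rw [← map_mul, hH, hHw w hw]
  have hwL : ∀ w : HeightOneSpectrum (𝓞 F), OvLa w → w.valuation F L = 1 := by
    intro w hw
    apply le_antisymm (hLle w hw)
    have h1 := mul_le_mul' (le_refl (w.valuation F L)) (hτLle w hw)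
    rwa [hprod w hw, mul_one] at h1
  have hwτL : ∀ w : HeightOneSpectrum (𝓞 F), OvLa w → w.valuation F (τ L) = 1 := by
    intro w hw
    have h1 := hprod w hw
    rwa [hwL w hw, one_mul] at h1
  have hL0 : L ≠ 0 := by
    intro h0
    rw [h0, zero_mul] at hH
    apply hH1
    have h1 : H = 0 := JD.jF_inj F (by rw [map_zero]; exact hH.symm)
    rw [h1]
    exact dvd_zero _
  have hτL0 : τ L ≠ 0 := fun h0 => hL0 ((map_eq_zero τ).1 h0)
  have hquot : (jF F T + jF F B * s) / (jF F T - jF F B * s) = (L / τ L) ^ 3 * (α ^ 2)⁻¹ := by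
    rw [← hT, ← hTτ, hβτ]
    field_simp
  rw [hquot] at hqs
  have hLC : LC τ (PG D r) := (JG.types hD hQ).1
  have hn1 : N1 τ (L / τ L) := by
    refine ⟨?_, fun w hw => ?_⟩
    · rw [map_div₀, hττ]
      field_simp
    · rw [map_div₀, hwL w hw, hwτL w hw, div_one]
  have hnα : N1 τ α := ⟨hα.1, hα.2.2.1⟩
  have hpx : PG D r ((L / τ L) ^ 3 * (α ^ 2)⁻¹) := by
    refine hLC.mul _ _ (JXD.n1_pow hn1 3) (JXD.n1_inv (JXD.n1_pow hnα 2)) (hLC.cube _ hn1)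
      (hLC.inv _ (JXD.n1_pow hnα 2) ?_)
    rw [pow_two]
    exact hLC.mul _ _ hnα hnα hα.2.2.2 hα.2.2.2
  obtain ⟨q, hq1, hq2⟩ := (JG.pg_iffG hj h2).1 hpx
  rw [← hr'] at hq2
  have h3 := qs_unique hD'0 h2 hQ' hq2 hqs
  have h4 := wg_congr hq1 h3
  have h5 : WG j D' (-(η * psi (e * B) D')) := by
    apply wg_congr h4
    rw [sub_neg_eq_add]
    exact hloc
  rcases hη with rfl | rfl
  · have h6 := wg_neg h5
    rwa [one_mul, neg_neg] at h6
  · rwa [neg_one_mul, neg_neg] at h5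

end

end JP
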