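import Pool.Agent.JP.A5
import Pool.Agent.JP.A10

/-!
# [JP-A11] no form implies `NoBadP`

PROOF. `NoBadP τ P` is `∀ a, LamP τ P a → ∃ c, c ^ 3 = a`. Let `α` with `hα : LamP τ (PG D r) α` and assume `∀ c, c ^ 3 ≠ α`. `form_of_bad hq hα.1 hα.2.1 hc` gives `a b c d t`. We show `HF Δ e j D'` with this form (contradiction with `h`).
Let `x y` with `¬ la ∣ hes (e a) (e b) (e c) (e d) x y` and `la ∣ fv (e a) .. x y ^ 2 * D'`. `hes (e a) (e b) (e c) (e d) x y = e² hes a b c d x y` and `fv (e a) .. = e * fv a b c d x y` (`unfold hes`/`simp only [fv, val]`, `ring`), so `¬ la ∣ hes a b c d x y`.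
Take `L`, `T` from `form_of_bad` for `x y`. `H = t ^ 4 * hes a b c d x y`: `L * τ L = jF (t ^ 4) * (jF (t ^ 2) * (L * τ L))` because `t ^ 6 = 1`; `¬ la ∣ H` because `t ^ 2 * H = hes a b c d x y`.
Apply `loc_of` with `B = fv a b c d x y`: `WG j D' (psi (e * fv a b c d x y) D')`, and rewrite `e * fv a b c d x y = fv (e a) (e b) (e c) (e d) x y`.
-/

set_option autoImplicit false

open NumberField IsDedekindDomain
open scoped Classical

namespace JP

open CM27 CF JZ JC JXC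
open CU (la om eE)
open JD (Quad jF jK OvLa InM)
open JXD (N1)
open JG (WG UCG ClG PG Qs NoBadP LamP LC)

section
variable {D D' Δ : Eis} {F : Type} [Field F] [NumberField F] [Algebra KK F] {r s θ : F} {τ : F ≃ₐ[KK] F}

theorem noBad_of {j : ℕ} {e n δ : Eis} (hD : ClG D) (hj : D = la ^ (2 * j) * D') (h2 : ¬ la ^ 2 ∣ D') (hQ : Quad D r τ)
    (hq : QR Δ s θ τ) (hns : jF F n * s = jF F δ * (r / jF F la ^ j)) (hn : ¬ la ∣ n) (hδ : ¬ la ∣ δ)
    (he : (9 : Eis) ∣ 2 * e * n - δ) (h : ¬ HF Δ e j D') : NoBadP τ (PG D r) := by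
  intro α hα
  by_contra hcon
  have hc : ∀ c : F, c ^ 3 ≠ α := fun c hc => hcon ⟨c, hc⟩
  obtain ⟨a, b, c, d, t, ht, hE, hnz, hval⟩ := form_of_bad hq hα.1 hα.2.1 hc
  apply h
  refine ⟨a, b, c, d, hE, hnz, ?_⟩
  intro x y hx hy
  have e1 : hes (e * a) (e * b) (e * c) (e * d) x y = e ^ 2 * hes a b c d x y := by
    simp only [hes]
    ring
  have e2 : fv (e * a) (e * b) (e * c) (e * d) x y = e * fv a b c d x y := by
    simp only [fv, val]
    ring
  rw [e1] at hx
  rw [e2] at hy ⊢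
  have hx' : ¬ la ∣ hes a b c d x y := fun h' => hx (Dvd.dvd.mul_left h' _)
  obtain ⟨L, T, hL, hLH, hT⟩ := hval x y
  have hH : L * τ L = jF F (t ^ 4 * hes a b c d x y) := by
    have h6 : t ^ 4 * t ^ 2 = 1 := by
      rw [← pow_add]
      exact ht
    rw [map_mul, ← hLH, ← mul_assoc, ← map_mul, h6, map_one, one_mul]
  have hH1 : ¬ la ∣ t ^ 4 * hes a b c d x y := by
    intro hd
    apply hx'
    have h3 : hes a b c d x y = t ^ 2 * (t ^ 4 * hes a b c d x y) := by
      linear_combination (-hes a b c d x y) * ht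
    rw [h3]
    exact Dvd.dvd.mul_left hd _
  exact loc_of hD hj h2 hQ hq hns hn hδ he hα hL hH hT hH1 hy

end

end JP
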