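import Pool.Agent.JP.A1
import Pool.Agent.JP.A11

/-!
# [JP-A12] no form implies `UCG`

PROOF. `let _ := JG.algK (KD D) (w_mem D)` (see `JG.descent_UCG` in `Pool/Agent/JG/ZG.lean` for the exact form, with `letI`), `obtain ⟨τ, hQ⟩ := JG.exists_quadG hD` and `refine JG.uc_of_noBadG hD τ hQ ?_` for `D = la ^ (2 * j) * (n ^ 2 * D₁)`, `r = ⟨sD D, sD_mem D⟩`.
Let `r' = r / jF la ^ j`, `hQ' : Quad (n ^ 2 * D₁) r' τ := JG.quad' rfl hQ` and `r₁ = r' / jF n`: `hQ₁ : Quad D₁ r₁ τ` (`quad_n`: `fr` from `hQ'.fr`; `(r' / jF n)² = jF D₁` because `jF n ≠ 0`; `τ (r' / jF n) = - r' / jF n` by `JXD.tau_jF`).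
`n ≠ 0` because `¬ la ∣ n`. `h.2.2.1 : ¬ la ^ 2 ∣ n ^ 2 * D₁` (`Adm`).
P: `QR (4 * D₁) (2 * r₁) r₁ τ := qr_P h.1 h.2.1 hQ₁`, `δ = 2`: `jF n * (2 * r₁) = jF 2 * r'`; `¬ la ∣ 2` (`la ∣ 2` would give `la ∣ 1 = 3 - 2`; or `CU.la_dvd_iff`); `9 ∣ 2 * e * n - 2` from `he`. `noBad_of hD rfl .. hF`.
Q: `obtain ⟨t, ht⟩ := h.2.1.2.1`, `QR D₁ r₁ ((jF t + r₁) / 2) τ := qr_Q h.1 ht hQ₁`, `δ = 1`: `jF n * r₁ = jF 1 * r'`.
`open JL (KD sD)` and `open JXD (algK w_mem sD_mem)` as needed (see the header of `Pool/Agent/JG/TG.lean`).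
-/

set_option autoImplicit false

open NumberField IsDedekindDomain
open scoped Classical

namespace JP

open CM27 CF JZ JC JXC
open CU (la om eE)
open JD (Quad jF jK OvLa InM)
open JXD (N1)
open JG (WG UCG ClG PG Qs NoBadP LamP LC)

open JL (KD sD)

private theorem a12_jF_ne {F : Type} [Field F] [NumberField F] [Algebra KK F] {x : Eis} (hx : x ≠ 0) :
    jF F x ≠ 0 := by
  intro h0
  exact hx (JD.jF_inj F (by rw [h0, map_zero]))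

theorem quad_n {D₁ n : Eis} {F : Type} [Field F] [NumberField F] [Algebra KK F] {r : F} {τ : F ≃ₐ[KK] F} (hn : n ≠ 0)
    (hQ : Quad (n ^ 2 * D₁) r τ) : Quad D₁ (r / jF F n) τ := by
  have hn' : jF F n ≠ 0 := a12_jF_ne hn
  refine ⟨hQ.fr, ?_, ?_⟩
  · rw [div_pow, hQ.sq, map_mul, map_pow]
    field_simp
  · rw [map_div₀, JXD.tau_jF, hQ.tau]
    ring

private theorem a12_la_two : ¬ la ∣ (2 : Eis) := by
  intro h
  rw [CU.la_dvd_iff] at h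
  revert h
  decide

private theorem a12_la_one : ¬ la ∣ (1 : Eis) := by
  intro h
  rw [CU.la_dvd_iff] at h
  revert h
  decide

private theorem a12_ne {n : Eis} (hn : ¬ la ∣ n) : n ≠ 0 := by
  intro h0
  apply hn
  rw [h0]
  exact dvd_zero _

theorem uc_of_P {j : ℕ} {n e D₁ : Eis} (hn : ¬ la ∣ n) (he : (9 : Eis) ∣ e * n - 1)
    (hD : ClG (la ^ (2 * j) * (n ^ 2 * D₁))) (h : ClP j n D₁) (hF : ¬ HF (4 * D₁) e j (n ^ 2 * D₁)) :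
    UCG (la ^ (2 * j) * (n ^ 2 * D₁)) := by
  letI := algK (KD (la ^ (2 * j) * (n ^ 2 * D₁))) (JD.w_mem (la ^ (2 * j) * (n ^ 2 * D₁)))
  obtain ⟨τ, hQ⟩ := JG.exists_quadG hD
  refine JG.uc_of_noBadG hD τ hQ ?_
  have hn0 := a12_ne hn
  have hn' : jF (KD (la ^ (2 * j) * (n ^ 2 * D₁))) n ≠ 0 := a12_jF_ne hn0
  have hQ' := JG.quad' (m := j) rfl hQ
  have hQ₁ := quad_n hn0 hQ'
  have hq := qr_P h.1 h.2.1 hQ₁
  have he' : (9 : Eis) ∣ 2 * e * n - 2 := by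
    have e1 : 2 * e * n - 2 = 2 * (e * n - 1) := by ring
    rw [e1]
    exact Dvd.dvd.mul_left he _
  refine noBad_of hD rfl h.2.2.1 hQ hq ?_ hn a12_la_two he' hF
  rw [map_ofNat]
  field_simp

theorem uc_of_Q {j : ℕ} {n e D₁ : Eis} (hn : ¬ la ∣ n) (he : (9 : Eis) ∣ 2 * e * n - 1)
    (hD : ClG (la ^ (2 * j) * (n ^ 2 * D₁))) (h : ClQ j n D₁) (hF : ¬ HF D₁ e j (n ^ 2 * D₁)) :
    UCG (la ^ (2 * j) * (n ^ 2 * D₁)) := by
  letI := algK (KD (la ^ (2 * j) * (n ^ 2 * D₁))) (JD.w_mem (la ^ (2 * j) * (n ^ 2 * D₁)))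
  obtain ⟨τ, hQ⟩ := JG.exists_quadG hD
  refine JG.uc_of_noBadG hD τ hQ ?_
  have hn0 := a12_ne hn
  have hn' : jF (KD (la ^ (2 * j) * (n ^ 2 * D₁))) n ≠ 0 := a12_jF_ne hn0
  have hQ' := JG.quad' (m := j) rfl hQ
  have hQ₁ := quad_n hn0 hQ'
  obtain ⟨t, ht⟩ := h.2.1.2.1
  have hq := qr_Q h.1 ht hQ₁
  refine noBad_of hD rfl h.2.2.1 hQ hq ?_ hn a12_la_one he hF
  rw [map_one, one_mul]
  field_simp

end JP
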