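import Pool.Agent.JP.QR
import Pool.Agent.JXD.F1

/-!
# [JP-A2] the lattice `{x : x³ / α integral}` is free of rank `2`

`th_inj`: PROOF. Apply `τ` and subtract (`JXD.tau_jF`, `hq.th`): `jF b * s = 0`, `s ≠ 0` (`hq.quad.sq`, `hq.ne`, `JD.jF_inj`), so `b = 0` (`JD.jF_inj`), `a = 0`.

`exists_basisQ`: PROOF. Copy `JXD.exists_basis` (file `Pool/Agent/JXD/F1.lean`) with `r` replaced by `θ`: `f1b_J θ hα d hd` (`JD.f1b_J`, `JD.f1b_I`, `JD.f1b_d`), `int_r hQ` by `hq.int`, `exists_int hD hQ hdx` by `hq.gen _ hdx`, `jr_inj hD hQ` by `th_inj hq`.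
-/

set_option autoImplicit false

open NumberField IsDedekindDomain
open scoped Classical

namespace JP

open CM27 CF JZ JC JXC
open CU (la om eE)
open JD (Quad jF jK OvLa InM)
open JXD (N1)
open JG (WG UCG ClG PG Qs NoBadP LamP LC)

section
variable {Δ : Eis} {F : Type} [Field F] [NumberField F] [Algebra KK F] {s θ : F} {τ : F ≃ₐ[KK] F} {α : F}

theorem th_inj (hq : QR Δ s θ τ) {a b : Eis} (h : jF F a + jF F b * θ = 0) : a = 0 ∧ b = 0 := by
  have h1 := congrArg τ h
  rw [map_add, map_mul, JXD.tau_jF, JXD.tau_jF, map_zero] at h1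
  have h2 : jF F b * s = 0 := by
    rw [← hq.th]
    linear_combination h - h1
  have hs : s ≠ 0 := by
    rintro rfl
    have h3 := hq.quad.sq
    rw [zero_pow two_ne_zero] at h3
    exact hq.ne (JD.jF_inj F (by rw [← h3, map_zero]))
  have h3 : jF F b = 0 := (mul_eq_zero.1 h2).resolve_right hs
  have hb : b = 0 := JD.jF_inj F (by rw [h3, map_zero])
  rw [h3, zero_mul, add_zero] at h
  exact ⟨JD.jF_inj F (by rw [h, map_zero]), hb⟩

theorem exists_basisQ (hq : QR Δ s θ τ) (hα : α ≠ 0) :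
    ∃ w₁ w₂ : F, InM α w₁ ∧ InM α w₂ ∧ (∀ x, InM α x → ∃ m n : Eis, x = jF F m * w₁ + jF F n * w₂) ∧
      ∀ m n : Eis, jF F m * w₁ + jF F n * w₂ = 0 → m = 0 ∧ n = 0 := by
  obtain ⟨d, hd, hd1, hd2⟩ := JD.f1b_d α
  have hdd : d ≠ 0 := fun h => hd (by rw [h, map_zero])
  have hpid : IsPrincipalIdealRing Eis := eis_pid
  have hdom : IsDomain Eis := eis_isDomain
  obtain ⟨a₁, ha₁⟩ := (hpid.principal (JD.f1b_I hα d hd)).principal
  obtain ⟨b₂, hb₂⟩ := (hpid.principal (JD.f1b_J θ hα d hd)).principal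
  have hJ : b₂ ∈ JD.f1b_J θ hα d hd := by
    rw [hb₂]
    exact Submodule.mem_span_singleton_self b₂
  have hI : a₁ ∈ JD.f1b_I hα d hd := by
    rw [ha₁]
    exact Submodule.mem_span_singleton_self a₁
  obtain ⟨a₂, ha₂⟩ := hJ
  have ha₁0 : a₁ ≠ 0 := by
    intro h
    have h1 : d * d ∈ JD.f1b_I hα d hd := by
      show InM α (jF F (d * d) / jF F d)
      rw [map_mul, mul_div_cancel_right₀ _ hd]
      unfold InM
      have e : jF F d ^ 3 / α = jF F (d ^ 2) * (jF F d * α⁻¹) := by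
        rw [map_pow, div_eq_mul_inv]
        ring
      rw [e]
      exact (JXD.int_jF F _).mul hd2
    rw [ha₁, h, Submodule.span_singleton_eq_bot.2 rfl] at h1
    exact (mul_ne_zero hdd hdd) ((Submodule.mem_bot _).1 h1)
  have hb₂0 : b₂ ≠ 0 := by
    intro h
    have h1 : d * d ∈ JD.f1b_J θ hα d hd := by
      refine ⟨0, ?_⟩
      have e0 : (jF F 0 + jF F (d * d) * θ) / jF F d = jF F d * θ := by
        rw [map_zero, zero_add, map_mul]
        field_simp
      rw [e0]
      unfold InM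
      have e : (jF F d * θ) ^ 3 / α = jF F (d ^ 2) * θ ^ 3 * (jF F d * α⁻¹) := by
        rw [map_pow, div_eq_mul_inv]
        ring
      rw [e]
      exact ((JXD.int_jF F _).mul (hq.int.pow 3)).mul hd2
    rw [hb₂, h, Submodule.span_singleton_eq_bot.2 rfl] at h1
    exact (mul_ne_zero hdd hdd) ((Submodule.mem_bot _).1 h1)
  refine ⟨jF F a₁ / jF F d, (jF F a₂ + jF F b₂ * θ) / jF F d, hI, ha₂, ?_, ?_⟩
  · intro x hx
    have hdx : IsIntegral ℤ (jF F d * x) := by
      refine IsIntegral.of_pow (n := 3) (by norm_num) ?_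
      have e : (jF F d * x) ^ 3 = jF F (d ^ 2) * (jF F d * α) * (x ^ 3 / α) := by
        rw [map_pow]
        field_simp
      rw [e]
      exact ((JXD.int_jF F _).mul hd1).mul hx
    obtain ⟨a, b, hab⟩ := hq.gen _ hdx
    have hx' : x = (jF F a + jF F b * θ) / jF F d := by
      rw [← hab]
      field_simp
    have hbJ : b ∈ JD.f1b_J θ hα d hd := ⟨a, by rw [← hx']; exact hx⟩
    rw [hb₂] at hbJ
    obtain ⟨n, hn⟩ := Submodule.mem_span_singleton.1 hbJ
    rw [smul_eq_mul] at hn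
    have haI : a - n * a₂ ∈ JD.f1b_I hα d hd := by
      show InM α (jF F (a - n * a₂) / jF F d)
      have h1 := JD.inM_add hα hx (JD.inM_smul (JXD.int_jF F (-n)) ha₂)
      have e : x + jF F (-n) * ((jF F a₂ + jF F b₂ * θ) / jF F d) = jF F (a - n * a₂) / jF F d := by
        rw [hx', ← hn, map_sub, map_mul, map_mul, map_neg]
        field_simp
        ring
      rwa [e] at h1
    rw [ha₁] at haI
    obtain ⟨m, hm⟩ := Submodule.mem_span_singleton.1 haI
    rw [smul_eq_mul] at hm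
    refine ⟨m, n, ?_⟩
    have ha : a = m * a₁ + n * a₂ := by
      rw [hm]
      ring
    rw [hx', ha, ← hn, map_add, map_mul, map_mul, map_mul]
    field_simp
    ring
  · intro m n h
    have h1 : jF F (m * a₁ + n * a₂) + jF F (n * b₂) * θ = 0 := by
      have e : jF F m * (jF F a₁ / jF F d) + jF F n * ((jF F a₂ + jF F b₂ * θ) / jF F d) =
          (jF F (m * a₁ + n * a₂) + jF F (n * b₂) * θ) / jF F d := by
        rw [map_add, map_mul, map_mul, map_mul]
        field_simp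
        ring
      rw [e, div_eq_zero_iff] at h
      exact h.resolve_right hd
    obtain ⟨h2, h3⟩ := th_inj hq h1
    have hn : n = 0 := (mul_eq_zero.1 h3).resolve_right hb₂0
    rw [hn, zero_mul, add_zero] at h2
    exact ⟨(mul_eq_zero.1 h2).resolve_right ha₁0, hn⟩

end

end JP
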