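import Pool.Agent.JP.A2

/-!
# [JP-A3] the determinant of a basis is a unit

PROOF (model: `JXD.det_unit` in `Pool/Agent/JXD/F1.lean`). `θ + τ θ` is fixed by `τ` (`JD.tau_tau hq.ne hq.quad`) and integral: `θ + τ θ = jF F v` (`JG.fix_int hq.ne hq.quad`). `A`, `B`: `w₁ * τ w₁ = jF F A`, `w₂ * τ w₂ = jF F B` (`JD.inM_tau hα`).
`w₂ * τ w₁ = τ (w₁ * τ w₂) = jF F u + jF F t * τ θ = jF F (u + t * v) - jF F t * θ`. So for `x = m w₁ + n w₂`, `y = m' w₁ + n' w₂`: `x * τ y = jF F p + jF F (t * q) * θ` with `p = m m' A + n n' B + m n' u + n m' (u + t v)`, `q = m n' - n m'`.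
`θ = ∑ (θ x i) τ (y i)` with `InM α (θ * x i)` (`JD.inM_smul hq.int`), so `θ = jF F p + jF F (t * q) * θ` with sums `p`, `q`, and `t * q = 1` by `th_inj`.
-/

set_option autoImplicit false

open NumberField IsDedekindDomain
open scoped Classical

namespace JP

open CM27 CF JZ JC JXC
open CU (la om eE)
open JD (Quad jF jK OvLa InM)
open JXD (N1)
open JG (WG UCG ClG PG Qs NoBadP LamP LC)

section
variable {Δ : Eis} {F : Type} [Field F] [NumberField F] [Algebra KK F] {s θ : F} {τ : F ≃ₐ[KK] F} {α : F}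

theorem det_unitQ (hq : QR Δ s θ τ) (hα : α * τ α = 1) {w₁ w₂ : F} (h₁ : InM α w₁) (h₂ : InM α w₂)
    (hb : ∀ x, InM α x → ∃ m n : Eis, x = jF F m * w₁ + jF F n * w₂)
    (hsum : ∃ (s : Finset ℕ) (x y : ℕ → F), (∀ i ∈ s, InM α (x i) ∧ InM α (y i)) ∧ ∑ i ∈ s, x i * τ (y i) = 1)
    {u t : Eis} (h : w₁ * τ w₂ = jF F u + jF F t * θ) : IsUnit t := by
  have hττ := fun z => JD.tau_tau hq.ne hq.quad z
  have hτj : ∀ m : Eis, τ (jF F m) = jF F m := fun m => JXD.tau_jF τ m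
  obtain ⟨v, hv⟩ := JG.fix_int hq.ne hq.quad (z := θ + τ θ) (by rw [map_add, hττ, add_comm])
    (hq.int.add (hq.int.map (τ : F →ₐ[KK] F)))
  obtain ⟨A, hA⟩ := JG.fix_int hq.ne hq.quad (z := w₁ * τ w₁) (by rw [map_mul, hττ, mul_comm])
    (JD.inM_tau hα h₁ h₁)
  obtain ⟨B, hB⟩ := JG.fix_int hq.ne hq.quad (z := w₂ * τ w₂) (by rw [map_mul, hττ, mul_comm])
    (JD.inM_tau hα h₂ h₂)
  have h' : w₂ * τ w₁ = jF F u + jF F t * jF F v - jF F t * θ := by
    have h1 := congrArg τ h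
    rw [map_mul, hττ, map_add, map_mul, hτj, hτj] at h1
    linear_combination h1 + jF F t * hv
  have key : ∀ x y : F, InM α x → InM α y → ∃ p q : Eis, x * τ y = jF F p + jF F (t * q) * θ := by
    intro x y hx hy
    obtain ⟨m, n, hx'⟩ := hb x hx
    obtain ⟨m', n', hy'⟩ := hb y hy
    refine ⟨m * m' * A + n * n' * B + m * n' * u + n * m' * (u + t * v), m * n' - n * m', ?_⟩
    have hτy : τ y = jF F m' * τ w₁ + jF F n' * τ w₂ := by
      rw [hy', map_add, map_mul, map_mul, hτj, hτj]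
    rw [hx', hτy]
    simp only [map_add, map_mul, map_sub]
    linear_combination (jF F m * jF F m') * hA + (jF F n * jF F n') * hB +
      (jF F m * jF F n') * h + (jF F n * jF F m') * h'
  obtain ⟨S, x, y, hxy, hs1⟩ := hsum
  have key2 : ∀ i, ∃ p q : Eis, i ∈ S → (θ * x i) * τ (y i) = jF F p + jF F (t * q) * θ := by
    intro i
    by_cases hi : i ∈ S
    · obtain ⟨p, q, hpq⟩ := key (θ * x i) (y i) (JD.inM_smul hq.int (hxy i hi).1) (hxy i hi).2
      exact ⟨p, q, fun _ => hpq⟩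
    · exact ⟨0, 0, fun h => absurd h hi⟩
  choose p q hpq using key2
  have h1 : θ = jF F (∑ i ∈ S, p i) + jF F (t * ∑ i ∈ S, q i) * θ := by
    have h2 : θ = ∑ i ∈ S, (θ * x i) * τ (y i) := by
      have h3 : ∑ i ∈ S, (θ * x i) * τ (y i) = θ * ∑ i ∈ S, x i * τ (y i) := by
        rw [Finset.mul_sum]
        exact Finset.sum_congr rfl fun i _ => mul_assoc _ _ _
      rw [h3, hs1, mul_one]
    conv_lhs => rw [h2]
    rw [Finset.sum_congr rfl fun i hi => hpq i hi, Finset.sum_add_distrib, ← Finset.sum_mul,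
      Finset.mul_sum, map_sum, map_sum]
  have h4 : jF F (∑ i ∈ S, p i) + jF F (t * (∑ i ∈ S, q i) - 1) * θ = 0 := by
    rw [map_sub, map_one]
    linear_combination -h1
  have h5 := (th_inj hq h4).2
  exact IsUnit.of_mul_eq_one _ (sub_eq_zero.mp h5)

end

end JP
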