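import Pool.Agent.JP.QR
import Pool.Agent.JXD.F1

/-!
# [JP-A4] the discriminant and the Hessian of the form of a basis

PROOF. Let `v₁ = τ w₁`, `v₂ = τ w₂`, `p = τ α = α⁻¹`. Apply `τ` to `h₁` and subtract (`JXD.tau_jF`, `hq.th`; `τ (w₁³ / α) = α v₁³`): `jF F b₁ * s = p w₁³ - α v₁³`; in the same way
`jF F b₂ * s = p w₁² w₂ - α v₁² v₂`, `jF F b₃ * s = p w₁ w₂² - α v₁ v₂²`, `jF F b₄ * s = p w₂³ - α v₂³`, and `jF F t * s = w₁ v₂ - v₁ w₂` (`τ τ = 1`: `JD.tau_tau hq.ne hq.quad`). `s ≠ 0` (`s² = jF F Δ`).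

`discQ`: `JD.f5_hom`, `JD.f5_poly`, `JD.f5_map` (model: `JXD.disc_eq` in `Pool/Agent/JXD/F1.lean`): `s⁴ disc (b₁, 3 b₂, 3 b₃, b₄) = -27 (p α)² (w₁ v₂ - v₁ w₂)⁶ = -27 t⁶ s⁶`, and `disc_three`, cancel `-27` and `s⁴`, `s² = jF F Δ`, `JD.jF_inj`.
Or directly: `s⁴ EE (b₁..b₄) = EE (s b₁, ..) = (p α)² (w₁ v₂ - v₁ w₂)⁶` is an identity (`unfold EE; ring` after substitution of the four expressions and `p α = 1`).

`hesQ`: `s² hes (b₁..b₄) x y = hes (s b₁, ..) x y = p α (w₁ v₂ - v₁ w₂)² (x w₁ + y w₂) (x v₁ + y v₂)` (identity, `ring`), `= t² s² (L τ L)`; cancel `s²`.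
-/

set_option autoImplicit false

open NumberField IsDedekindDomain
open scoped Classical

namespace JP

open CM27 CF JZ JC JXC
open CU (la om eE)
open JD (Quad jF jK OvLa InM)
open JXD (N1)
open JG (WG UCG ClG PG Qs NoBadP LamP LC)

section
variable {Δ : Eis} {F : Type} [Field F] [NumberField F] [Algebra KK F] {s θ : F} {τ : F ≃ₐ[KK] F} {α : F}

theorem a4_key (hq : QR Δ s θ τ) (hα : α * τ α = 1) {z : F} {a b : Eis}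
    (hz : z / α = jF F a + jF F b * θ) : s * jF F b = τ α * z - α * τ z := by
  have hinv : α⁻¹ = τ α := inv_eq_of_mul_eq_one_right hα
  have hinv' : (τ α)⁻¹ = α := by rw [← hinv, inv_inv]
  have hτj : ∀ a : Eis, τ (jF F a) = jF F a := fun a => τ.commutes (jK a)
  have h1 := congrArg τ hz
  rw [map_add, map_mul, hτj, hτj, map_div₀, div_eq_mul_inv, hinv'] at h1
  rw [div_eq_mul_inv, hinv] at hz
  have hth := hq.th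
  linear_combination h1 - hz - jF F b * hth

theorem a4_keyt (hq : QR Δ s θ τ) {w₁ w₂ : F} {u t : Eis}
    (h : w₁ * τ w₂ = jF F u + jF F t * θ) : s * jF F t = w₁ * τ w₂ - τ w₁ * w₂ := by
  have hτj : ∀ a : Eis, τ (jF F a) = jF F a := fun a => τ.commutes (jK a)
  have h1 := congrArg τ h
  rw [map_add, map_mul, map_mul, hτj, hτj, JD.tau_tau hq.ne hq.quad] at h1
  have hth := hq.th
  linear_combination h1 - h - jF F t * hth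

theorem a4_EE {R : Type*} [CommRing R] (s p α w₁ w₂ v₁ v₂ : R) (b₁ b₂ b₃ b₄ : R)
    (h₁ : s * b₁ = p * w₁ ^ 3 - α * v₁ ^ 3) (h₂ : s * b₂ = p * (w₁ ^ 2 * w₂) - α * (v₁ ^ 2 * v₂))
    (h₃ : s * b₃ = p * (w₁ * w₂ ^ 2) - α * (v₁ * v₂ ^ 2)) (h₄ : s * b₄ = p * w₂ ^ 3 - α * v₂ ^ 3) :
    s ^ 4 * EE b₁ b₂ b₃ b₄ = (p * α) ^ 2 * (w₁ * v₂ - v₁ * w₂) ^ 6 := by
  have e : s ^ 4 * EE b₁ b₂ b₃ b₄ = EE (s * b₁) (s * b₂) (s * b₃) (s * b₄) := by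
    unfold EE
    ring
  rw [e, h₁, h₂, h₃, h₄]
  unfold EE
  ring

theorem a4_hes {R : Type*} [CommRing R] (s p α w₁ w₂ v₁ v₂ : R) (b₁ b₂ b₃ b₄ x y : R)
    (h₁ : s * b₁ = p * w₁ ^ 3 - α * v₁ ^ 3) (h₂ : s * b₂ = p * (w₁ ^ 2 * w₂) - α * (v₁ ^ 2 * v₂))
    (h₃ : s * b₃ = p * (w₁ * w₂ ^ 2) - α * (v₁ * v₂ ^ 2)) (h₄ : s * b₄ = p * w₂ ^ 3 - α * v₂ ^ 3) :
    s ^ 2 * hes b₁ b₂ b₃ b₄ x y =
      (p * α) * (w₁ * v₂ - v₁ * w₂) ^ 2 * ((x * w₁ + y * w₂) * (x * v₁ + y * v₂)) := by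
  have e : s ^ 2 * hes b₁ b₂ b₃ b₄ x y = hes (s * b₁) (s * b₂) (s * b₃) (s * b₄) x y := by
    unfold hes
    ring
  rw [e, h₁, h₂, h₃, h₄]
  unfold hes
  ring

theorem a4_map_EE {R S : Type*} [CommRing R] [CommRing S] (f : R →+* S) (a b c d : R) :
    f (EE a b c d) = EE (f a) (f b) (f c) (f d) := by
  unfold EE
  simp only [map_add, map_sub, map_mul, map_pow, map_ofNat]

theorem a4_map_hes {R S : Type*} [CommRing R] [CommRing S] (f : R →+* S) (a b c d x y : R) :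
    f (hes a b c d x y) = hes (f a) (f b) (f c) (f d) (f x) (f y) := by
  unfold hes
  simp only [map_add, map_sub, map_mul, map_pow]

theorem discQ (hq : QR Δ s θ τ) (hα : α * τ α = 1) {w₁ w₂ : F} {a₁ a₂ a₃ a₄ b₁ b₂ b₃ b₄ u t : Eis}
    (h₁ : w₁ ^ 3 / α = jF F a₁ + jF F b₁ * θ) (h₂ : w₁ ^ 2 * w₂ / α = jF F a₂ + jF F b₂ * θ)
    (h₃ : w₁ * w₂ ^ 2 / α = jF F a₃ + jF F b₃ * θ) (h₄ : w₂ ^ 3 / α = jF F a₄ + jF F b₄ * θ)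
    (h : w₁ * τ w₂ = jF F u + jF F t * θ) : EE b₁ b₂ b₃ b₄ = t ^ 6 * Δ := by
  have hs : s ≠ 0 := JD.r_ne hq.ne hq.quad
  have e₁ := a4_key hq hα h₁
  have e₂ := a4_key hq hα h₂
  have e₃ := a4_key hq hα h₃
  have e₄ := a4_key hq hα h₄
  have e₅ := a4_keyt hq h
  rw [map_pow] at e₁ e₄
  rw [map_mul, map_pow] at e₂ e₃
  have e₆ := a4_EE s (τ α) α w₁ w₂ (τ w₁) (τ w₂) _ _ _ _ e₁ e₂ e₃ e₄
  apply JD.jF_inj F
  apply mul_left_cancel₀ (pow_ne_zero 4 hs)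
  rw [a4_map_EE, e₆, mul_comm (τ α) α, hα, ← e₅]
  have h5 : jF F (t ^ 6 * Δ) = jF F t ^ 6 * s ^ 2 := by
    rw [map_mul, map_pow, hq.quad.sq]
  rw [h5]
  ring

theorem hesQ (hq : QR Δ s θ τ) (hα : α * τ α = 1) {w₁ w₂ : F} {a₁ a₂ a₃ a₄ b₁ b₂ b₃ b₄ u t : Eis}
    (h₁ : w₁ ^ 3 / α = jF F a₁ + jF F b₁ * θ) (h₂ : w₁ ^ 2 * w₂ / α = jF F a₂ + jF F b₂ * θ)
    (h₃ : w₁ * w₂ ^ 2 / α = jF F a₃ + jF F b₃ * θ) (h₄ : w₂ ^ 3 / α = jF F a₄ + jF F b₄ * θ)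
    (h : w₁ * τ w₂ = jF F u + jF F t * θ) (x y : Eis) :
    jF F (t ^ 2) * ((jF F x * w₁ + jF F y * w₂) * τ (jF F x * w₁ + jF F y * w₂)) = jF F (hes b₁ b₂ b₃ b₄ x y) := by
  have hs : s ≠ 0 := JD.r_ne hq.ne hq.quad
  have hτj : ∀ a : Eis, τ (jF F a) = jF F a := fun a => τ.commutes (jK a)
  have e₁ := a4_key hq hα h₁
  have e₂ := a4_key hq hα h₂
  have e₃ := a4_key hq hα h₃
  have e₄ := a4_key hq hα h₄
  have e₅ := a4_keyt hq h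
  rw [map_pow] at e₁ e₄
  rw [map_mul, map_pow] at e₂ e₃
  have e₆ := a4_hes s (τ α) α w₁ w₂ (τ w₁) (τ w₂) _ _ _ _ (jF F x) (jF F y) e₁ e₂ e₃ e₄
  apply mul_left_cancel₀ (pow_ne_zero 2 hs)
  rw [a4_map_hes, e₆, mul_comm (τ α) α, hα, ← e₅, map_add, map_mul, map_mul, hτj, hτj, map_pow]
  ring

end

end JP
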