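import Pool.Agent.JP.A3
import Pool.Agent.JP.A4
import Pool.Agent.JXD.F3

/-!
# [JP-A5] the form of an element `α` of norm `1` whose divisor is a cube and which is not a cube

PROOF (model: the first part of `JXD.noBad_ofX` in `Pool/Agent/JXD/F3.lean`). `w₁, w₂` by `exists_basisQ hq hα0`. `a₁ b₁ h₁` by `hq.gen _ hw₁` (for `w₁³ / α`, `InM` unfolds to the integrality), `a₂ b₂`, `a₃ b₃` by `hq.gen _ (JD.inM_mul hα0 ..)`, `a₄ b₄`,
`u t` by `hq.gen _ (JD.inM_tau hα hw₁ hw₂)`. `t⁶ = 1`: `JC.unit_six (det_unitQ hq hα hw₁ hw₂ hb (JD.exists_sum_one hα h3) ht)`. The form is `(b₁, b₂, b₃, b₄)`; `EE = t⁶ Δ = Δ` by `discQ`.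
For `x y` let `L = jF F x * w₁ + jF F y * w₂`: `L³ / α = jF F A + jF F (fv b₁ b₂ b₃ b₄ x y) * θ` with `A = a₁ x³ + 3 a₂ x² y + 3 a₃ x y² + a₄ y³` (as `hval` in the model; `fv` and `val` unfold to this). With `θ + τ θ = jF F v` (`JG.fix_int`, `JD.tau_tau`) and `θ - τ θ = s`:
`2 θ = jF F v + s`, so `2 (L³/α) = jF F (2 A + fv * v) + jF F fv * s`: `T = 2 A + fv * v`. `hesQ` gives the second conclusion, `InM α L`: `JD.inM_add`, `JD.inM_smul`.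
No zeros: if `fv = 0` then `L³ / α = jF F A` is fixed by `τ`, so `α² (τ L)³ = L³`; if `L ≠ 0` then `α = (α τ L / L)³`, a contradiction; so `L = 0` and `x = y = 0` (as in the model).
-/

set_option autoImplicit false

open NumberField IsDedekindDomain
open scoped Classical

namespace JP

open CM27 CF JZ JC JXC
open CU (la om eE)
open JD (Quad jF jK OvLa InM)
open JXD (N1)
open JG (WG UCG ClG PG Qs NoBadP LamP LC)

section
variable {Δ : Eis} {F : Type} [Field F] [NumberField F] [Algebra KK F] {s θ : F} {τ : F ≃ₐ[KK] F} {α : F}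

theorem form_of_bad (hq : QR Δ s θ τ) (hα : α * τ α = 1)
    (h3 : ∀ w : HeightOneSpectrum (𝓞 F), ∃ g : WithZero (Multiplicative ℤ), w.valuation F α = g ^ 3)
    (hc : ∀ c : F, c ^ 3 ≠ α) :
    ∃ a b c d t : Eis, t ^ 6 = 1 ∧ EE a b c d = Δ ∧ (∀ x y : Eis, fv a b c d x y = 0 → x = 0 ∧ y = 0) ∧
      ∀ x y : Eis, ∃ (L : F) (T : Eis), InM α L ∧ jF F (t ^ 2) * (L * τ L) = jF F (hes a b c d x y) ∧
        2 * (L ^ 3 / α) = jF F T + jF F (fv a b c d x y) * s := by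
  have hα0 : α ≠ 0 := left_ne_zero_of_mul_eq_one hα
  obtain ⟨w₁, w₂, hw₁, hw₂, hb, hind⟩ := exists_basisQ hq hα0
  obtain ⟨a₁, b₁, h₁⟩ := hq.gen (w₁ ^ 3 / α) hw₁
  obtain ⟨a₂, b₂, h₂⟩ := hq.gen _ (JD.inM_mul hα0 hw₁ hw₁ hw₂)
  obtain ⟨a₃, b₃, h₃⟩ := hq.gen _ (JD.inM_mul hα0 hw₁ hw₂ hw₂)
  obtain ⟨a₄, b₄, h₄⟩ := hq.gen (w₂ ^ 3 / α) hw₂
  obtain ⟨u, t, ht⟩ := hq.gen _ (JD.inM_tau hα hw₁ hw₂)
  have h₂' : w₁ ^ 2 * w₂ / α = jF F a₂ + jF F b₂ * θ := by rw [← h₂]; ring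
  have h₃' : w₁ * w₂ ^ 2 / α = jF F a₃ + jF F b₃ * θ := by rw [← h₃]; ring
  have ht6 : t ^ 6 = 1 :=
    JC.unit_six (det_unitQ hq hα hw₁ hw₂ hb (JD.exists_sum_one hα h3) ht)
  have hdisc := discQ hq hα h₁ h₂' h₃' h₄ ht
  rw [ht6, one_mul] at hdisc
  have hτj : ∀ a : Eis, τ (jF F a) = jF F a := fun a => τ.commutes (jK a)
  have hinv' : (τ α)⁻¹ = α := inv_eq_of_mul_eq_one_left hα
  have hττ := JD.tau_tau hq.ne hq.quad
  -- the cube of an element of `M`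
  have hval : ∀ x y : Eis, (jF F x * w₁ + jF F y * w₂) ^ 3 / α =
      jF F (a₁ * x ^ 3 + 3 * a₂ * x ^ 2 * y + 3 * a₃ * x * y ^ 2 + a₄ * y ^ 3) +
      jF F (fv b₁ b₂ b₃ b₄ x y) * θ := by
    intro x y
    have h5 : (jF F x * w₁ + jF F y * w₂) ^ 3 / α = jF F x ^ 3 * (w₁ ^ 3 / α) +
        3 * jF F x ^ 2 * jF F y * (w₁ ^ 2 * w₂ / α) +
        3 * jF F x * jF F y ^ 2 * (w₁ * w₂ ^ 2 / α) + jF F y ^ 3 * (w₂ ^ 3 / α) := by
      ring
    rw [h5, h₁, h₂', h₃', h₄]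
    unfold fv val
    simp only [map_add, map_mul, map_pow, map_ofNat]
    ring
  have hInM : ∀ x y : Eis, InM α (jF F x * w₁ + jF F y * w₂) := fun x y =>
    JD.inM_add hα0 (JD.inM_smul (JD.int_jF F x) hw₁) (JD.inM_smul (JD.int_jF F y) hw₂)
  refine ⟨b₁, b₂, b₃, b₄, t, ht6, hdisc, ?_, ?_⟩
  · intro x y hxy
    have hL3 := hval x y
    rw [hxy, map_zero, zero_mul, add_zero] at hL3
    obtain ⟨L, hLdef⟩ : ∃ L, L = jF F x * w₁ + jF F y * w₂ := ⟨_, rfl⟩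
    rw [← hLdef] at hL3
    have hfix : τ (L ^ 3 / α) = L ^ 3 / α := by rw [hL3, hτj]
    rw [map_div₀, map_pow, div_eq_mul_inv, hinv'] at hfix
    have hLα : α ^ 2 * (τ L) ^ 3 = L ^ 3 := by
      rw [eq_div_iff hα0] at hfix
      linear_combination hfix
    have hL0 : L = 0 := by
      by_contra hL0
      apply hc (α * τ L / L)
      rw [div_pow, mul_pow, div_eq_iff (pow_ne_zero 3 hL0)]
      linear_combination α * hLα
    rw [hLdef] at hL0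
    exact hind x y hL0
  · intro x y
    obtain ⟨v, hv⟩ := JG.fix_int hq.ne hq.quad (z := θ + τ θ)
      (by rw [map_add, hττ, add_comm]) (hq.int.add (hq.int.map τ))
    have h2θ : 2 * θ = jF F v + s := by
      rw [← hv, ← hq.th]
      ring
    refine ⟨jF F x * w₁ + jF F y * w₂, 2 * (a₁ * x ^ 3 + 3 * a₂ * x ^ 2 * y + 3 * a₃ * x * y ^ 2 +
      a₄ * y ^ 3) + fv b₁ b₂ b₃ b₄ x y * v, hInM x y,
      hesQ hq hα h₁ h₂' h₃' h₄ ht x y, ?_⟩
    rw [hval x y]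
    generalize a₁ * x ^ 3 + 3 * a₂ * x ^ 2 * y + 3 * a₃ * x * y ^ 2 + a₄ * y ^ 3 = A
    generalize fv b₁ b₂ b₃ b₄ x y = B
    have e : jF F (2 * A + B * v) = 2 * jF F A + jF F B * jF F v := by
      rw [map_add, map_mul, map_mul, map_ofNat]
    rw [e]
    linear_combination jF F B * h2θ

end

end JP
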