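import Pool.Agent.JP.QR

/-!
# [JP-A6] `((1 + e) / (1 - e))^8 - ((1 - e) / (1 + e))^8` modulo `λ³` if `w(e)² ≤ w(λ)`

PROOF (model: `JXD.f2_pure` in `Pool/Agent/JXD/F2.lean`). `w e < 1` because `w e ^ 2 ≤ L < 1`. `w (1 - e²) = 1`, so multiply by `(1 - e²)^8`:
`(E - E⁻¹ - q) (1 - e²)^8 = (1 + e)^16 - (1 - e)^16 - q (1 - e²)^8 = e^7 P(e)` with `q = 32 e + 1376 e³ + 18848 e⁵` and
`P = 136928 - 430048 e² + 969696 e⁴ - 1242080 e⁶ + 1017248 e⁸ - 516768 e¹⁰ + 149408 e¹² - 18848 e¹⁴`.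
`w (e^7) ≤ L³`: `w(e^7) = (w e ^ 2)^3 * w e ≤ L³ * 1`, and `w P ≤ 1` (`hn` for the coefficients, `Valuation.map_sub_le`, `Valuation.map_add_le`).
-/

set_option autoImplicit false

open NumberField IsDedekindDomain
open scoped Classical

namespace JP

open CM27 CF JZ JC JXC
open CU (la om eE)
open JD (Quad jF jK OvLa InM)
open JXD (N1)
open JG (WG UCG ClG PG Qs NoBadP LamP LC)

theorem f2_gen {F : Type} [Field F] (w : Valuation F (WithZero (Multiplicative ℤ))) {L : WithZero (Multiplicative ℤ)}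
    (hL : L < 1) (hn : ∀ n : ℕ, w (n : F) ≤ 1) {e : F} (he : w e ^ 2 ≤ L) (h1 : (1 - e) ≠ 0) (h2 : 1 + e ≠ 0) :
    w (((1 + e) / (1 - e)) ^ 8 - (((1 + e) / (1 - e)) ^ 8)⁻¹ - (32 * e + 1376 * e ^ 3 + 18848 * e ^ 5)) ≤ L ^ 3 := by
  have hE2 : w (e ^ 2) < 1 := by
    rw [map_pow]
    exact lt_of_le_of_lt he hL
  have he1 : w e < 1 := by
    by_contra h
    have h3 : 1 ≤ w e := not_lt.1 h
    have h4 : 1 ≤ w (e ^ 2) := by
      rw [map_pow]
      exact one_le_pow₀ h3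
    exact absurd hE2 (not_lt.2 h4)
  have hU : w (1 - e ^ 2) = 1 := by
    rw [Valuation.map_sub_eq_of_lt_left]
    · exact map_one w
    · rw [map_one]; exact hE2
  have hU8 : w ((1 - e ^ 2) ^ 8) = 1 := by rw [map_pow, hU, one_pow]
  have hle : w e ≤ 1 := he1.le
  have hpl : ∀ n : ℕ, w (e ^ n) ≤ 1 := fun n => by rw [map_pow]; exact pow_le_one' hle n
  have key : (((1 + e) / (1 - e)) ^ 8 - (((1 + e) / (1 - e)) ^ 8)⁻¹ -
        (32 * e + 1376 * e ^ 3 + 18848 * e ^ 5)) * (1 - e ^ 2) ^ 8 =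
      e ^ 7 * (136928 - 430048 * e ^ 2 + 969696 * e ^ 4 - 1242080 * e ^ 6 + 1017248 * e ^ 8 -
        516768 * e ^ 10 + 149408 * e ^ 12 - 18848 * e ^ 14) := by
    have e1 : (1 - e ^ 2) = (1 - e) * (1 + e) := by ring
    have e2 : ((((1 + e) / (1 - e)) ^ 8)⁻¹) = ((1 - e) / (1 + e)) ^ 8 := by
      rw [← inv_pow, inv_div]
    rw [e2]
    have e3 : (((1 + e) / (1 - e)) ^ 8 - ((1 - e) / (1 + e)) ^ 8 -
        (32 * e + 1376 * e ^ 3 + 18848 * e ^ 5)) * (1 - e ^ 2) ^ 8 =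
        (1 + e) ^ 16 - (1 - e) ^ 16 - (32 * e + 1376 * e ^ 3 + 18848 * e ^ 5) * (1 - e ^ 2) ^ 8 := by
      rw [e1]
      field_simp
    rw [e3]
    ring
  have hnat : ∀ (n : ℕ) (k : ℕ), w ((n : F) * e ^ k) ≤ 1 := fun n k => by
    rw [map_mul]
    exact mul_le_one' (hn n) (hpl k)
  have hP : w (136928 - 430048 * e ^ 2 + 969696 * e ^ 4 - 1242080 * e ^ 6 + 1017248 * e ^ 8 -
        516768 * e ^ 10 + 149408 * e ^ 12 - 18848 * e ^ 14) ≤ 1 := by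
    have a0 : w (136928 : F) ≤ 1 := by exact_mod_cast hn 136928
    have a2 : w (430048 * e ^ 2) ≤ 1 := by exact_mod_cast hnat 430048 2
    have a4 : w (969696 * e ^ 4) ≤ 1 := by exact_mod_cast hnat 969696 4
    have a6 : w (1242080 * e ^ 6) ≤ 1 := by exact_mod_cast hnat 1242080 6
    have a8 : w (1017248 * e ^ 8) ≤ 1 := by exact_mod_cast hnat 1017248 8
    have a10 : w (516768 * e ^ 10) ≤ 1 := by exact_mod_cast hnat 516768 10
    have a12 : w (149408 * e ^ 12) ≤ 1 := by exact_mod_cast hnat 149408 12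
    have a14 : w (18848 * e ^ 14) ≤ 1 := by exact_mod_cast hnat 18848 14
    exact w.map_sub_le (w.map_add_le (w.map_sub_le (w.map_add_le (w.map_sub_le (w.map_add_le
      (w.map_sub_le a0 a2) a4) a6) a8) a10) a12) a14
  have h7 : w (e ^ 7) ≤ L ^ 3 := by
    have e1 : e ^ 7 = (e ^ 2) ^ 3 * e := by ring
    rw [e1, map_mul, map_pow, map_pow]
    calc (w e ^ 2) ^ 3 * w e ≤ L ^ 3 * 1 := mul_le_mul' (pow_le_pow_left' he 3) hle
      _ = L ^ 3 := mul_one _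
  have h8 := congrArg w key
  rw [map_mul, hU8, mul_one] at h8
  rw [h8, map_mul]
  calc w (e ^ 7) * _ ≤ L ^ 3 * 1 := mul_le_mul' h7 hP
    _ = L ^ 3 := mul_one _

end JP
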