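import Pool.Agent.JP.Base

/-!
# [JP-A7] the class modulo `λ³` in terms of the value of the form (`ℤ[ω]` only)

PROOF. `eis_isDomain`, `la_prime` (`JC.la_prime`, `CU.la_prime`). `3 = -ω² λ²` (`JC.la_three`), `9 = λ⁴ ω` (`by decide`). Let `X = (e B)² D'`, `λ ∣ X`.
1. `¬ la ∣ n` (`9 ∣ 2 e n - δ`, `¬ la ∣ δ`).
2. `9 ∣ B² Δ - 4 X`: `n² (B² Δ - 4 X) = B² (δ² - (2 e n)²) D'` is divisible by `9`; `9` is associated to `λ⁴` and `¬ la ∣ n²` (`Prime.pow_dvd_of_dvd_mul_left`), or use `rd 9` and `JC.unit_inv`.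
3. So `9 ∣ T² - 4 X - 4 H³`. Let `T ≡ η' mod λ`, `η' = ± 1` (`JXD`-free proof: `CU.la_dvd_iff`: `la ∣ z ↔ 3 ∣ z.re + z.im`). `λ ∣ T² - 4 H³`, `H ≡ ε mod λ`, `ε = ± 1` (`λ ∤ H` because `λ ∤ T`), `H³ ≡ ε mod λ³`
(`H = ε + λ k`: `H³ = ε³ + 3 (..) + λ³ k³` and `3 λ k` is divisible by `λ³`, `3 λ² k²` too), and `ε = 1` because `T² ≡ 1`, `4 ≡ 1 mod λ`.
So `λ³ ∣ T² - 4 (1 + X)`.
4. Put `η = - η'`, `G = 2 η (1 - X + X²)`. `λ³ ∣ T² - G²` because `(1 - X + X²)² - (1 + X) = - 3 X + 3 X² - 2 X³ + X⁴` and `λ³ ∣ 3 X`. `T² - G² = (T - G) (T + G)`, `T + G ≡ 2 η' mod λ` is prime to `λ` (`G ≡ 2 η ≡ - η = η'`), so `λ³ ∣ T - G`.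
5. `C = T⁵`: `9 ∣ C T - 1` (`JC.unit_inv`, `JC.el3_iff`, `JC.rd_dvd`: `rd 9 (T ^ 6 - 1) = 0`). `λ³ ∣ 2 C - η (1 + X)`: `2 η C (1 - X + X²) ≡ C T ≡ 1 mod λ³`, multiply by `1 + X`: `(1 - X + X²) (1 + X) = 1 + X³`.
6. Let `y = 2 e B C`, `y₀ = η e B (1 + X)`: `λ³ ∣ y - y₀`, so `λ³ ∣ κ - K` with `κ = y² D'`, `K = X (1 + X)² = y₀² D'`. Then modulo `λ³`: `y (32 + 1376 κ + 18848 κ²) + η psi (e B) D' ≡ η e B ((1 + X) (32 + 1376 K + 18848 K²) + (1 + X)² - λ²)` and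
`λ³ ∣ 32 + 1376 K + 18848 K² - (-1 + λ² - X)`: `33 - λ² = λ² (- 11 ω² - 1)` with `λ ∣ - 11 ω² - 1` (decide), `1376 K + X = 1377 X + 2752 X² + 1376 X³`, `18848 K² ≡ 18848 X² mod X³`, `1377 = 3 * 459`, `2752 + 18848 = 3 * 7200`;
and `(1 + X) (-1 + λ² - X) + (1 + X)² - λ² = λ² X`.
A convenient way: everything modulo `λ³` as divisibility with explicit cofactors (`obtain ⟨k, hk⟩`, `linear_combination`).
-/

set_option autoImplicit false

namespace JP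

open CM27 CU JZ JC JXC

theorem a7_final {R : Type*} [CommRing R] (l x b d X y η : R) (hl : l ^ 3 = 0) (h3l : 3 * l = 0)
    (h33 : (33 : R) = l ^ 2) (hX : X = l * x) (hXd : X = b ^ 2 * d) (hη : η ^ 2 = 1)
    (hy : y = η * b * (1 + X)) :
    y * (32 + 1376 * (y ^ 2 * d) + 18848 * (y ^ 2 * d) ^ 2) +
      η * (b * ((1 + b ^ 2 * d) ^ 2 - l ^ 2)) = 0 := by
  have hK : y ^ 2 * d = X * (1 + X) ^ 2 := by
    rw [hy]
    linear_combination (b ^ 2 * (1 + X) ^ 2 * d) * hη - (1 + X) ^ 2 * hXd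
  have hX3 : X ^ 3 = 0 := by
    rw [hX]
    linear_combination x ^ 3 * hl
  have h3X : 3 * X = 0 := by
    rw [hX]
    linear_combination x * h3l
  rw [hK, ← hXd, hy]
  linear_combination (η * b) * h33 + (η * b) * (11 * h3X) +
    (η * b * (1 + X)) * ((459 + 7200 * X) * h3X +
      (1376 + 18848 * (4 + 6 * X + 4 * X ^ 2 + X ^ 3)) * hX3)

theorem a7_pm {z : Eis} (hz : ¬ la ∣ z) : ∃ ε : Eis, (ε = 1 ∨ ε = -1) ∧ la ∣ z - ε := by
  rw [CU.la_dvd_iff] at hz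
  have h : (z.re + z.im) % 3 = 1 ∨ (z.re + z.im) % 3 = 2 := by omega
  rcases h with h | h
  · refine ⟨1, Or.inl rfl, ?_⟩
    rw [CU.la_dvd_iff]
    have h1 : (z - 1).re = z.re - 1 := rfl
    have h2 : (z - 1).im = z.im - 0 := rfl
    rw [h1, h2]
    omega
  · refine ⟨-1, Or.inr rfl, ?_⟩
    rw [CU.la_dvd_iff]
    have h1 : (z - -1).re = z.re - -1 := rfl
    have h2 : (z - -1).im = z.im - -0 := rfl
    rw [h1, h2]
    omega

theorem a7_cube {z ε : Eis} (hε : ε = 1 ∨ ε = -1) (h : la ∣ z - ε) : la ^ 3 ∣ z ^ 3 - ε := by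
  obtain ⟨k, hk⟩ := h
  have hz : z = ε + la * k := by linear_combination hk
  have h3 : (3 : Eis) = -om ^ 2 * la ^ 2 := CU.three_eq
  have he : ε ^ 3 = ε := by rcases hε with rfl | rfl <;> ring
  refine ⟨-om ^ 2 * ε ^ 2 * k - om ^ 2 * ε * la * k ^ 2 + k ^ 3, ?_⟩
  rw [hz]
  linear_combination he + (ε ^ 2 * la * k + ε * la ^ 2 * k ^ 2) * h3

theorem a7_nine : (la : Eis) ^ 3 ∣ 9 := ⟨la * om, by decide⟩

theorem eis_loc {T B Δ H D' n δ e : Eis} (hT : T ^ 2 - B ^ 2 * Δ = 4 * H ^ 3) (hT0 : ¬ la ∣ T) (hB : la ∣ B ^ 2 * D')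
    (hΔ : n ^ 2 * Δ = δ ^ 2 * D') (hδ : ¬ la ∣ δ) (he : (9 : Eis) ∣ 2 * e * n - δ) :
    ∃ η C : Eis, (η = 1 ∨ η = -1) ∧ (9 : Eis) ∣ C * T - 1 ∧
      la ^ 3 ∣ (2 * e * B * C) * (32 + 1376 * ((2 * e * B * C) ^ 2 * D') + 18848 * ((2 * e * B * C) ^ 2 * D') ^ 2) +
        η * psi (e * B) D' := by
  have hdom := eis_isDomain
  have hp : Prime (la : Eis) := CU.la_prime
  have h3 : (3 : Eis) = -om ^ 2 * la ^ 2 := CU.three_eq
  have hla3 : la ∣ (la : Eis) ^ 3 := dvd_pow_self _ (by norm_num)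
  -- `λ` does not divide `n`
  have hn : ¬ la ∣ n := by
    intro h
    apply hδ
    have h1 : δ = 2 * e * n - (2 * e * n - δ) := by ring
    rw [h1]
    exact dvd_sub (h.mul_left _) ((hla3.trans a7_nine).trans he)
  set X : Eis := (e * B) ^ 2 * D' with hXdef
  have hlaX : la ∣ X := by
    have h1 : X = e ^ 2 * (B ^ 2 * D') := by
      rw [hXdef]
      ring
    rw [h1]
    exact hB.mul_left _
  have h2 : la ^ 3 ∣ B ^ 2 * Δ - 4 * X := by
    have h1 : la ^ 3 ∣ n ^ 2 * (B ^ 2 * Δ - 4 * X) := by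
      have e1 : n ^ 2 * (B ^ 2 * Δ - 4 * X) = -(B ^ 2 * D') * (2 * e * n + δ) * (2 * e * n - δ) := by
        rw [hXdef]
        linear_combination B ^ 2 * hΔ
      rw [e1]
      exact (a7_nine.trans he).mul_left _
    exact hp.pow_dvd_of_dvd_mul_left 3 (fun h => hn (hp.dvd_of_dvd_pow h)) h1
  have h4 : la ^ 3 ∣ T ^ 2 - 4 * X - 4 * H ^ 3 := by
    have e1 : T ^ 2 - 4 * X - 4 * H ^ 3 = B ^ 2 * Δ - 4 * X := by linear_combination hT
    rw [e1]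
    exact h2
  have hH : ¬ la ∣ H := by
    intro h
    apply hT0
    apply hp.dvd_of_dvd_pow (n := 2)
    have e1 : T ^ 2 = (T ^ 2 - 4 * X - 4 * H ^ 3) + 4 * X + 4 * H ^ 3 := by ring
    rw [e1]
    exact dvd_add (dvd_add (hla3.trans h4) (hlaX.mul_left _)) ((dvd_pow h (by norm_num)).mul_left _)
  obtain ⟨ε, hε, hHε⟩ := a7_pm hH
  obtain ⟨η', hη', hTη⟩ := a7_pm hT0
  have hη'2 : η' ^ 2 = 1 := by rcases hη' with rfl | rfl <;> ring
  have hH3 := a7_cube hε hHε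
  have hT1 : la ∣ T ^ 2 - 1 := by
    have e1 : T ^ 2 - 1 = (T - η') * (T + η') := by linear_combination hη'2
    rw [e1]
    exact hTη.mul_right _
  have hε1 : ε = 1 := by
    rcases hε with h | h
    · exact h
    · exfalso
      rw [h] at hH3
      have h5 : la ∣ (5 : Eis) := by
        have e1 : (5 : Eis) = (T ^ 2 - 4 * X - 4 * H ^ 3) - (T ^ 2 - 1) + 4 * X + 4 * (H ^ 3 - -1) := by
          ring
        rw [e1]
        exact dvd_add (dvd_add (dvd_sub (hla3.trans h4) hT1) (hlaX.mul_left _))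
          ((hla3.trans hH3).mul_left _)
      rw [CU.la_dvd_iff] at h5
      revert h5
      decide
  rw [hε1] at hH3
  have h5 : la ^ 3 ∣ T ^ 2 - 4 * (1 + X) := by
    have e1 : T ^ 2 - 4 * (1 + X) = (T ^ 2 - 4 * X - 4 * H ^ 3) + 4 * (H ^ 3 - 1) := by ring
    rw [e1]
    exact dvd_add h4 (hH3.mul_left _)
  have hX3 : la ^ 3 ∣ X ^ 3 := pow_dvd_pow_of_dvd hlaX 3
  have h3X : la ^ 3 ∣ 3 * X := by
    obtain ⟨x, hx⟩ := hlaX
    refine ⟨-om ^ 2 * x, ?_⟩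
    rw [hx]
    linear_combination la * x * h3
  have h6 : la ^ 3 ∣ T - 2 * (-η') * (1 - X + X ^ 2) := by
    have h7 : la ^ 3 ∣ (T + 2 * (-η') * (1 - X + X ^ 2)) * (T - 2 * (-η') * (1 - X + X ^ 2)) := by
      have e1 : (T + 2 * (-η') * (1 - X + X ^ 2)) * (T - 2 * (-η') * (1 - X + X ^ 2)) =
          (T ^ 2 - 4 * (1 + X)) + (4 * (1 - X)) * (3 * X) + (4 * (2 - X)) * X ^ 3 := by
        linear_combination -(4 * (1 - X + X ^ 2) ^ 2) * hη'2
      rw [e1]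
      exact dvd_add (dvd_add h5 (h3X.mul_left _)) (hX3.mul_left _)
    refine hp.pow_dvd_of_dvd_mul_left 3 ?_ h7
    intro h8
    have h9 : la ∣ η' := by
      have e1 : η' = (T - η') - (T + 2 * (-η') * (1 - X + X ^ 2)) + (-2 * η' * (-X + X ^ 2)) := by
        ring
      rw [e1]
      refine dvd_add (dvd_sub hTη h8) (Dvd.dvd.mul_left ?_ _)
      have e2 : -X + X ^ 2 = X * (X - 1) := by ring
      rw [e2]
      exact hlaX.mul_right _
    have h10 : la ∣ (1 : Eis) := by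
      rw [← hη'2]
      exact dvd_pow h9 (by norm_num)
    exact hp.not_isUnit (isUnit_of_dvd_one h10)
  have hC : (9 : Eis) ∣ T ^ 5 * T - 1 := by
    have h7 : el ^ 3 * rd 9 T ≠ 0 := fun h => hT0 ((el3_iff T).1 h)
    have h8 := unit_inv _ h7
    have h9 : rd 9 (T ^ 5 * T - 1) = 0 := by
      rw [map_sub, map_mul, map_pow, map_one, mul_comm, h8, sub_self]
    have h10 := (rd_dvd 9 _).1 h9
    exact_mod_cast h10
  refine ⟨-η', T ^ 5, ?_, hC, ?_⟩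
  · rcases hη' with rfl | rfl
    · right
      rfl
    · left
      ring
  generalize T ^ 5 = C at hC
  have hC3 : la ^ 3 ∣ C * T - 1 := a7_nine.trans hC
  have h11 : la ^ 3 ∣ 2 * C - (-η') * (1 + X) := by
    have e1 : 2 * C - (-η') * (1 + X) = ((C * T - 1) - C * (T - 2 * (-η') * (1 - X + X ^ 2))) *
        ((1 + X) * (-η')) - 2 * C * X ^ 3 + 0 := by
      linear_combination -(2 * C * (1 + X ^ 3)) * hη'2
    rw [e1]
    exact dvd_add (dvd_sub ((dvd_sub hC3 (h6.mul_left _)).mul_right _) (hX3.mul_left _)) (dvd_zero _)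
  -- pass to the quotient
  have h12 : la ^ 3 ∣ 2 * e * B * C - (-η') * (e * B) * (1 + X) := by
    have e1 : 2 * e * B * C - (-η') * (e * B) * (1 + X) = (e * B) * (2 * C - (-η') * (1 + X)) := by
      ring
    rw [e1]
    exact h11.mul_left _
  obtain ⟨x, hx⟩ := hlaX
  have h33 : la ^ 3 ∣ (33 : Eis) - la ^ 2 := ⟨⟨3, 7⟩, by decide⟩
  have h3l : la ^ 3 ∣ (3 : Eis) * la := ⟨-om ^ 2, by linear_combination la * h3⟩
  set π := Ideal.Quotient.mk (Ideal.span {(la : Eis) ^ 3}) with hπ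
  have hz : ∀ z : Eis, π z = 0 ↔ la ^ 3 ∣ z := fun z => Ideal.Quotient.eq_zero_iff_dvd _ _
  have q1 : (π la) ^ 3 = 0 := by
    rw [← map_pow, hz]
  have q2 : 3 * π la = 0 := by
    have := (hz _).2 h3l
    rwa [map_mul, map_ofNat] at this
  have q3 : (33 : Eis ⧸ Ideal.span {(la : Eis) ^ 3}) = (π la) ^ 2 := by
    have := (hz _).2 h33
    rw [map_sub, map_pow, map_ofNat, sub_eq_zero] at this
    exact this
  have q4 : π X = π la * π x := by rw [hx, map_mul]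
  have q5 : π X = (π (e * B)) ^ 2 * π D' := by rw [hXdef, map_mul, map_pow]
  have q6 : (π (-η')) ^ 2 = 1 := by
    rw [← map_pow, neg_sq, hη'2, map_one]
  have q7 : π (2 * e * B * C) = π (-η') * π (e * B) * (1 + π X) := by
    have := (hz _).2 h12
    rw [map_sub, sub_eq_zero] at this
    rw [this, map_mul, map_mul, map_add, map_one]
  have q8 := a7_final _ _ _ _ _ _ _ q1 q2 q3 q4 q5 q6 q7
  rw [← hz]
  unfold psi
  simp only [map_add, map_sub, map_mul, map_pow, map_ofNat, map_one] at q8 ⊢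
  exact q8

end JP
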