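import Pool.Agent.JP.Base

/-!
# [JP-R1] invariance under substitutions

`act_all`: PROOF. `b' = a p² q + b (p² s + 2 p q r) + c (2 p r s + q r²) + d r² s`, `c' = a p q² + b (2 p q s + q² r) + c (p s² + 2 q r s) + d r s²` as in `JXC.act_three` (file `Pool/Agent/JXC/L.lean`); `simp only [cB, cC]; ring`.
`EE`: the identity `EE A b' c' D'' = (p s - q r)^6 * EE a b c d` (`simp only [EE, cA, cD, val]; ring`), `JC.unit_six hu`.
`Loc`: for `x y`: `hes A b' c' D'' x y = (p s - q r)^2 * hes a b c d (p x + q y) (r x + s y)` and `fv A b' c' D'' x y = fv a b c d (p x + q y) (r x + s y)` (`ring` after `simp only`). So `¬ la ∣ hes a b c d X Y` (a unit factor), and the value is the same.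
`loc_swap`, `ee_swap`: `hes d c b a x y = hes a b c d y x`, `fv d c b a x y = fv a b c d y x`.
`loc_sh`, `ee_sh`: `hes a (b + a t) .. x y = hes a b c d (x + t y) y`, `fv .. x y = fv a b c d (x + t y) y`; `EE` by `ring`.
-/

set_option autoImplicit false

namespace JP

open CM27 CU JZ JC JXC

theorem act_all {j : ℕ} {D a b c d p q r s : Eis} (hu : IsUnit (p * s - q * r)) (hL : Loc j D a b c d) : ∃ b' c' : Eis,
    cB a (3 * b) (3 * c) d p q r s = 3 * b' ∧ cC a (3 * b) (3 * c) d p q r s = 3 * c' ∧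
    EE (cA a (3 * b) (3 * c) d p q r s) b' c' (cD a (3 * b) (3 * c) d p q r s) = EE a b c d ∧
    Loc j D (cA a (3 * b) (3 * c) d p q r s) b' c' (cD a (3 * b) (3 * c) d p q r s) := by
  refine ⟨a * p ^ 2 * q + b * (p ^ 2 * s + 2 * p * q * r) + c * (2 * p * r * s + q * r ^ 2) +
      d * r ^ 2 * s, a * p * q ^ 2 + b * (2 * p * q * s + q ^ 2 * r) +
      c * (p * s ^ 2 + 2 * q * r * s) + d * r * s ^ 2, ?_, ?_, ?_, ?_⟩
  · simp only [cB]
    ring
  · simp only [cC]
    ring
  · have h : EE (cA a (3 * b) (3 * c) d p q r s)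
        (a * p ^ 2 * q + b * (p ^ 2 * s + 2 * p * q * r) + c * (2 * p * r * s + q * r ^ 2) +
          d * r ^ 2 * s)
        (a * p * q ^ 2 + b * (2 * p * q * s + q ^ 2 * r) +
          c * (p * s ^ 2 + 2 * q * r * s) + d * r * s ^ 2)
        (cD a (3 * b) (3 * c) d p q r s) = (p * s - q * r) ^ 6 * EE a b c d := by
      simp only [EE, cA, cD, val]
      ring
    rw [h, unit_six hu, one_mul]
  · intro x y hx hy
    have e1 : hes (cA a (3 * b) (3 * c) d p q r s)
        (a * p ^ 2 * q + b * (p ^ 2 * s + 2 * p * q * r) + c * (2 * p * r * s + q * r ^ 2) +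
          d * r ^ 2 * s)
        (a * p * q ^ 2 + b * (2 * p * q * s + q ^ 2 * r) +
          c * (p * s ^ 2 + 2 * q * r * s) + d * r * s ^ 2)
        (cD a (3 * b) (3 * c) d p q r s) x y =
        (p * s - q * r) ^ 2 * hes a b c d (p * x + q * y) (r * x + s * y) := by
      simp only [hes, cA, cD, val]
      ring
    have e2 : fv (cA a (3 * b) (3 * c) d p q r s)
        (a * p ^ 2 * q + b * (p ^ 2 * s + 2 * p * q * r) + c * (2 * p * r * s + q * r ^ 2) +
          d * r ^ 2 * s)
        (a * p * q ^ 2 + b * (2 * p * q * s + q ^ 2 * r) +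
          c * (p * s ^ 2 + 2 * q * r * s) + d * r * s ^ 2)
        (cD a (3 * b) (3 * c) d p q r s) x y =
        fv a b c d (p * x + q * y) (r * x + s * y) := by
      simp only [fv, cA, cD, val]
      ring
    rw [e2] at hy ⊢
    refine hL _ _ ?_ hy
    intro h
    apply hx
    rw [e1]
    exact Dvd.dvd.mul_left h _

theorem loc_swap {j : ℕ} {D a b c d : Eis} (hL : Loc j D a b c d) : Loc j D d c b a := by
  intro x y hx hy
  have e1 : hes d c b a x y = hes a b c d y x := by
    simp only [hes]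
    ring
  have e2 : fv d c b a x y = fv a b c d y x := by
    simp only [fv, val]
    ring
  rw [e2] at hy ⊢
  rw [e1] at hx
  exact hL y x hx hy

theorem ee_swap (a b c d : Eis) : EE d c b a = EE a b c d := by
  simp only [EE]
  ring

theorem loc_sh {j : ℕ} {D a b c d : Eis} (t : Eis) (hL : Loc j D a b c d) :
    Loc j D a (b + a * t) (c + 2 * b * t + a * t ^ 2) (fv a b c d t 1) := by
  intro x y hx hy
  have e1 : hes a (b + a * t) (c + 2 * b * t + a * t ^ 2) (fv a b c d t 1) x y =
      hes a b c d (x + t * y) y := by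
    simp only [hes, fv, val]
    ring
  have e2 : fv a (b + a * t) (c + 2 * b * t + a * t ^ 2) (fv a b c d t 1) x y =
      fv a b c d (x + t * y) y := by
    simp only [fv, val]
    ring
  rw [e2] at hy ⊢
  rw [e1] at hx
  exact hL _ _ hx hy

theorem ee_sh (a b c d t : Eis) :
    EE a (b + a * t) (c + 2 * b * t + a * t ^ 2) (fv a b c d t 1) = EE a b c d := by
  simp only [EE, fv, val]
  ring

end JP
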