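import Pool.Agent.JP.Base

/-!
# [JP-R2] from the residues of the forms with the special point `(0, 1)` to all the forms

PROOF (model: `JXC.CX`, `JXC.CX_card`, end of the proof of `JXC.c9x` in `Pool/Agent/JXC/L.lean`). `C = (S.image rv ∪ (P9.biUnion fun t => S.image (sh (-rd 9 t)))).image (JC.toZ 9)`; `card ≤ card S + 3 * card S`. Membership: `res4_eq`; if `rd4 9 (d, c, b, a) ∈ S`
then `rd4 9 (a, b, c, d) = rv (rd4 9 (d, c, b, a))`; if `rd4 9 (sh t (a, b, c, d)) ∈ S` then `sh (rd 9 t) (rd4 9 (a, b, c, d)) ∈ S` (`sh_rd4`) and `sh_sh`.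
-/

set_option autoImplicit false

namespace JP

open CM27 CU JZ JC JXC

open scoped Classical in
theorem four_lines (S : Finset (QA 9 × QA 9 × QA 9 × QA 9)) : ∃ C : Finset (Z4 9), C.card ≤ 4 * S.card ∧
    ∀ a b c d : Eis, (rd4 9 (d, c, b, a) ∈ S ∨ ∃ t ∈ P9, rd4 9 (sh t (a, b, c, d)) ∈ S) → res4 9 (a, b, c, d) ∈ C := by
  refine ⟨(S.image rv ∪ (P9.biUnion fun t => S.image (sh (-rd 9 t)))).image (JC.toZ 9), ?_, ?_⟩
  · have h1 : (S.image rv).card ≤ S.card := Finset.card_image_le
    have h2 : (P9.biUnion fun t => S.image (sh (-rd 9 t))).card ≤ 3 * S.card := by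
      refine Finset.card_biUnion_le.trans ?_
      calc ∑ t ∈ P9, (S.image (sh (-rd 9 t))).card ≤ ∑ _t ∈ P9, S.card :=
            Finset.sum_le_sum fun t _ => Finset.card_image_le
        _ = 3 * S.card := by
          rw [Finset.sum_const, smul_eq_mul, P9_card]
    have h5 := Finset.card_union_le (S.image rv) (P9.biUnion fun t => S.image (sh (-rd 9 t)))
    have h6 : ((S.image rv ∪ (P9.biUnion fun t => S.image (sh (-rd 9 t)))).image (JC.toZ 9)).card ≤
        (S.image rv ∪ (P9.biUnion fun t => S.image (sh (-rd 9 t)))).card := Finset.card_image_le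
    omega
  · intro a b c d h
    rw [res4_eq]
    refine Finset.mem_image_of_mem _ ?_
    rcases h with h | ⟨t, ht, h⟩
    · apply Finset.mem_union_left
      exact Finset.mem_image.2 ⟨_, h, rfl⟩
    · apply Finset.mem_union_right
      refine Finset.mem_biUnion.2 ⟨t, ht, Finset.mem_image.2
        ⟨sh (rd 9 t) (rd4 9 (a, b, c, d)), ?_, sh_sh _ _⟩⟩
      rw [sh_rd4]
      exact h

end JP
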