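import Pool.Agent.JP.Base

/-!
# [JP-R3] the residues modulo `9` of the forms with `λ ∣ f (0, 1)`, `λ ∤ D`

PROOF (model: `JXC.mem_shapeX` in `Pool/Agent/JXC/L.lean`, where `db v = X'`, `dl v = δ'`; here `X'`, `δ'` are given: the pair `(X', δ') ∈ P`). `SG_card`: `Finset.card_image_le`, `Finset.card_product`, `E2_card`, `UE2_card`, `T3_card`.
`mem_shapeG`: copy the proof of `JXC.mem_shapeX` from the comment (residues): `hX0` from `hD` (`el3_iff`), `eX` and `eΔ` are the hypotheses `hX`, `hδ` (in the model `eX : el * X = el * X'`, `eΔ : el * Δ = el * δ'`).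
-/

set_option autoImplicit false

namespace JP

open CM27 CU JZ JC JXC

/-- the form with the parameters `((X', δ'), b, c, j)` -/
def fmG (v : (QA 9 × QA 9) × QA 9 × QA 9 × QA 9) : QA 9 × QA 9 × QA 9 × QA 9 :=
  (7 * v.2.2.1 ^ 3 * (4 * v.1.1 - el ^ 2 * v.1.2 ^ 2 - 4 * el * v.1.2 * v.2.1 ^ 3 +
    3 * v.2.1 ^ 2 * v.2.2.1 ^ 2) + v.2.2.2 * el ^ 3, 3 * v.2.1, 3 * v.2.2.1, el * v.1.2)

/-- the residues with the pairs `(X', δ')` in `P` -/
def SG (P : Finset (QA 9 × QA 9)) : Finset (QA 9 × QA 9 × QA 9 × QA 9) := (P ×ˢ (E2 ×ˢ (UE2 ×ˢ T3))).image fmG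

theorem SG_card (P : Finset (QA 9 × QA 9)) : (SG P).card ≤ P.card * 162 := by
  refine Finset.card_image_le.trans (le_of_eq ?_)
  rw [Finset.card_product, Finset.card_product, Finset.card_product, E2_card, UE2_card, T3_card]

theorem mem_shapeG {a b c δ D : Eis} {P : Finset (QA 9 × QA 9)} {X' δ' : QA 9} (hD : ¬ la ∣ D)
    (h : EE a b c (la * δ) = 4 * D) (hP : (X', δ') ∈ P) (hX : el * rd 9 D = el * X') (hδ : el * rd 9 δ = el * δ') :
    rd4 9 (a, 3 * b, 3 * c, la * δ) ∈ SG P := by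
  have hdom := eis_isDomain
  -- residues
  set A := rd 9 a with hA
  set B := rd 9 b with hB
  set C := rd 9 c with hC
  set Δ := rd 9 δ with hΔ
  set X := rd 9 D with hXX
  have e1 : A ^ 2 * (el * Δ) ^ 2 - 6 * A * B * C * (el * Δ) + 4 * A * C ^ 3 +
      4 * B ^ 3 * (el * Δ) - 3 * B ^ 2 * C ^ 2 = 4 * X := by
    have := congrArg (rd 9) h
    simpa only [EE, map_add, map_sub, map_mul, map_pow, map_ofNat, rd_la, ← hA, ← hB, ← hC, ← hΔ,
      ← hXX] using this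
  have h3e := three_el
  have hX0 : el ^ 3 * X ≠ 0 := fun h0 => hD ((el3_iff D).1 h0)
  have e3 : el ^ 3 * X = el ^ 3 * (A * C ^ 3) := by
    linear_combination -7 * el ^ 3 * e1 + 7 * (A ^ 2 * el * Δ ^ 2 + 4 * B ^ 3 * Δ) * el_four -
      7 * (2 * A * B * C * el ^ 2 * Δ + B ^ 2 * C ^ 2 * el) * h3e + (3 * el ^ 3 * (A * C ^ 3) -
      3 * el ^ 3 * X) * nine_zero
  have hA0 : el ^ 3 * A ≠ 0 := by
    intro h0
    apply hX0
    rw [e3]
    linear_combination C ^ 3 * h0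
  have hC0 : el ^ 3 * C ≠ 0 := by
    intro h0
    apply hX0
    rw [e3]
    linear_combination A * C ^ 2 * h0
  have eX : el * X = el * X' := hX
  have eΔ : el * Δ = el * δ' := hδ
  obtain ⟨B', hB'2, hB'⟩ := E2_ex B
  obtain ⟨C', hC'2, hC'⟩ := E2_ex C
  have hC'0 : C' ∈ UE2 := (mem_UE2 C').2 ⟨hC'2, fun h0 => hC0 (by
    linear_combination el * hC' + h0)⟩
  have hcubB := cube_eq hB'
  have hcubC := cube_eq hC'
  have h3B := three_eq hB'
  have h3C := three_eq hC'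
  have hCC : C * C ^ 5 = 1 := unit_inv C hC0
  have hAA := el_sq A hA0
  have e5 : el * (A - 7 * C' ^ 3 * (4 * X' - el ^ 2 * δ' ^ 2 - 4 * el * δ' * B' ^ 3 +
      3 * B' ^ 2 * C' ^ 2)) = 0 := by
    rw [← hcubB, ← hcubC]
    have e6 : el * (4 * A * C ^ 3) = el * (4 * X' - el ^ 2 * δ' ^ 2 - 4 * el * δ' * B ^ 3 +
        3 * B' ^ 2 * C' ^ 2) := by
      linear_combination el * e1 + 4 * eX - Δ ^ 2 * hAA - el * (el * Δ + el * δ') * eΔ -
        4 * el * B ^ 3 * eΔ + el * (B * C ^ 2) * h3B + el * B' * C ^ 2 * h3B +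
        el * B' ^ 2 * C * h3C + el * B' ^ 2 * C' * h3C + 2 * A * B * C * Δ * h3e
    have e7 : el * A = 7 * C ^ 3 * (el * (4 * A * C ^ 3)) := by
      linear_combination -(28 * el * A) * hCC - 3 * el * A * nine_zero
    rw [mul_sub, e7, e6]
    ring
  obtain ⟨j, hj, e8⟩ := ker1 _ e5
  refine Finset.mem_image.2 ⟨((X', δ'), B', C', j), ?_, ?_⟩
  · simp only [Finset.mem_product]
    exact ⟨hP, hB'2, hC'0, hj⟩
  · simp only [rd4, fmG, map_mul, map_ofNat, rd_la, ← hA, ← hB, ← hC, ← hΔ, h3B, h3C, eΔ,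
      Prod.mk.injEq]
    refine ⟨?_, trivial⟩
    linear_combination -e8

end JP
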