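import Pool.Agent.JP.W

/-!
# [JP-R4] the pairs `(D, δ)` modulo `λ³`, `λ ∤ D`

PROOF. Three sets of pairs `(X', δ')` in `QA 9` as images of products of `T3 = {0, 1, -1}`, `D2 = {1, -1}` (`JXC.T3`, `JXC.D2`):
`j = 0`: the union of the image of `(d₀, d₁, d₂, t, k) ∈ D2 × D2 × T3 × T3 × T3` under `X' = d₀ + d₁ el + d₂ el²`, `δ' = t (1 + d₁ (1 + d₂) el) + k el²` (`108` elements) and the image of `(d₀, d₂, k, k') ∈ D2 × {0, -1} × T3 × T3` under `X' = d₀ + d₂ el²`, `δ' = k el + k' el²` (`36`).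
`j = 1`: the image of `(d₁, d₂, t, k) ∈ T3⁴` under `X' = -1 + d₁ el + d₂ el²`, `δ' = t + k el²` (`81`).
`j = 2`: the image of `(d₁, d₂, k, k') ∈ T3⁴` under `X' = -1 + d₁ el + d₂ el²`, `δ' = k el + k' el²` (`81`).
The cards by `Finset.card_image_le`, `Finset.card_union_le`, `Finset.card_product`.
Membership: the digits of `D`: for all `X : QA 9` with `el ^ 3 * X ≠ 0` there are `d₀ ∈ D2`, `d₁ d₂ ∈ T3` with `el * X = el * (d₀ + d₁ el + d₂ el²)` (`decide +kernel`); if `el ^ 3 * (X + 1) = 0` then `d₀ = -1`.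
The class of `δ`: from `JG.WG j D (la * δ)` (definition in `Pool/Agent/JG/UC.lean`; the cases five and six are impossible because `¬ la ∣ D`):
first case (`j = 0`, `D` not `≡ ± 1 mod 3`): `JX.Dig D d₀ d₁ d₂` and `la ^ 3 ∣ la * δ - t * (la * (1 + d₁ (1 + d₂) la))`, so `la ^ 2 ∣ δ - t * (1 + ..)`; `d₁ ≠ 0` (otherwise `3 ∣ D - d₀`); as in `JXC.mem_shapeX` (`Pool/Agent/JXC/L.lean`: `eX`, `eΔ`, with `int_three`, `mem_T3_of`, `mem_D2_of`).
second case (`j = 0`, `3 ∣ D - η`): `la ^ 2 ∣ la * δ`, so `la ∣ δ`: `el ^ 3 * rd 9 δ = 0`, so `el * rd 9 δ = el * (k el + k' el²)` (`decide +kernel`); `el * rd 9 D = el * (η + d₂ el²)` with `d₂ ∈ T3` and `d₂ ≠ 1` because of the second condition of `Adm 0 D` (`¬ la ^ 3 ∣ D - η - la ^ 2`).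
third case (`j = 1`): `la ^ 3 ∣ la * δ - t * la`, so `la ^ 2 ∣ δ - t`, `el * rd 9 δ = el * (t' + k el²)` with `t' ∈ T3`, `3 ∣ t - t'` (`int_three`). Fourth case (`j = 2`): `la ∣ δ`.
Useful: `la ^ k ∣ z` implies `el ^ (4 - k) * rd 9 z = 0` (`el_four`: `el ^ 4 = 0`), `rd_la`, `rd_int`, `el3_iff`, `three_el`.
-/

set_option autoImplicit false

namespace JP

open CM27 CU JZ JC JXC

/-- the first set for `j = 0` -/
def r4_PA : Finset (QA 9 × QA 9) := (D2 ×ˢ (D2 ×ˢ (T3 ×ˢ (T3 ×ˢ T3)))).image fun v =>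
  (v.1 + v.2.1 * el + v.2.2.1 * el ^ 2,
    v.2.2.2.1 * (1 + v.2.1 * (1 + v.2.2.1) * el) + v.2.2.2.2 * el ^ 2)

/-- the second set for `j = 0` -/
def r4_PB : Finset (QA 9 × QA 9) := (D2 ×ˢ (({0, -1} : Finset (QA 9)) ×ˢ (T3 ×ˢ T3))).image fun v =>
  (v.1 + v.2.1 * el ^ 2, v.2.2.1 * el + v.2.2.2 * el ^ 2)

/-- the set for `j = 1` -/
def r4_PC : Finset (QA 9 × QA 9) := (T3 ×ˢ (T3 ×ˢ (T3 ×ˢ T3))).image fun v =>
  (-1 + v.1 * el + v.2.1 * el ^ 2, v.2.2.1 + v.2.2.2 * el ^ 2)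

/-- the set for `j = 2` -/
def r4_PD : Finset (QA 9 × QA 9) := (T3 ×ˢ (T3 ×ˢ (T3 ×ˢ T3))).image fun v =>
  (-1 + v.1 * el + v.2.1 * el ^ 2, v.2.2.1 * el + v.2.2.2 * el ^ 2)

theorem r4_PA_card : r4_PA.card ≤ 108 := by
  refine Finset.card_image_le.trans (le_of_eq ?_)
  simp only [Finset.card_product, T3_card, D2_card]

theorem r4_PB_card : r4_PB.card ≤ 36 := by
  refine Finset.card_image_le.trans ?_
  simp only [Finset.card_product, T3_card, D2_card]
  have : ({0, -1} : Finset (QA 9)).card ≤ 2 := Finset.card_le_two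
  omega

theorem r4_PC_card : r4_PC.card ≤ 81 := by
  refine Finset.card_image_le.trans (le_of_eq ?_)
  simp only [Finset.card_product, T3_card]

theorem r4_PD_card : r4_PD.card ≤ 81 := by
  refine Finset.card_image_le.trans (le_of_eq ?_)
  simp only [Finset.card_product, T3_card]

theorem r4_k2 : ∀ x : QA 9, el ^ 2 * x = 0 → ∃ k ∈ T3, el * x = el * (k * el ^ 2) := by
  decide +kernel

theorem r4_k3 : ∀ x : QA 9, el ^ 3 * x = 0 → ∃ k ∈ T3, ∃ k' ∈ T3,
    el * x = el * (k * el + k' * el ^ 2) := by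
  decide +kernel

theorem r4_la_ne : (la : Eis) ≠ 0 := by decide

theorem r4_la3 {z : Eis} (h : el * rd 9 z = 0) : la ^ 3 ∣ z := by
  have hdom := eis_isDomain
  have h1 : rd 9 (la * z) = 0 := by rw [map_mul, rd_la]; exact h
  rw [rd_dvd] at h1
  obtain ⟨m, hm⟩ := h1
  have e9 : ((9 : ℕ) : Eis) = la * (la ^ 3 * om) := by decide
  rw [e9] at hm
  have h2 : z = la ^ 3 * om * m := mul_left_cancel₀ r4_la_ne (by rw [hm]; ring)
  exact ⟨om * m, by rw [h2]; ring⟩

theorem r4_int {t : ℤ} {δ : Eis} {r : QA 9} {ρ : Eis} (hρ : rd 9 ρ = r)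
    (hline : la ^ 2 ∣ δ - (t : Eis) * ρ) : ∃ n : ℤ, (n = 0 ∨ n = 1 ∨ n = -1) ∧ ∃ k ∈ T3,
      el * rd 9 δ = el * ((n : QA 9) * r + k * el ^ 2) := by
  obtain ⟨n, hn, ⟨u, hu⟩⟩ := int_three t
  refine ⟨n, hn, ?_⟩
  obtain ⟨m, hm⟩ := hline
  have h1 := congrArg (rd 9) hm
  simp only [map_sub, map_mul, map_pow, rd_la, rd_int, hρ] at h1
  have h3e := three_el
  have h2 : el ^ 2 * (rd 9 δ - (n : QA 9) * r) = 0 := by
    have h4 : (t : QA 9) = (n : QA 9) + 3 * (u : QA 9) := by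
      have : t = n + 3 * u := by linarith
      rw [this]
      push_cast
      ring
    rw [h4] at h1
    linear_combination el ^ 2 * h1 + rd 9 m * el_four + (u : QA 9) * r * h3e
  obtain ⟨k, hk, h6⟩ := r4_k2 _ h2
  exact ⟨k, hk, by linear_combination h6⟩

theorem exists_PU (j : ℕ) (hj : j ≤ 2) : ∃ P : Finset (QA 9 × QA 9), P.card ≤ (if j = 0 then 144 else 81) ∧
    ∀ D δ : Eis, Adm j D → ¬ la ∣ D → JG.WG j D (la * δ) →
      ∃ X' δ' : QA 9, (X', δ') ∈ P ∧ el * rd 9 D = el * X' ∧ el * rd 9 δ = el * δ' := by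
  have hdom := eis_isDomain
  have hla : (la : Eis) ≠ 0 := r4_la_ne
  have h3e := three_el
  -- the class of `D` for `j = 1`, `j = 2`
  have hX12 : ∀ D : Eis, la ∣ D + 1 → ∃ d₁ ∈ T3, ∃ d₂ ∈ T3,
      el * rd 9 D = el * (-1 + d₁ * el + d₂ * el ^ 2) := by
    intro D h
    have h1 := (el3_iff _).2 h
    rw [map_add, map_one] at h1
    obtain ⟨d₁, h2, d₂, h3, h4⟩ := r4_k3 _ h1
    exact ⟨d₁, h2, d₂, h3, by linear_combination h4⟩
  have hδla : ∀ δ : Eis, la ^ 2 ∣ la * δ → ∃ k ∈ T3, ∃ k' ∈ T3,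
      el * rd 9 δ = el * (k * el + k' * el ^ 2) := by
    intro δ h
    have h1 : la ∣ δ := by
      rw [sq] at h
      exact (mul_dvd_mul_iff_left hla).1 h
    exact r4_k3 _ ((el3_iff _).2 h1)
  have hj' : j = 0 ∨ j = 1 ∨ j = 2 := by omega
  rcases hj' with rfl | rfl | rfl
  · refine ⟨r4_PA ∪ r4_PB, ?_, ?_⟩
    · rw [if_pos rfl]
      have h1 := Finset.card_union_le r4_PA r4_PB
      have h2 := r4_PA_card
      have h3 := r4_PB_card
      omega
    · intro D δ hA hD h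
      rcases h with ⟨-, -, hη, d₀, d₁, d₂, t, ⟨hd0, hd1, hd2, hdig⟩, hq⟩ | ⟨-, ⟨η, hη, h3⟩, h2⟩ |
        ⟨h0, -⟩ | ⟨h0, -⟩ | ⟨-, h0, -⟩ | ⟨-, h0, -⟩
      · have hd1' : d₁ = 1 ∨ d₁ = -1 := by
          rcases hd1 with h1 | h1
          · exfalso
            subst h1
            obtain ⟨m, hm⟩ := hdig
            have h3 : (3 : Eis) ∣ D - (d₀ : Eis) := by
              have h4 : (la : Eis) ^ 2 = 3 * (-om) := by decide
              refine ⟨-om * (d₂ + la * m), ?_⟩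
              have : D = d₀ + d₂ * la ^ 2 + la ^ 3 * m := by
                push_cast at hm
                linear_combination hm
              rw [this]
              linear_combination (d₂ + la * m) * h4
            rcases hd0 with h0 | h0
            · exact hη 1 (Or.inl rfl) (by rw [h0] at h3; exact_mod_cast h3)
            · exact hη (-1) (Or.inr rfl) (by rw [h0] at h3; exact_mod_cast h3)
          · exact h1
        have eX : el * rd 9 D = el * ((d₀ : QA 9) + (d₁ : QA 9) * el + (d₂ : QA 9) * el ^ 2) := by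
          obtain ⟨m, hm⟩ := hdig
          have := congrArg (rd 9) hm
          simp only [map_sub, map_add, map_mul, map_pow, rd_la, rd_int] at this
          linear_combination el * this + rd 9 m * el_four
        have hline : la ^ 2 ∣ δ - (t : Eis) * (1 + ((d₁ * (1 + d₂) : ℤ) : Eis) * la) := by
          have e : la * δ - (t : Eis) * (la * (1 + ((d₁ * (1 + d₂) : ℤ) : Eis) * la)) =
              la * (δ - (t : Eis) * (1 + ((d₁ * (1 + d₂) : ℤ) : Eis) * la)) := by ring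
          rw [e, show (la : Eis) ^ 3 = la * la ^ 2 by ring] at hq
          exact (mul_dvd_mul_iff_left hla).1 hq
        obtain ⟨n, hn, k, hk, hΔ⟩ := r4_int (r := 1 + (d₁ : QA 9) * (1 + (d₂ : QA 9)) * el) (by
          simp only [map_add, map_mul, map_one, rd_la, rd_int]
          push_cast
          ring) hline
        refine ⟨_, _, Finset.mem_union_left _ (Finset.mem_image.2
          ⟨((d₀ : QA 9), (d₁ : QA 9), (d₂ : QA 9), (n : QA 9), k), ?_, rfl⟩), eX, hΔ⟩
        simp only [Finset.mem_product]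
        exact ⟨mem_D2_of hd0, mem_D2_of hd1', mem_T3_of hd2, mem_T3_of hn, hk⟩
      · -- `D ≡ η mod 3`
        obtain ⟨k, hk, k', hk', hΔ⟩ := hδla δ h2
        obtain ⟨m, hm⟩ := h3
        obtain ⟨e, he, hηe⟩ : ∃ e ∈ D2, rd 9 η = e := by
          rcases hη with rfl | rfl
          · exact ⟨1, by simp [D2], map_one _⟩
          · exact ⟨-1, by simp [D2], by rw [map_neg, map_one]⟩
        have h4 : el ^ 2 * (rd 9 D - e) = 0 := by
          have h1 := congrArg (rd 9) hm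
          simp only [map_sub, map_mul, map_ofNat, hηe] at h1
          linear_combination el ^ 2 * h1 + rd 9 m * h3e
        obtain ⟨d₂, hd₂, h5⟩ := r4_k2 _ h4
        have h6 : d₂ ≠ 1 := by
          rintro rfl
          refine hA.2.1 rfl hD η hη (r4_la3 ?_)
          simp only [map_sub, map_pow, rd_la, hηe]
          linear_combination h5
        have h7 : d₂ ∈ ({0, -1} : Finset (QA 9)) := by
          simp only [T3, Finset.mem_insert, Finset.mem_singleton] at hd₂ ⊢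
          tauto
        refine ⟨_, _, Finset.mem_union_right _ (Finset.mem_image.2
          ⟨(e, d₂, k, k'), ?_, rfl⟩), ?_, hΔ⟩
        · simp only [Finset.mem_product]
          exact ⟨he, h7, hk, hk'⟩
        · linear_combination h5
      · exact absurd h0 (by norm_num)
      · exact absurd h0 (by norm_num)
      · exact absurd h0 hD
      · exact absurd h0 hD
  · refine ⟨r4_PC, ?_, ?_⟩
    · rw [if_neg (by norm_num)]
      exact r4_PC_card
    · intro D δ hA hD h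
      rcases h with ⟨h0, -⟩ | ⟨h0, -⟩ | ⟨-, -, t, hq⟩ | ⟨h0, -⟩ | ⟨-, h0, -⟩ | ⟨-, h0, -⟩
      · exact absurd h0 (by norm_num)
      · exact absurd h0 (by norm_num)
      · obtain ⟨d₁, hd₁, d₂, hd₂, hX⟩ := hX12 D (hA.2.2.1 (Or.inl rfl) hD)
        have hline : la ^ 2 ∣ δ - (t : Eis) * 1 := by
          have e : la * δ - (t : Eis) * la = la * (δ - (t : Eis) * 1) := by ring
          rw [e, show (la : Eis) ^ 3 = la * la ^ 2 by ring] at hq
          exact (mul_dvd_mul_iff_left hla).1 hq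
        obtain ⟨n, hn, k, hk, hΔ⟩ := r4_int (r := 1) (map_one _) hline
        refine ⟨_, _, Finset.mem_image.2 ⟨(d₁, d₂, (n : QA 9), k), ?_, rfl⟩, hX, ?_⟩
        · simp only [Finset.mem_product]
          exact ⟨hd₁, hd₂, mem_T3_of hn, hk⟩
        · rw [hΔ, mul_one]
      · exact absurd h0 (by norm_num)
      · exact absurd h0 hD
      · exact absurd h0 hD
  · refine ⟨r4_PD, ?_, ?_⟩
    · rw [if_neg (by norm_num)]
      exact r4_PD_card
    · intro D δ hA hD h
      rcases h with ⟨h0, -⟩ | ⟨h0, -⟩ | ⟨h0, -⟩ | ⟨-, -, h2⟩ | ⟨-, h0, -⟩ | ⟨-, h0, -⟩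
      · exact absurd h0 (by norm_num)
      · exact absurd h0 (by norm_num)
      · exact absurd h0 (by norm_num)
      · obtain ⟨d₁, hd₁, d₂, hd₂, hX⟩ := hX12 D (hA.2.2.1 (Or.inr rfl) hD)
        obtain ⟨k, hk, k', hk', hΔ⟩ := hδla δ h2
        refine ⟨_, _, Finset.mem_image.2 ⟨(d₁, d₂, k, k'), ?_, rfl⟩, hX, hΔ⟩
        simp only [Finset.mem_product]
        exact ⟨hd₁, hd₂, hk, hk'⟩
      · exact absurd h0 hD
      · exact absurd h0 hD

end JP
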