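import Pool.Agent.JP.R5a

/-!
# [JP-R5b] the residues modulo `9` of the forms with `λ ∣ hes (0, 1)`, `λ ∥ D`

`SR_card`: `Finset.card_image_le`, `UE2_card`, `T3_card`.

`mem_shapeR`: PROOF. By `typeR`: `c = la * c'`, `d = la * d'`, `¬ la ∣ b`. Residues `A, B, C', E, X` of `a, b, c', d, D` in `QA 9`, `E = el * rd 9 d'`. Modulo `9` (`el ^ 4 = 0`, `three_el : 3 * el ^ 2 = 0`, `nine_zero`): `EE = 4 D` gives
`A² E² + 4 A (el C')³ + 4 B³ E = 4 X` (the terms `6 a b c d` and `3 b² c²` vanish). `B³ B³ = 1` (`unit_inv B`: `B * B ^ 5 = 1`; `el ^ 3 * B ≠ 0` by `el3_iff`). Multiply by `7` (`4 * 7 = 1 mod 9`, `28 = 3 * 9 + 1`): `E = B³ (X - 7 A² E² - A (el C')³)`.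
Modulo `λ³` (i.e. multiply by `el`): `el * E = el * (B³ (X - 7 A² E²))`, `E² = el² d'²` and `el * el² * d'² `: `el ^ 3 * d' ^ 2` is `el ^ 3` if `el ^ 3 * d' ≠ 0` (`el_sq`) — here `el ^ 3 * d' ≠ 0` because `λ² ∤ D` (`4 D ≡ 4 B³ E mod λ²`).
So `el * E = el * (B³ (X - 7 A² el²)) = el * (B³ (X - A² el²))` (`7 - 1 = 6`, `6 * el ^ 3 = 0`). Hence `E² = (B³ (X - A² el²))² = (X - A² el²)²`: if `el * y = el * z` and `el ^ 3 * y = 0` then `y² = z²` (`ker1`: `y - z = j el³`, and `el³ (y + z) = 0`).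
So `E = B³ (X - 7 A² (X - A² el²)² - A (el C')³)`. Finally `B ↦ B' ∈ UE2` with `el² B = el² B'` (`E2_ex`, `mem_UE2`; `cube_eq`, `three_eq`: `B³ = B'³`, `3 B = 3 B'`), and `C' ↦ C'' ∈ T3` with `el ^ 3 * C' = el ^ 3 * C''` (`decide +kernel`: every residue is `≡` an element of `T3` modulo `λ`):
`3 * (el * C') = 3 * (el * C'')` and `(el C')³ = el³ C' = el³ C''` (`el_cube`).
-/

set_option autoImplicit false

namespace JP

open CM27 CU JZ JC JXC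

/-- the form with the parameters `((A, X), b, c')` -/
def fmR (v : (QA 9 × QA 9) × QA 9 × QA 9) : QA 9 × QA 9 × QA 9 × QA 9 :=
  (v.1.1, 3 * v.2.1, 3 * (el * v.2.2),
    v.2.1 ^ 3 * (v.1.2 - 7 * v.1.1 ^ 2 * (v.1.2 - v.1.1 ^ 2 * el ^ 2) ^ 2 - v.1.1 * (el * v.2.2) ^ 3))

/-- the residues with the pairs `(A, X)` in `P` -/
def SR (P : Finset (QA 9 × QA 9)) : Finset (QA 9 × QA 9 × QA 9 × QA 9) := (P ×ˢ (UE2 ×ˢ T3)).image fmR

theorem SR_card (P : Finset (QA 9 × QA 9)) : (SR P).card ≤ P.card * 18 := by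
  refine Finset.card_image_le.trans ?_
  rw [Finset.card_product, Finset.card_product, UE2_card, T3_card]

theorem r5b_T3 (x : QA 9) : ∃ y ∈ T3, el ^ 3 * x = el ^ 3 * y := by
  revert x
  decide +kernel

theorem r5b_three (x : QA 9) : el ^ 3 * x = 0 → 3 * (el * x) = 0 := by
  revert x
  decide +kernel

theorem r5b_six : (6 : QA 9) * el ^ 3 = 0 := by decide

/-- the computation modulo `9` -/
theorem r5b_core {A B C E X : QA 9} (hB : el ^ 3 * B ≠ 0) (hX3 : el ^ 3 * X = 0) (hX2 : el ^ 2 * X ≠ 0)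
    (h : A ^ 2 * (el * E) ^ 2 - 6 * A * B * (el * C) * (el * E) + 4 * A * (el * C) ^ 3 +
      4 * B ^ 3 * (el * E) - 3 * B ^ 2 * (el * C) ^ 2 = 4 * X) :
    el * E = B ^ 3 * (X - 7 * A ^ 2 * (X - A ^ 2 * el ^ 2) ^ 2 - A * (el * C) ^ 3) := by
  have h3e := three_el
  have h4 := el_four
  have h9 := nine_zero
  have hBB : B ^ 6 = 1 := by
    have := unit_inv B hB
    rw [← this]
    ring
  have hE0 : el ^ 3 * E ≠ 0 := by
    intro h0
    apply hX2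
    have e1 : el ^ 2 * (4 * X) = 0 := by
      rw [← h]
      linear_combination (A ^ 2 * E ^ 2 + 4 * A * C ^ 3 * el - 3 * B ^ 2 * C ^ 2 - 6 * A * B * C * E) * h4 +
        4 * B ^ 3 * h0
    linear_combination 7 * e1 - 3 * el ^ 2 * X * h9
  have hEE := el_sq E hE0
  -- `E = B³ (X - 7 A² E² - A (el C)³)`
  have e2 : el * E = B ^ 3 * (X - 7 * A ^ 2 * (el * E) ^ 2 - A * (el * C) ^ 3) := by
    have e3 : B ^ 3 * (el * E) = X - 7 * A ^ 2 * (el * E) ^ 2 - A * (el * C) ^ 3 := by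
      linear_combination 7 * h - 3 * (B ^ 3 * (el * E)) * h9 + 3 * X * h9 - 3 * A * (el * C) ^ 3 * h9 +
        14 * A * B * C * E * h3e + 7 * B ^ 2 * C ^ 2 * h3e
    rw [← e3]
    linear_combination -(el * E) * hBB
  -- modulo `λ³`
  have e4 : el * (el * E) = el * (B ^ 3 * (X - A ^ 2 * el ^ 2)) := by
    rw [e2]
    linear_combination -7 * A ^ 2 * B ^ 3 * hEE - A * B ^ 3 * C ^ 3 * h4 - A ^ 2 * B ^ 3 * r5b_six
  obtain ⟨j, -, e5⟩ := ker1 (el * E - B ^ 3 * (X - A ^ 2 * el ^ 2)) (by rw [mul_sub, e4, sub_self])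
  have e6 : (el * E) ^ 2 = (X - A ^ 2 * el ^ 2) ^ 2 := by
    have e7 : (el * E) ^ 2 - (B ^ 3 * (X - A ^ 2 * el ^ 2)) ^ 2 = 0 := by
      have : (el * E) ^ 2 - (B ^ 3 * (X - A ^ 2 * el ^ 2)) ^ 2 =
          (el * E - B ^ 3 * (X - A ^ 2 * el ^ 2)) * (el * E + B ^ 3 * (X - A ^ 2 * el ^ 2)) := by ring
      rw [this, e5]
      linear_combination j * E * h4 + j * B ^ 3 * hX3 - j * B ^ 3 * A ^ 2 * el * h4
    linear_combination e7 + (X - A ^ 2 * el ^ 2) ^ 2 * hBB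
  rw [e6] at e2
  exact e2

theorem mem_shapeR {a b c d D : Eis} {P : Finset (QA 9 × QA 9)} (hD : la ∣ D) (hD2 : ¬ la ^ 2 ∣ D)
    (h : EE a b c d = 4 * D) (h0 : la ∣ hes a b c d 0 1) (hP : (rd 9 a, rd 9 D) ∈ P) :
    rd4 9 (a, 3 * b, 3 * c, d) ∈ SR P := by
  have hdom := eis_isDomain
  obtain ⟨⟨c', rfl⟩, ⟨d', rfl⟩, hb⟩ := typeR hD hD2 h h0
  have hX : el ^ 3 * rd 9 D = 0 := (el3_iff D).2 hD
  have hX2 : el ^ 2 * rd 9 D ≠ 0 := by
    obtain ⟨m, rfl⟩ := hD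
    intro h1
    apply hD2
    have h2 : el ^ 3 * rd 9 m = 0 := by
      rw [map_mul, rd_la] at h1
      rw [← h1]
      ring
    obtain ⟨k, hk⟩ := (el3_iff m).1 h2
    exact ⟨k, by rw [hk]; ring⟩
  have hB0 : el ^ 3 * rd 9 b ≠ 0 := fun h1 => hb ((el3_iff b).1 h1)
  have e1 : rd 9 a ^ 2 * (el * rd 9 d') ^ 2 - 6 * rd 9 a * rd 9 b * (el * rd 9 c') * (el * rd 9 d') +
      4 * rd 9 a * (el * rd 9 c') ^ 3 + 4 * rd 9 b ^ 3 * (el * rd 9 d') -
      3 * rd 9 b ^ 2 * (el * rd 9 c') ^ 2 = 4 * rd 9 D := by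
    have := congrArg (rd 9) h
    simpa only [EE, map_add, map_sub, map_mul, map_pow, map_ofNat, rd_la] using this
  have e2 := r5b_core hB0 hX hX2 e1
  obtain ⟨B', hB'2, hB'⟩ := E2_ex (rd 9 b)
  have hB'0 : B' ∈ UE2 := (mem_UE2 B').2 ⟨hB'2, fun h0 => hB0 (by
    linear_combination el * hB' + h0)⟩
  obtain ⟨C', hC', hC⟩ := r5b_T3 (rd 9 c')
  have hcubB := cube_eq hB'
  have h3B := three_eq hB'
  have h3C : 3 * (el * rd 9 c') = 3 * (el * C') := by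
    have := r5b_three (rd 9 c' - C') (by rw [mul_sub, hC, sub_self])
    linear_combination this
  have hC3 : (el * rd 9 c') ^ 3 = (el * C') ^ 3 := by
    have e3 := el_cube (rd 9 c')
    have e4 := el_cube C'
    linear_combination e3 + hC - e4
  have e5 : rd4 9 (a, 3 * b, 3 * (la * c'), la * d') = fmR ((rd 9 a, rd 9 D), B', C') := by
    simp only [rd4, fmR, map_mul, map_ofNat, rd_la, Prod.mk.injEq]
    refine ⟨trivial, h3B, h3C, ?_⟩
    rw [e2, hcubB, hC3]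
  rw [e5]
  exact Finset.mem_image_of_mem _ (Finset.mem_product.2 ⟨hP, Finset.mem_product.2 ⟨hB'0, hC'⟩⟩)

end JP
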