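import Pool.Agent.JP.Base

/-!
# [JP-R5c] the pairs `(a, D)` modulo `9`, `λ ∥ D`

PROOF. `j = 1`: `P` is the set of `(A, X)` with `el ^ 3 * A = 0` (`27` elements) and `el ^ 3 * X = 0`, `el ^ 2 * X ≠ 0`, `el * X ≠ el ^ 2 + el ^ 3`, `el * X ≠ - el ^ 2 + el ^ 3` (`12` elements, `decide +kernel` for the filter of `Finset.univ : Finset (QA 9)`), as a product.
`j = 2`: `el ^ 3 * A = 0` (`27`) and `el ^ 3 * X = 0`, `el ^ 2 * X ≠ 0` (`18`), as a product. In both cases `JG.WG` gives `la ∣ psi a D` (only the sixth case is possible because `la ∣ D`), and `psi a D = a * ((1 + a² D)² - la²)` where the second factor is `≡ 1 mod λ`, so `la ∣ a`.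
`X = rd 9 D`: `el ^ 3 * X = 0` (`el3_iff`), `el ^ 2 * X ≠ 0` because `¬ la ^ 2 ∣ D` (`el ^ 2 * rd 9 z = 0 ↔ la ^ 2 ∣ z`: prove it as `JC.el3_iff`), and for `j = 1`: if `el * X = el * (el * (η + el))` then `la ^ 3 ∣ D - la * (η + la)` (the analogous lemma `el * rd 9 z = 0 ↔ la ^ 3 ∣ z`),
so with `D = la * c`: `la ^ 2 ∣ c - (η + la)`, which contradicts the last condition of `Adm`.
`j = 0`: `P = P_I ∪ P_II`, images of `(e₀, e₁, k, t, a₃) ∈ D2 × T3 × T3 × T3 × T3` under `X = el * (e₀ + e₁ el) + k el³`, `A = t * el * (e₀ + (e₁ - 1) el) + a₃ el³` (at most `162`) and of `(e₀, e₁, k, ε, t, a₃) ∈ D2 × T3 × T3 × D2 × T3 × T3` under the same `X`,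
`A = ε * (1 + t * el * (e₀ + (e₁ + 1) el)) + a₃ el³` (at most `324`). `JG.WG` (fifth case): integers `b ∈ {0, 1, -1}`, `e₀ = ± 1`, `e₁`, `t` with `la ^ 3 ∣ D - la * (e₀ + e₁ la)` and `la ^ 3 ∣ psi a D - 2 * (b + t * (la * (e₀ + (e₁ - 1 - b²) * la)))`.
Replace `e₁`, `t` by their representatives in `{0, 1, -1}` modulo `3` (`int_three`; `3 la`, is divisible by `la ^ 3`). In `QA 9`: `el * X = el * (el * (e₀ + e₁ el))` and `el * (A * ((1 + A² X)² - el²)) = el * (2 * (b + t * (el * (e₀ + (e₁ - 1 - b²) * el))))`. Here `el * X` can be replaced, so it is a finite statement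
(`decide +kernel`): `∀ e₀ ∈ D2, ∀ e₁ ∈ T3, ∀ b ∈ T3, ∀ t ∈ T3, ∀ A : QA 9`, `el * (A * ((1 + A² (el (e₀ + e₁ el)))² - el²)) = el * (2 (b + t (el (e₀ + (e₁ - 1 - b²) el)))) →`
`(∃ t' ∈ T3, el * A = el * (t' * el * (e₀ + (e₁ - 1) el))) ∨ ∃ ε ∈ D2, ∃ t' ∈ T3, el * A = el * (ε * (1 + t' * el * (e₀ + (e₁ + 1) el)))`. Then `ker1` gives the digits `k`, `a₃` of `el³`. (I have checked the finite statement: it holds because with `A = ε (1 + u el + v el²)`: `psi = ε (1 + (u - e₀) el + (v - e₁) el²)`.)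
-/

set_option autoImplicit false

namespace JP

open CM27 CU JZ JC JXC

theorem r5c_la2 {z : Eis} (h : el ^ 2 * rd 9 z = 0) : la ^ 2 ∣ z := by
  obtain ⟨m, rfl⟩ := (el3_iff z).1 (by linear_combination el * h)
  have h2 : el ^ 3 * rd 9 m = 0 := by
    rw [map_mul, rd_la] at h
    rw [← h]
    ring
  obtain ⟨k, hk⟩ := (el3_iff m).1 h2
  exact ⟨k, by rw [hk]; ring⟩

/-- the `A` divisible by `λ` -/
def r5cA : Finset (QA 9) := Finset.univ.filter fun A => el ^ 3 * A = 0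

/-- the `X`, `λ ∥ X` -/
def r5cX : Finset (QA 9) := Finset.univ.filter fun X => el ^ 3 * X = 0 ∧ el ^ 2 * X ≠ 0

/-- the `X`, `λ ∥ X`, with the last condition of the class -/
def r5cY : Finset (QA 9) := r5cX.filter fun X => el * X ≠ el ^ 2 + el ^ 3 ∧ el * X ≠ -el ^ 2 + el ^ 3

theorem r5cA_card : r5cA.card = 27 := by decide +kernel

theorem r5cX_card : r5cX.card = 18 := by decide +kernel

theorem r5cY_card : r5cY.card = 12 := by decide +kernel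

theorem mem_r5cA {A : QA 9} (h : el ^ 3 * A = 0) : A ∈ r5cA :=
  Finset.mem_filter.2 ⟨Finset.mem_univ _, h⟩

theorem mem_r5cX {X : QA 9} (h : el ^ 3 * X = 0) (h' : el ^ 2 * X ≠ 0) : X ∈ r5cX :=
  Finset.mem_filter.2 ⟨Finset.mem_univ _, h, h'⟩

theorem mem_r5cY {X : QA 9} (h : X ∈ r5cX) (h1 : el * X ≠ el ^ 2 + el ^ 3) (h2 : el * X ≠ -el ^ 2 + el ^ 3) :
    X ∈ r5cY :=
  Finset.mem_filter.2 ⟨h, h1, h2⟩

attribute [irreducible] r5cA r5cX r5cY

/-- first family for `j = 0` -/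
def r5cf1 (v : QA 9 × QA 9 × QA 9 × QA 9 × QA 9) : QA 9 × QA 9 :=
  (v.2.2.2.1 * (el * (v.1 + (v.2.1 - 1) * el)) + v.2.2.2.2 * el ^ 3, el * (v.1 + v.2.1 * el) + v.2.2.1 * el ^ 3)

/-- second family for `j = 0` -/
def r5cf2 (v : (QA 9 × QA 9 × QA 9 × QA 9 × QA 9) × QA 9) : QA 9 × QA 9 :=
  (v.2 * (1 + v.1.2.2.2.1 * (el * (v.1.1 + (v.1.2.1 + 1) * el))) + v.1.2.2.2.2 * el ^ 3,
    el * (v.1.1 + v.1.2.1 * el) + v.1.2.2.1 * el ^ 3)

def r5cS1 : Finset (QA 9 × QA 9 × QA 9 × QA 9 × QA 9) := D2 ×ˢ (T3 ×ˢ (T3 ×ˢ (T3 ×ˢ T3)))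

theorem r5cS1_card : r5cS1.card = 162 := by
  unfold r5cS1
  simp only [Finset.card_product, T3_card, D2_card]

theorem mem_r5cS1 {e₀ e₁ k t a : QA 9} (h1 : e₀ ∈ D2) (h2 : e₁ ∈ T3) (h3 : k ∈ T3) (h4 : t ∈ T3) (h5 : a ∈ T3) :
    (e₀, e₁, k, t, a) ∈ r5cS1 := by
  simp only [r5cS1, Finset.mem_product]
  exact ⟨h1, h2, h3, h4, h5⟩

attribute [irreducible] r5cS1

def r5cS2 : Finset ((QA 9 × QA 9 × QA 9 × QA 9 × QA 9) × QA 9) := r5cS1 ×ˢ D2

theorem r5cS2_card : r5cS2.card = 324 := by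
  unfold r5cS2
  rw [Finset.card_product, r5cS1_card, D2_card]

theorem mem_r5cS2 {v : QA 9 × QA 9 × QA 9 × QA 9 × QA 9} {ε : QA 9} (h1 : v ∈ r5cS1) (h2 : ε ∈ D2) :
    (v, ε) ∈ r5cS2 := by
  rw [r5cS2, Finset.mem_product]
  exact ⟨h1, h2⟩

attribute [irreducible] r5cS2

def r5cP0 : Finset (QA 9 × QA 9) := r5cS1.image r5cf1 ∪ r5cS2.image r5cf2

theorem r5cP0_mem1 {v : QA 9 × QA 9 × QA 9 × QA 9 × QA 9} (h : v ∈ r5cS1) : r5cf1 v ∈ r5cP0 :=
  Finset.mem_union_left _ (Finset.mem_image_of_mem _ h)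

theorem r5cP0_mem2 {v : (QA 9 × QA 9 × QA 9 × QA 9 × QA 9) × QA 9} (h : v ∈ r5cS2) : r5cf2 v ∈ r5cP0 :=
  Finset.mem_union_right _ (Finset.mem_image_of_mem _ h)

theorem r5cP0_card : r5cP0.card ≤ 486 := by
  unfold r5cP0
  refine (Finset.card_union_le _ _).trans ?_
  have h1 : (r5cS1.image r5cf1).card ≤ 162 := Finset.card_image_le.trans r5cS1_card.le
  have h2 : (r5cS2.image r5cf2).card ≤ 324 := Finset.card_image_le.trans r5cS2_card.le
  omega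

attribute [irreducible] r5cP0

/-- the finite check -/
def r5cK (v : QA 9 × QA 9 × QA 9 × QA 9) (A : QA 9) : Bool :=
  !(decide (el * (A * ((1 + A ^ 2 * (el * (v.1 + v.2.1 * el))) ^ 2 - el ^ 2)) =
      el * (2 * (v.2.2.1 + v.2.2.2 * (el * (v.1 + (v.2.1 - 1 - v.2.2.1 ^ 2) * el)))))) ||
  (decide (∃ t' ∈ T3, el * A = el * (t' * (el * (v.1 + (v.2.1 - 1) * el)))) ||
    decide (∃ ε ∈ D2, ∃ t' ∈ T3, el * A = el * (ε * (1 + t' * (el * (v.1 + (v.2.1 + 1) * el))))))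

theorem r5cK_1 : ∀ A ∈ B3, r5cK (1, 0, 0, 0) A = true := by
  decide +kernel

theorem r5c_T3_cases {x : QA 9} (h : x ∈ T3) : x = 0 ∨ x = 1 ∨ x = -1 := by
  unfold T3 at h
  simpa using h

theorem r5cK_all (e₀ : QA 9) (he0 : e₀ ∈ D2) (e₁ : QA 9) (he1 : e₁ ∈ T3) (b : QA 9) (hb : b ∈ T3)
    (t : QA 9) (ht : t ∈ T3) : ∀ A ∈ B3, r5cK (e₀, e₁, b, t) A = true := by
  have he : e₀ = 1 ∨ e₀ = -1 := by
    unfold D2 at he0
    simpa using he0
  rcases he with rfl | rfl <;> rcases r5c_T3_cases he1 with rfl | rfl | rfl <;>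
    rcases r5c_T3_cases hb with rfl | rfl | rfl <;> rcases r5c_T3_cases ht with rfl | rfl | rfl <;>
    decide +kernel

theorem r5c_fin (e₀ : QA 9) (he0 : e₀ ∈ D2) (e₁ : QA 9) (he1 : e₁ ∈ T3) (b : QA 9) (hb : b ∈ T3)
    (t : QA 9) (ht : t ∈ T3) (A : QA 9)
    (h : el * (A * ((1 + A ^ 2 * (el * (e₀ + e₁ * el))) ^ 2 - el ^ 2)) =
      el * (2 * (b + t * (el * (e₀ + (e₁ - 1 - b ^ 2) * el))))) :
    (∃ t' ∈ T3, el * A = el * (t' * (el * (e₀ + (e₁ - 1) * el)))) ∨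
      ∃ ε ∈ D2, ∃ t' ∈ T3, el * A = el * (ε * (1 + t' * (el * (e₀ + (e₁ + 1) * el)))) := by
  obtain ⟨y, hy, hAy⟩ := B3_ex A
  have hyh : ∀ X : QA 9, el * (A * ((1 + A ^ 2 * X) ^ 2 - el ^ 2)) =
      el * (y * ((1 + y ^ 2 * X) ^ 2 - el ^ 2)) := by
    intro X
    linear_combination (1 + 2 * X * (A ^ 2 + A * y + y ^ 2) +
      X ^ 2 * (A ^ 4 + A ^ 3 * y + A ^ 2 * y ^ 2 + A * y ^ 3 + y ^ 4) - el ^ 2) * hAy
  rw [hyh] at h
  rw [hAy]
  have h1 : r5cK (e₀, e₁, b, t) y = true := r5cK_all e₀ he0 e₁ he1 b hb t ht y hy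
  unfold r5cK at h1
  simp only [Bool.or_eq_true, Bool.not_eq_true', decide_eq_false_iff_not, decide_eq_true_eq] at h1
  rcases h1 with h1 | h1 | h1
  · exact absurd h h1
  · exact Or.inl h1
  · exact Or.inr h1

theorem r5c_repl {X Y : QA 9} (A : QA 9) (h : el * X = el * Y) :
    el * (A * ((1 + A ^ 2 * X) ^ 2 - el ^ 2)) = el * (A * ((1 + A ^ 2 * Y) ^ 2 - el ^ 2)) := by
  linear_combination A ^ 3 * (2 + A ^ 2 * X + A ^ 2 * Y) * h

theorem r5c_mem0 {e₀ e₁ b t A X : QA 9} (he0 : e₀ ∈ D2) (he1 : e₁ ∈ T3) (hb : b ∈ T3) (ht : t ∈ T3)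
    (hX : el * X = el * (el * (e₀ + e₁ * el)))
    (h : el * (A * ((1 + A ^ 2 * X) ^ 2 - el ^ 2)) =
      el * (2 * (b + t * (el * (e₀ + (e₁ - 1 - b ^ 2) * el))))) : (A, X) ∈ r5cP0 := by
  have h1 : el * (A * ((1 + A ^ 2 * (el * (e₀ + e₁ * el))) ^ 2 - el ^ 2)) =
      el * (2 * (b + t * (el * (e₀ + (e₁ - 1 - b ^ 2) * el)))) := by
    rw [← h]
    exact (r5c_repl A hX).symm
  have hz : el * (X - el * (e₀ + e₁ * el)) = 0 := by
    linear_combination hX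
  have hz2 := ker1 _ hz
  obtain ⟨k, hk, h2⟩ := hz2
  have hXe : X = el * (e₀ + e₁ * el) + k * el ^ 3 := by rw [← h2]; ring
  rcases r5c_fin e₀ he0 e₁ he1 b hb t ht A h1 with ⟨t', ht', h3⟩ | ⟨ε, hε, t', ht', h3⟩
  · obtain ⟨a₃, ha, h4⟩ := ker1 (A - t' * (el * (e₀ + (e₁ - 1) * el))) (by rw [mul_sub, h3, sub_self])
    have hAe : A = t' * (el * (e₀ + (e₁ - 1) * el)) + a₃ * el ^ 3 := by rw [← h4]; ring
    have h5 := r5cP0_mem1 (mem_r5cS1 he0 he1 hk ht' ha)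
    simp only [r5cf1] at h5
    rw [← hAe, ← hXe] at h5
    exact h5
  · obtain ⟨a₃, ha, h4⟩ := ker1 (A - ε * (1 + t' * (el * (e₀ + (e₁ + 1) * el))))
      (by rw [mul_sub, h3, sub_self])
    have hAe : A = ε * (1 + t' * (el * (e₀ + (e₁ + 1) * el))) + a₃ * el ^ 3 := by rw [← h4]; ring
    have h5 := r5cP0_mem2 (mem_r5cS2 (mem_r5cS1 he0 he1 hk ht' ha) hε)
    simp only [r5cf2] at h5
    rw [← hAe, ← hXe] at h5
    exact h5

theorem r5c_not_la {D : Eis} (hD : la ∣ D) : ¬ ∃ η : Eis, (η = 1 ∨ η = -1) ∧ (3 : Eis) ∣ D - η := by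
  have hdom := eis_isDomain
  rintro ⟨η, hη, h3⟩
  have h4 : (la : Eis) ∣ 3 := ⟨-om ^ 2 * la, by decide⟩
  have h5 : (la : Eis) ∣ η := by
    have := dvd_sub hD (h4.trans h3)
    rwa [sub_sub_cancel] at this
  rcases hη with rfl | rfl
  · exact JC.la_prime.not_dvd_one h5
  · exact JC.la_prime.not_dvd_one ((dvd_neg).1 h5)

/-- `j = 1, 2`: `λ ∣ a` -/
theorem r5c_a {a D : Eis} (hD : la ∣ D) (h : la ∣ psi a D) : el ^ 3 * rd 9 a = 0 := by
  have h1 := (el3_iff _).2 h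
  have h2 := (el3_iff _).2 hD
  simp only [psi, map_mul, map_sub, map_add, map_pow, map_one, rd_la] at h1
  linear_combination h1 - rd 9 a * (2 * rd 9 a ^ 2 + rd 9 a ^ 4 * rd 9 D) * h2 + rd 9 a * el * el_four

theorem r5c_X {D : Eis} (hD : la ∣ D) (hD2 : ¬ la ^ 2 ∣ D) : rd 9 D ∈ r5cX :=
  mem_r5cX ((el3_iff _).2 hD) fun h => hD2 (r5c_la2 h)

theorem exists_PR (j : ℕ) (hj : j ≤ 2) : ∃ P : Finset (QA 9 × QA 9), P.card ≤ (if j = 1 then 324 else 486) ∧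
    ∀ a D : Eis, Adm j D → la ∣ D → JG.WG j D (psi a D) → (rd 9 a, rd 9 D) ∈ P := by
  have hdom := eis_isDomain
  have hj' : j = 0 ∨ j = 1 ∨ j = 2 := by omega
  rcases hj' with rfl | rfl | rfl
  · refine ⟨r5cP0, le_of_le_of_eq r5cP0_card (if_neg (by norm_num)).symm, fun a D hA hD hW => ?_⟩
    rcases hW with ⟨_, h, _⟩ | ⟨_, h, _⟩ | ⟨h, _⟩ | ⟨h, _⟩ | ⟨_, _, b, e₀, e₁, t, hb, he0, h1, h2⟩ | ⟨h, _⟩
    · exact absurd hD h
    · exact absurd h (r5c_not_la hD)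
    · exact absurd h (by norm_num)
    · exact absurd h (by norm_num)
    · obtain ⟨n, hn, ⟨u, hu⟩⟩ := int_three e₁
      obtain ⟨m, hm, ⟨w, hw⟩⟩ := int_three t
      have hu' : (e₁ : QA 9) = (n : QA 9) + 3 * (u : QA 9) := by
        have : e₁ = n + 3 * u := by linarith
        rw [this]
        push_cast
        ring
      have hw' : (t : QA 9) = (m : QA 9) + 3 * (w : QA 9) := by
        have : t = m + 3 * w := by linarith
        rw [this]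
        push_cast
        ring
      obtain ⟨k, hk⟩ := h1
      obtain ⟨l, hl⟩ := h2
      have g1 := congrArg (rd 9) hk
      have g2 := congrArg (rd 9) hl
      push_cast at g2
      simp only [map_sub, map_add, map_mul, map_pow, map_one, rd_la, rd_int, psi, map_ofNat] at g1 g2
      have h3e := three_el
      have h4 := el_four
      refine r5c_mem0 (e₀ := (e₀ : QA 9)) (e₁ := (n : QA 9)) (b := (b : QA 9)) (t := (m : QA 9))
        (mem_D2_of he0) (mem_T3_of hn) (mem_T3_of hb) (mem_T3_of hm) ?_ ?_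
      · rw [hu'] at g1
        linear_combination el * g1 + rd 9 k * h4 + (u : QA 9) * el * h3e
      · rw [hu', hw'] at g2
        linear_combination el * g2 + rd 9 l * h4 +
          (2 * (m : QA 9) * (u : QA 9) * el + 2 * (w : QA 9) * ((e₀ : QA 9) +
            ((n : QA 9) + 3 * (u : QA 9) - 1 - (b : QA 9) ^ 2) * el)) * h3e
    · exact absurd h (by norm_num)
  · refine ⟨r5cA ×ˢ r5cY, ?_, fun a D hA hD hW => ?_⟩
    · rw [Finset.card_product, r5cA_card, r5cY_card]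
      norm_num
    rcases hW with ⟨h, _⟩ | ⟨h, _⟩ | ⟨_, h, _⟩ | ⟨h, _⟩ | ⟨h, _⟩ | ⟨_, _, h⟩
    · exact absurd h (by norm_num)
    · exact absurd h (by norm_num)
    · exact absurd hD h
    · exact absurd h (by norm_num)
    · exact absurd h (by norm_num)
    · refine Finset.mem_product.2 ⟨mem_r5cA (r5c_a hD h), mem_r5cY (r5c_X hD hA.1) ?_ ?_⟩
      · intro h1
        obtain ⟨c, rfl⟩ := hD
        refine hA.2.2.2 rfl c rfl 1 (Or.inl rfl) (r5c_la2 ?_)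
        simp only [map_mul, map_sub, map_add, map_one, rd_la] at h1 ⊢
        linear_combination h1
      · intro h1
        obtain ⟨c, rfl⟩ := hD
        refine hA.2.2.2 rfl c rfl (-1) (Or.inr rfl) (r5c_la2 ?_)
        simp only [map_mul, map_sub, map_add, map_one, map_neg, rd_la] at h1 ⊢
        linear_combination h1
  · refine ⟨r5cA ×ˢ r5cX, ?_, fun a D hA hD hW => ?_⟩
    · rw [Finset.card_product, r5cA_card, r5cX_card]
      norm_num
    rcases hW with ⟨h, _⟩ | ⟨h, _⟩ | ⟨h, _⟩ | ⟨_, h, _⟩ | ⟨h, _⟩ | ⟨_, _, h⟩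
    · exact absurd h (by norm_num)
    · exact absurd h (by norm_num)
    · exact absurd h (by norm_num)
    · exact absurd hD h
    · exact absurd h (by norm_num)
    · exact Finset.mem_product.2 ⟨mem_r5cA (r5c_a hD h), r5c_X hD hA.1⟩

end JP
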