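import Pool.Agent.JP.W
import Pool.Agent.JP.R1
import Pool.Agent.JP.R2
import Pool.Agent.JP.R3
import Pool.Agent.JP.R4
import Pool.Agent.JP.R5b
import Pool.Agent.JP.R5c

/-!
# [JP-R7] all the residues modulo `9`

PROOF. `P₁` from `exists_PU j hj`, `P₂` from `exists_PR j hj`, `S = SG P₁ ∪ SR P₂`, `C` from `four_lines S`. Card: `4 * (card P₁ * 162 + card P₂ * 18) ≤ 5832 * Rj j`: `j = 0`: `4 * (144 * 162 + 486 * 18) = 128304 = 5832 * 22`; `j = 1`: `4 * (81 * 162 + 324 * 18) = 75816 = 5832 * 13`;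
`j = 2`: `4 * (81 * 162 + 486 * 18) = 87480 = 5832 * 15`.
`key1`: for a form `(a, b, c, d)` with `Adm j D`, `EE = 4 D`, `Loc j D a b c d`, `¬ la ∣ D` and `la ∣ d`: `rd4 9 (a, 3 b, 3 c, d) ∈ S`. `d = la δ`. `EE a b c (la δ) ≡ 4 a c³ mod λ`, so `¬ la ∣ c` (`¬ la ∣ D`); `hes a b c (la δ) 0 1 = c² - b la δ` is not divisible by `λ`, `fv a b c (la δ) 0 1 = la δ`, so `Loc` for `(0, 1)` gives
`JG.WG j D (psi (la δ) D)`, and `la ^ 3 ∣ psi (la δ) D - la δ` (`psi (la δ) D = la δ ((1 + la² δ² D)² - la²)`), so `JG.WG j D (la δ)` by `wg_congr`. Then `exists_PU` and `mem_shapeG`.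
`key2`: for `la ∣ D` and `la ∣ hes a b c d 0 1`: `rd4 9 (a, 3 b, 3 c, d) ∈ S`: `typeR` gives `la ∣ c`, `¬ la ∣ b`, so `hes a b c d 1 0 = b² - a c` is not divisible by `λ`, `fv a b c d 1 0 = a`, `la ∣ a² D`: `JG.WG j D (psi a D)`. Then `exists_PR` and `mem_shapeR`.
Main: `¬ la ∣ D`: if `la ∣ a` apply `key1` to `(d, c, b, a)` (`loc_swap`, `ee_swap`); else `posU` and `key1` for `(a, b + a t, c + 2 b t + a t², fv a b c d t 1)` (`loc_sh`, `ee_sh`), and `sh t (a, 3 b, 3 c, d) = (a, 3 (b + a t), 3 (c + 2 b t + a t²), fv a b c d t 1)`.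
`la ∣ D`: `posR`: if `la ∣ hes a b c d 1 0` apply `key2` to `(d, c, b, a)` (`hes d c b a 0 1 = hes a b c d 1 0`); else `key2` for the shifted form (`hes (shifted) 0 1 = hes a b c d t 1`).
-/

set_option autoImplicit false

namespace JP

open CM27 CU JZ JC JXC

theorem r7_three : (3 : Eis) = la * (-om ^ 2 * la) := by decide

/-- the special point `(0, 1)`, `λ ∤ D` -/
theorem r7_key1 {j : ℕ} {P : Finset (QA 9 × QA 9)}
    (hP : ∀ D δ : Eis, Adm j D → ¬ la ∣ D → JG.WG j D (la * δ) →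
      ∃ X' δ' : QA 9, (X', δ') ∈ P ∧ el * rd 9 D = el * X' ∧ el * rd 9 δ = el * δ')
    {a b c d D : Eis} (hA : Adm j D) (h : EE a b c d = 4 * D) (hL : Loc j D a b c d) (hD : ¬ la ∣ D)
    (hd : la ∣ d) : rd4 9 (a, 3 * b, 3 * c, d) ∈ SG P := by
  have hdom := eis_isDomain
  obtain ⟨δ, rfl⟩ := hd
  have hc : ¬ la ∣ c := by
    rintro ⟨c', rfl⟩
    apply hD
    have h1 : la ∣ 4 * D := by
      rw [← h]
      exact ⟨a ^ 2 * la * δ ^ 2 - 6 * a * b * (la * c') * δ + 4 * a * la ^ 2 * c' ^ 3 + 4 * b ^ 3 * δ -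
        3 * b ^ 2 * la * c' ^ 2, by simp only [EE]; ring⟩
    obtain ⟨k, hk⟩ := h1
    exact ⟨k - (-om ^ 2 * la) * D, by linear_combination hk + -D * r7_three⟩
  have hh : ¬ la ∣ hes a b c (la * δ) 0 1 := by
    rintro ⟨k, hk⟩
    apply hc
    have h1 : la ∣ c ^ 2 := ⟨k + b * δ, by simp only [hes] at hk; linear_combination hk⟩
    exact JC.la_prime.dvd_of_dvd_pow h1
  have hf : fv a b c (la * δ) 0 1 = la * δ := by
    simp only [fv, val]
    ring
  have hW := hL 0 1 hh (by rw [hf]; exact ⟨δ ^ 2 * la * D, by ring⟩)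
  rw [hf] at hW
  have hW' : JG.WG j D (la * δ) := by
    refine wg_congr hW ⟨δ * (2 * δ ^ 2 * D + la ^ 2 * δ ^ 4 * D ^ 2 - 1), ?_⟩
    simp only [psi]
    ring
  obtain ⟨X', δ', h1, h2, h3⟩ := hP D δ hA hD hW'
  exact mem_shapeG hD h h1 h2 h3

/-- the special point `(0, 1)`, `λ ∣ D` -/
theorem r7_key2 {j : ℕ} {P : Finset (QA 9 × QA 9)}
    (hP : ∀ a D : Eis, Adm j D → la ∣ D → JG.WG j D (psi a D) → (rd 9 a, rd 9 D) ∈ P)
    {a b c d D : Eis} (hA : Adm j D) (h : EE a b c d = 4 * D) (hL : Loc j D a b c d) (hD : la ∣ D)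
    (h0 : la ∣ hes a b c d 0 1) : rd4 9 (a, 3 * b, 3 * c, d) ∈ SR P := by
  have hdom := eis_isDomain
  obtain ⟨⟨c', hc'⟩, ⟨d', hd'⟩, hb⟩ := typeR hD hA.1 h h0
  have hh : ¬ la ∣ hes a b c d 1 0 := by
    rintro ⟨k, hk⟩
    apply hb
    have h1 : la ∣ b ^ 2 := ⟨k + a * c', by simp only [hes] at hk; rw [hc'] at hk; linear_combination hk⟩
    exact JC.la_prime.dvd_of_dvd_pow h1
  have hf : fv a b c d 1 0 = a := by
    simp only [fv, val]
    ring
  have hW := hL 1 0 hh (by rw [hf]; exact hD.mul_left _)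
  rw [hf] at hW
  exact mem_shapeR hD hA.1 h h0 (hP a D hA hD hW)

open scoped Classical in
theorem c9_j (j : ℕ) (hj : j ≤ 2) : ∃ C : Finset (Z4 9), C.card ≤ 5832 * Rj j ∧
    ∀ a b c d D : Eis, Adm j D → EE a b c d = 4 * D → Loc j D a b c d → res4 9 (a, 3 * b, 3 * c, d) ∈ C := by
  obtain ⟨P₁, hc1, hP₁⟩ := exists_PU j hj
  obtain ⟨P₂, hc2, hP₂⟩ := exists_PR j hj
  obtain ⟨C, hC, hCm⟩ := four_lines (SG P₁ ∪ SR P₂)
  refine ⟨C, ?_, ?_⟩
  · have h1 := SG_card P₁
    have h2 := SR_card P₂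
    have h3 := Finset.card_union_le (SG P₁) (SR P₂)
    have hj' : j = 0 ∨ j = 1 ∨ j = 2 := by omega
    rcases hj' with rfl | rfl | rfl
    · rw [if_pos rfl] at hc1
      rw [if_neg (by norm_num)] at hc2
      have h5 : Rj 0 = 22 := rfl
      rw [h5]
      omega
    · rw [if_neg (by norm_num)] at hc1
      rw [if_pos rfl] at hc2
      have h5 : Rj 1 = 13 := rfl
      rw [h5]
      omega
    · rw [if_neg (by norm_num)] at hc1
      rw [if_neg (by norm_num)] at hc2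
      have h5 : Rj 2 = 15 := rfl
      rw [h5]
      omega
  · intro a b c d D hA h hL
    apply hCm
    have hsh : ∀ t : Eis, sh t (a, 3 * b, 3 * c, d) =
        (a, 3 * (b + a * t), 3 * (c + 2 * b * t + a * t ^ 2), fv a b c d t 1) := by
      intro t
      simp only [sh, fv, val, Prod.mk.injEq]
      refine ⟨trivial, ?_, ?_, ?_⟩ <;> ring
    by_cases hD : la ∣ D
    · rcases posR (a := a) (b := b) (c := c) (d := d) hD h with h1 | ⟨t, ht, h1⟩
      · left
        refine Finset.mem_union_right _ (r7_key2 hP₂ hA ((ee_swap a b c d).trans h) (loc_swap hL) hD ?_)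
        have : hes d c b a 0 1 = hes a b c d 1 0 := by
          simp only [hes]
          ring
        rw [this]
        exact h1
      · right
        refine ⟨t, ht, ?_⟩
        rw [hsh]
        refine Finset.mem_union_right _ (r7_key2 hP₂ hA ((ee_sh a b c d t).trans h) (loc_sh t hL) hD ?_)
        have : hes a (b + a * t) (c + 2 * b * t + a * t ^ 2) (fv a b c d t 1) 0 1 = hes a b c d t 1 := by
          simp only [hes, fv, val]
          ring
        rw [this]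
        exact h1
    · by_cases ha : la ∣ a
      · left
        exact Finset.mem_union_left _ (r7_key1 hP₁ hA ((ee_swap a b c d).trans h) (loc_swap hL) hD ha)
      · right
        obtain ⟨t, ht, h1⟩ := posU (b := b) (c := c) (d := d) ha
        refine ⟨t, ht, ?_⟩
        rw [hsh]
        exact Finset.mem_union_left _ (r7_key1 hP₁ hA ((ee_sh a b c d t).trans h) (loc_sh t hL) hD h1)

end JP
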