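import Pool.Agent.JP.W
import Pool.Agent.JP.R1
import Pool.Agent.JP.R7

/-!
# [JP-R9] the residues modulo `9` of the forms of the class

`unscale`: PROOF. `rd 9 e * rd 9 (e ^ 5) = 1` (`unit_inv`, `el3_iff`). `C' = C.image (fun v => toZ 9 (u * v₁, u * v₂, u * v₃, u * v₄))` with `u = rd 9 (e ^ 5)` and `v` read as an element of `QA 9 ⁴` (`⟨v.1.1, v.1.2⟩`, ..). `Finset.card_image_le`.

`six9`: `9 ∣ n ^ 6 - 1`: `unit_inv (rd 9 n)`.

`c9_P`: PROOF. `C` from `c9_j j hj`, `C'` from `unscale e he' C` (`¬ la ∣ e` from `9 ∣ e n - 1`). Let `D'' = e ^ 4 * D₁`; `9 ∣ n ^ 2 * D₁ - D''` (`e⁴ n⁴ ≡ 1`, `n⁶ ≡ 1`: `n² - e⁴ = n² - e⁴ n⁶ + e⁴ (n⁶ - 1) = n² (1 - (e n)⁴) + ..`). `Adm j D''` (`adm_congr`), `Loc j D'' (e a) ..` (`loc_congr`), `EE (e a) (e b) (e c) (e d) = e ^ 4 * EE a b c d = 4 * D''`.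
`act_all hu` for `(e a, e b, e c, e d)`: `b' c'` with `cB (e a) (3 (e b)) (3 (e c)) (e d) = 3 b'` and so on; `c9_j`: `res4 9 (cA (e a) .., 3 b', 3 c', cD (e a) ..) ∈ C`; and `cA (e a) (3 (e b)) (3 (e c)) (e d) p q r s = e * cA a (3 b) (3 c) d p q r s` (and `cB`, `cC`, `cD`; `simp only [cA, val]; ring`), so `unscale` gives the claim.

`c9_Q`: the same with `e = 2 f`, `D'' = 4 * f ^ 4 * D₁`: `EE (e a) .. = e ^ 4 * D₁ = 4 * D''`, and `9 ∣ n ^ 2 * D₁ - D''`: `4 f n ≡ 1`, `64 ≡ 1`, so `4 f⁴ ≡ 4 f⁴ 64 n⁶ = (4 f n)⁴ n² ≡ n²`.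
-/

set_option autoImplicit false

namespace JP

open CM27 CU JZ JC JXC

/-- multiplication by `u` on the residues -/
def r9F (u : QA 9) (v : Z4 9) : Z4 9 :=
  toZ 9 (u * ⟨v.1.1, v.1.2⟩, u * ⟨v.2.1.1, v.2.1.2⟩, u * ⟨v.2.2.1.1, v.2.2.1.2⟩, u * ⟨v.2.2.2.1, v.2.2.2.2⟩)

theorem r9F_toZ (u : QA 9) (w : QA 9 × QA 9 × QA 9 × QA 9) :
    r9F u (toZ 9 w) = toZ 9 (u * w.1, u * w.2.1, u * w.2.2.1, u * w.2.2.2) := rfl

open scoped Classical in
theorem unscale {e : Eis} (he : ¬ la ∣ e) (C : Finset (Z4 9)) : ∃ C' : Finset (Z4 9), C'.card ≤ C.card ∧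
    ∀ a b c d : Eis, res4 9 (e * a, e * b, e * c, e * d) ∈ C → res4 9 (a, b, c, d) ∈ C' := by
  refine ⟨C.image (r9F (rd 9 e ^ 5)), Finset.card_image_le, fun a b c d h => ?_⟩
  refine Finset.mem_image.2 ⟨_, h, ?_⟩
  have hu : rd 9 e * rd 9 e ^ 5 = 1 := unit_inv _ fun h0 => he ((el3_iff e).1 h0)
  have h1 : ∀ x : Eis, rd 9 e ^ 5 * rd 9 (e * x) = rd 9 x := by
    intro x
    rw [map_mul]
    linear_combination rd 9 x * hu
  rw [res4_eq, res4_eq, r9F_toZ]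
  simp only [rd4, h1]

theorem six9 {n : Eis} (hn : ¬ la ∣ n) : (9 : Eis) ∣ n ^ 6 - 1 := by
  have hu : rd 9 n * rd 9 n ^ 5 = 1 := unit_inv _ fun h0 => hn ((el3_iff n).1 h0)
  have h1 : rd 9 (n ^ 6 - 1) = 0 := by
    rw [map_sub, map_pow, map_one]
    linear_combination hu
  have h2 := (rd_dvd 9 _).1 h1
  exact_mod_cast h2

theorem r9_la_nine : (la : Eis) ∣ 9 := ⟨la ^ 3 * om, by decide⟩

open scoped Classical in
theorem r9_core {j : ℕ} (hj : j ≤ 2) {e : Eis} (he : ¬ la ∣ e) :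
    ∃ C : Finset (Z4 9), C.card ≤ 5832 * Rj j ∧ ∀ a b c d D' D'' p q r s : Eis, Adm j D' →
      (9 : Eis) ∣ D' - D'' → EE (e * a) (e * b) (e * c) (e * d) = 4 * D'' →
      Loc j D' (e * a) (e * b) (e * c) (e * d) → IsUnit (p * s - q * r) →
      res4 9 (cA a (3 * b) (3 * c) d p q r s, cB a (3 * b) (3 * c) d p q r s,
        cC a (3 * b) (3 * c) d p q r s, cD a (3 * b) (3 * c) d p q r s) ∈ C := by
  obtain ⟨C0, hC0, h0⟩ := c9_j j hj
  obtain ⟨C, hC, h1⟩ := unscale he C0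
  refine ⟨C, hC.trans hC0, fun a b c d D' D'' p q r s hA h9 hE hL hu => h1 _ _ _ _ ?_⟩
  obtain ⟨b', c', e1, e2, e3, e4⟩ := act_all hu (loc_congr h9 hL)
  have h2 := h0 _ _ _ _ D'' (adm_congr h9 hA) (e3.trans hE) e4
  rw [← e1, ← e2] at h2
  have g1 : cA (e * a) (3 * (e * b)) (3 * (e * c)) (e * d) p q r s = e * cA a (3 * b) (3 * c) d p q r s := by
    simp only [cA, val]
    ring
  have g2 : cB (e * a) (3 * (e * b)) (3 * (e * c)) (e * d) p q r s = e * cB a (3 * b) (3 * c) d p q r s := by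
    simp only [cB]
    ring
  have g3 : cC (e * a) (3 * (e * b)) (3 * (e * c)) (e * d) p q r s = e * cC a (3 * b) (3 * c) d p q r s := by
    simp only [cC]
    ring
  have g4 : cD (e * a) (3 * (e * b)) (3 * (e * c)) (e * d) p q r s = e * cD a (3 * b) (3 * c) d p q r s := by
    simp only [cD, val]
    ring
  rw [g1, g2, g3, g4] at h2
  exact h2

open scoped Classical in
theorem c9_P {j : ℕ} (hj : j ≤ 2) {n e : Eis} (he : (9 : Eis) ∣ e * n - 1) :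
    ∃ C : Finset (Z4 9), C.card ≤ 5832 * Rj j ∧ ∀ a b c d D p q r s : Eis, Adm j (n ^ 2 * D) → EE a b c d = 4 * D →
      Loc j (n ^ 2 * D) (e * a) (e * b) (e * c) (e * d) → IsUnit (p * s - q * r) →
      res4 9 (cA a (3 * b) (3 * c) d p q r s, cB a (3 * b) (3 * c) d p q r s,
        cC a (3 * b) (3 * c) d p q r s, cD a (3 * b) (3 * c) d p q r s) ∈ C := by
  have hdom := eis_isDomain
  have hla : ¬ la ∣ e * n := by
    intro h
    have h1 : la ∣ (1 : Eis) := by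
      have := dvd_sub h (r9_la_nine.trans he)
      rwa [sub_sub_cancel] at this
    exact JC.la_prime.not_dvd_one h1
  have hle : ¬ la ∣ e := fun h => hla (h.mul_right n)
  have hln : ¬ la ∣ n := fun h => hla (h.mul_left e)
  obtain ⟨C, hC, h⟩ := r9_core hj hle
  refine ⟨C, hC, fun a b c d D p q r s hA hE hL hu =>
    h a b c d (n ^ 2 * D) (e ^ 4 * D) p q r s hA ?_ ?_ hL hu⟩
  · obtain ⟨k, hk⟩ := he
    obtain ⟨l, hl⟩ := six9 hln
    refine ⟨D * (e ^ 4 * l - n ^ 2 * k * ((e * n) ^ 3 + (e * n) ^ 2 + e * n + 1)), ?_⟩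
    linear_combination D * e ^ 4 * hl - D * n ^ 2 * ((e * n) ^ 3 + (e * n) ^ 2 + e * n + 1) * hk
  · have : EE (e * a) (e * b) (e * c) (e * d) = e ^ 4 * EE a b c d := by
      simp only [EE]
      ring
    rw [this, hE]
    ring

open scoped Classical in
theorem c9_Q {j : ℕ} (hj : j ≤ 2) {n e : Eis} (he : (9 : Eis) ∣ 2 * e * n - 1) (h2 : (2 : Eis) ∣ e) :
    ∃ C : Finset (Z4 9), C.card ≤ 5832 * Rj j ∧ ∀ a b c d D p q r s : Eis, Adm j (n ^ 2 * D) → EE a b c d = D →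
      Loc j (n ^ 2 * D) (e * a) (e * b) (e * c) (e * d) → IsUnit (p * s - q * r) →
      res4 9 (cA a (3 * b) (3 * c) d p q r s, cB a (3 * b) (3 * c) d p q r s,
        cC a (3 * b) (3 * c) d p q r s, cD a (3 * b) (3 * c) d p q r s) ∈ C := by
  have hdom := eis_isDomain
  have hla : ¬ la ∣ 2 * e * n := by
    intro h
    have h1 : la ∣ (1 : Eis) := by
      have := dvd_sub h (r9_la_nine.trans he)
      rwa [sub_sub_cancel] at this
    exact JC.la_prime.not_dvd_one h1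
  have hle : ¬ la ∣ e := fun h => hla ((h.mul_left 2).mul_right n)
  have hln : ¬ la ∣ n := fun h => hla (h.mul_left (2 * e))
  obtain ⟨C, hC, h⟩ := r9_core hj hle
  obtain ⟨f, rfl⟩ := h2
  refine ⟨C, hC, fun a b c d D p q r s hA hE hL hu =>
    h a b c d (n ^ 2 * D) (4 * f ^ 4 * D) p q r s hA ?_ ?_ hL hu⟩
  · obtain ⟨k, hk⟩ := he
    obtain ⟨l, hl⟩ := six9 hln
    refine ⟨D * (256 * f ^ 4 * l + 28 * f ^ 4 -
      n ^ 2 * k * ((4 * f * n) ^ 3 + (4 * f * n) ^ 2 + 4 * f * n + 1)), ?_⟩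
    linear_combination D * 256 * f ^ 4 * hl -
      D * n ^ 2 * ((4 * f * n) ^ 3 + (4 * f * n) ^ 2 + 4 * f * n + 1) * hk
  · have : EE (2 * f * a) (2 * f * b) (2 * f * c) (2 * f * d) = (2 * f) ^ 4 * EE a b c d := by
      simp only [EE]
      ring
    rw [this, hE]
    ring

end JP
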