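import Pool.Agent.JP.R8
import Pool.Agent.JP.R9
import Pool.Agent.JGC.Z

/-!
# [JP-R10] all the local conditions

`exists_TP`: PROOF (model: `JGC.exists_TXH` in `Pool/Agent/JGC/Z.lean`). `C9` from `c9_P hj he`, `C4` from `c4p`, `JGC.sieve49`, `JGC.sieve169`, `JGC.z_crt`. For the transformed form `g`: `disc g = (p s - q r)^6 * disc a (3 b) (3 c) d = -27 * (4 * D)` (`disc_act`, `unit_six hu`, `disc_three`),
`c4p` needs `CondTwo D`; `JGC.SqF g` by `JGC.z_sqf (D := D) (k := -27 * 4) (N := 3) hD.1 ⟨-2, by decide⟩`.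

`exists_TQ`: the same with the modulus `kQ = 9 * 2 * 49 * 169`, `c9_Q`, `c2q` and `disc g = -27 * D`, `JGC.z_sqf (k := -27) (N := 3) hD.1 ⟨-8, by decide⟩`; `JGC.crt4` three times as in `JGC.z_crt`.
-/

set_option autoImplicit false

namespace JP

open CM27 CU JZ JC JXC

/-- the modulus for the second type -/
abbrev kQ : ℕ := 9 * 2 * 49 * 169

private theorem r10_crt (C9 : Finset (Z4 9)) (C2 : Finset (Z4 2)) (C49 : Finset (Z4 49))
    (C169 : Finset (Z4 169)) : ∃ F : Finset (Z4 kQ),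
      F.card ≤ C9.card * C2.card * C49.card * C169.card ∧ ∀ g : O4, res4 9 g ∈ C9 → res4 2 g ∈ C2 →
      res4 49 g ∈ C49 → res4 169 g ∈ C169 → res4 kQ g ∈ F := by
  obtain ⟨F1, h1, m1⟩ := JGC.crt4 (m := 9) (n := 2) (by norm_num) (by norm_num) (by norm_num) C9 C2
  obtain ⟨F2, h2, m2⟩ := JGC.crt4 (m := 9 * 2) (n := 49) (by norm_num) (by norm_num) (by norm_num)
    F1 C49
  obtain ⟨F3, h3, m3⟩ := JGC.crt4 (m := 9 * 2 * 49) (n := 169) (by norm_num) (by norm_num)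
    (by norm_num) F2 C169
  refine ⟨F3, h3.trans (Nat.mul_le_mul_right _ (h2.trans (Nat.mul_le_mul_right _ h1))),
    fun g a b c d => m3 g (m2 g (m1 g a b) c) d⟩

open scoped Classical in
theorem exists_TP {j : ℕ} (hj : j ≤ 2) {n e : Eis} (he : (9 : Eis) ∣ e * n - 1) : ∃ F : Finset (Z4 JGC.kM),
    F.card ≤ 5832 * Rj j * 11520 * (2401 * 2304) ^ 2 * (28561 * 28224) ^ 2 ∧
    ∀ a b c d D p q r s : Eis, ClP j n D → EE a b c d = 4 * D → Loc j (n ^ 2 * D) (e * a) (e * b) (e * c) (e * d) →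
      IsUnit (p * s - q * r) →
      (cA a (3 * b) (3 * c) d p q r s, cB a (3 * b) (3 * c) d p q r s,
        cC a (3 * b) (3 * c) d p q r s, cD a (3 * b) (3 * c) d p q r s) ∈ {g : O4 | res4 JGC.kM g ∈ F} := by
  obtain ⟨C9, h9, m9⟩ := c9_P hj he
  obtain ⟨C4, h4, m4⟩ := c4p
  obtain ⟨C49, h49, m49⟩ := JGC.sieve49
  obtain ⟨C169, h169, m169⟩ := JGC.sieve169
  obtain ⟨F, hF, mF⟩ := JGC.z_crt C9 C4 C49 C169
  refine ⟨F, hF.trans (Nat.mul_le_mul (Nat.mul_le_mul (Nat.mul_le_mul h9 h4) h49) h169),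
    fun a b c d D p q r s hD hE hL hu => ?_⟩
  have hdisc : disc (cA a (3 * b) (3 * c) d p q r s) (cB a (3 * b) (3 * c) d p q r s)
      (cC a (3 * b) (3 * c) d p q r s) (cD a (3 * b) (3 * c) d p q r s) = -27 * (4 * D) := by
    rw [disc_act, unit_six hu, one_mul, disc_three, hE]
  have hg9 := m9 a b c d D p q r s hD.2.2 hE hL hu
  have hg4 := m4 _ _ _ _ D hD.2.1 hdisc
  have hsq : JGC.SqF (cA a (3 * b) (3 * c) d p q r s, cB a (3 * b) (3 * c) d p q r s,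
      cC a (3 * b) (3 * c) d p q r s, cD a (3 * b) (3 * c) d p q r s) := by
    refine JGC.z_sqf (D := D) (k := -27 * 4) (N := 3) hD.1 ⟨-2, by decide⟩ ?_
    show disc (cA a (3 * b) (3 * c) d p q r s) _ _ _ = _
    rw [hdisc]
    ring
  exact mF _ hg9 hg4 (m49 _ hsq) (m169 _ hsq)

open scoped Classical in
theorem exists_TQ {j : ℕ} (hj : j ≤ 2) {n e : Eis} (he : (9 : Eis) ∣ 2 * e * n - 1) (h2 : (2 : Eis) ∣ e) :
    ∃ F : Finset (Z4 kQ), F.card ≤ 5832 * Rj j * 90 * (2401 * 2304) ^ 2 * (28561 * 28224) ^ 2 ∧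
    ∀ a b c d D p q r s : Eis, ClQ j n D → EE a b c d = D → Loc j (n ^ 2 * D) (e * a) (e * b) (e * c) (e * d) →
      IsUnit (p * s - q * r) →
      (cA a (3 * b) (3 * c) d p q r s, cB a (3 * b) (3 * c) d p q r s,
        cC a (3 * b) (3 * c) d p q r s, cD a (3 * b) (3 * c) d p q r s) ∈ {g : O4 | res4 kQ g ∈ F} := by
  obtain ⟨C9, h9, m9⟩ := c9_Q hj he h2
  obtain ⟨C2, h2', m2⟩ := c2q
  obtain ⟨C49, h49, m49⟩ := JGC.sieve49
  obtain ⟨C169, h169, m169⟩ := JGC.sieve169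
  obtain ⟨F, hF, mF⟩ := r10_crt C9 C2 C49 C169
  refine ⟨F, hF.trans (Nat.mul_le_mul (Nat.mul_le_mul (Nat.mul_le_mul h9 h2') h49) h169),
    fun a b c d D p q r s hD hE hL hu => ?_⟩
  have hdisc : disc (cA a (3 * b) (3 * c) d p q r s) (cB a (3 * b) (3 * c) d p q r s)
      (cC a (3 * b) (3 * c) d p q r s) (cD a (3 * b) (3 * c) d p q r s) = -27 * D := by
    rw [disc_act, unit_six hu, one_mul, disc_three, hE]
  have hg9 := m9 a b c d D p q r s hD.2.2 hE hL hu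
  have hg2 := m2 _ _ _ _ D hD.2.1 hdisc
  have hsq : JGC.SqF (cA a (3 * b) (3 * c) d p q r s, cB a (3 * b) (3 * c) d p q r s,
      cC a (3 * b) (3 * c) d p q r s, cD a (3 * b) (3 * c) d p q r s) := by
    refine JGC.z_sqf (D := D) (k := -27) (N := 3) hD.1 ⟨-8, by decide⟩ ?_
    show disc (cA a (3 * b) (3 * c) d p q r s) _ _ _ = _
    rw [hdisc]
  exact mF _ hg9 hg2 (m49 _ hsq) (m169 _ hsq)

end JP
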