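import Pool.Agent.JP.T1
import Pool.Agent.JP.R10

/-!
# [JP-B1] upper bounds for the number of `D` with a form

`countP`: PROOF (model: `JGC.count_badXH` in `Pool/Agent/JGC/Z.lean`). `F` from `exists_TP hj he`; `JGC.z_main (k := kM) (by norm_num) F (SBP j n e) 11664 (by norm_num) htw (1 / 10 ^ 6) (by norm_num)` where `htw` is: `X s hs hX hfin ↦ ⟨(norm_fin X).subset .., twelveG {g | res4 kM g ∈ F} (SBP j n e X) .. (fun D => -27 * (4 * D)) ..⟩`: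
`hF`: for `D ∈ SBP j n e X` there are `a b c d` with `EE = 4 D`, no zeros, `Loc`: use the form `(a, 3 b, 3 c, d)`: `disc_three`, `fv` unfolds to `val a (3 * b) (3 * c) d`, and `exists_TP`. `hsq`: `-27 * (u ^ 2 * (-27 * (4 * D))) = (54 * u) ^ 2 * D ≠ v ^ 2` by `JC.not_sq hD.2.1` (`CondTwo D`).
`hs`: `‖emb (-27 * (4 * D))‖ ≤ s ^ 4`: compare the squares: `(‖emb (-27 * (4 * D))‖)² = norm = 108² * D.norm ≤ 11664 * X = s ^ 8` (`norm_emb_sq`, `le_of_sq_le_sq`/`abs_le_of_sq_le_sq`, as `hbd` in `JGC.twelveXH`).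
The constant: with `W = π³ / 24 * 1.01514 / (kM ^ 8 * (9 / 16))`: `z_const` says `108 * (209952 * 11520 * V * W) ≤ 0.19413` (`V = (2401 * 2304) ^ 2 * (28561 * 28224) ^ 2`), and `F.card ≤ 5832 * Rj j * 11520 * V`, so `F.card * W * 11664 ≤ Rj j * (5832 * 11664 / (108 * 209952)) * 0.19413 = 3 * Rj j * 0.19413`,
`12 * ncard ≤ (3 * 0.19413 * Rj j + 1 / 10 ^ 6) * X`, `10 ^ 6 * ncard ≤ (48532.5 * Rj j + 1 / 12) * X ≤ 48534 * Rj j * X` (`1 ≤ Rj j`).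

`countQ`: the same with `kQ`, `F` from `exists_TQ hj he h2`, `κ D = -27 * D`, `m = 729`: `‖emb (-27 * D)‖² = 729 * norm`, `hsq`: `-27 * (u ^ 2 * (-27 * D)) = (27 * u) ^ 2 * D ≠ v ^ 2`: as `JC.not_sq`: otherwise `D = m ^ 2`, a contradiction to `CondQ D` (third part, `8 ∣ 0`).
`W' = π³ / 24 * 1.01514 / (kQ ^ 8 * (9 / 16)) = 256 * W` (`kM = 2 * kQ`): `F.card * W' * 729 ≤ 5832 * Rj j * 90 * V * 256 * W * 729 = (Rj j * 5832 * 23040 * 729 / (108 * 209952 * 11520)) * (108 * 209952 * 11520 * V * W) ≤ Rj j * 0.375 * 0.19413`, `10 ^ 6 * ncard ≤ (6066.6 * Rj j + 1 / 12) * X ≤ 6067 * Rj j * X`.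
-/

set_option autoImplicit false

namespace JP

open CM27 CU JZ JC JX JXC JGC
open scoped Classical

/-- the `D` of the first type with a form -/
def SBP (j : ℕ) (n e : Eis) (X : ℕ) : Set Eis := {D | ClP j n D ∧ HF (4 * D) e j (n ^ 2 * D) ∧ D.norm ≤ X}

/-- the `D` of the second type with a form -/
def SBQ (j : ℕ) (n e : Eis) (X : ℕ) : Set Eis := {D | ClQ j n D ∧ HF D e j (n ^ 2 * D) ∧ D.norm ≤ X}

theorem b1_R1 (j : ℕ) : (1 : ℝ) ≤ (Rj j : ℝ) := by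
  have : 1 ≤ Rj j := by unfold Rj; split_ifs <;> norm_num
  exact_mod_cast this

theorem b1_finP (j : ℕ) (n e : Eis) (X : ℕ) : (SBP j n e X).Finite :=
  (norm_fin X).subset fun _ hx => hx.2.2

theorem b1_finQ (j : ℕ) (n e : Eis) (X : ℕ) : (SBQ j n e X).Finite :=
  (norm_fin X).subset fun _ hx => hx.2.2

theorem countP {j : ℕ} (hj : j ≤ 2) {n e : Eis} (he : (9 : Eis) ∣ e * n - 1) : ∃ X₀ : ℕ, ∀ X : ℕ, X₀ ≤ X →
    (SBP j n e X).Finite ∧ 1000000 * (SBP j n e X).ncard ≤ 48534 * Rj j * X := by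
  have hdom := eis_isDomain
  obtain ⟨F, hF, hT⟩ := exists_TP hj he
  have htw : ∀ (X : ℕ) (s : ℝ), 0 ≤ s → s ^ 8 = (11664 : ℕ) * X →
      {g : O4 | g ∈ {g : O4 | res4 kM g ∈ F} ∧ emb4 g ∈ RegH s}.Finite →
      (SBP j n e X).Finite ∧ 12 * (SBP j n e X).ncard ≤
        {g : O4 | g ∈ {g : O4 | res4 kM g ∈ F} ∧ emb4 g ∈ RegH s}.ncard := by
    intro X s hs hX hfin
    refine ⟨b1_finP j n e X, twelveG {g : O4 | res4 kM g ∈ F} (SBP j n e X) (b1_finP j n e X)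
      (fun D => -27 * (4 * D)) ?_ ?_ ?_ s ?_ hfin⟩
    · intro D₁ _ D₂ _ h
      have h27 : (-27 : Eis) ≠ 0 := by decide
      have h4 : (4 : Eis) ≠ 0 := by decide
      exact mul_left_cancel₀ h4 (mul_left_cancel₀ h27 h)
    · rintro D ⟨hcl, ⟨a, b, c, d, hE, hz, hL⟩, _⟩
      exact ⟨a, 3 * b, 3 * c, d, by rw [disc_three, hE], hz,
        fun p q r s hu => hT a b c d D p q r s hcl hE hL hu⟩
    · rintro D hD u v hu h
      have h54 : (54 : Eis) ≠ 0 := by decide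
      exact not_sq hD.1.2.1 (u := 54 * u) (v := v) (mul_ne_zero h54 hu) (by rw [← h]; ring)
    · intro D hD
      refine le_of_sq_le_sq ?_ (by positivity)
      rw [norm_emb_sq, ← pow_mul, hX, map_mul, map_mul]
      have h1 : (-27 : Eis).norm = 729 := by decide
      have h2 : (4 : Eis).norm = 16 := by decide
      rw [h1, h2]
      have : ((D.norm : ℤ) : ℝ) ≤ X := by exact_mod_cast hD.2.2
      push_cast
      linarith
  obtain ⟨X₀, h⟩ := z_main (k := kM) (by norm_num) F (SBP j n e) 11664 (by norm_num) htw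
    (1 / 10 ^ 6) (by norm_num)
  refine ⟨X₀, fun X hX => ?_⟩
  obtain ⟨h1, h2⟩ := h X hX
  refine ⟨h1, ?_⟩
  have hX0 : (0 : ℝ) ≤ X := Nat.cast_nonneg _
  have hR := b1_R1 j
  set W : ℝ := Real.pi ^ 3 / 24 * 1.01514 / (((kM : ℕ) : ℝ) ^ 8 * (9 / 16)) with hW
  have hW0 : 0 ≤ W := by positivity
  have hN : (F.card : ℝ) ≤
      ((5832 * Rj j * 11520 * (2401 * 2304) ^ 2 * (28561 * 28224) ^ 2 : ℕ) : ℝ) := Nat.cast_le.2 hF
  have hc := z_const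
  rw [← hW] at hc
  have h3 : (F.card : ℝ) * W * ((11664 : ℕ) : ℝ) ≤ 3 * 0.19413 * (Rj j : ℝ) := by
    have h4 := mul_le_mul_of_nonneg_right hN hW0
    have h5 := mul_le_mul_of_nonneg_left hc (by linarith : (0 : ℝ) ≤ (Rj j : ℝ))
    push_cast at h4 h5 ⊢
    nlinarith
  have h5 : 12 * ((SBP j n e X).ncard : ℝ) ≤ (3 * 0.19413 * (Rj j : ℝ) + 1 / 10 ^ 6) * X :=
    h2.trans (mul_le_mul_of_nonneg_right (by linarith) hX0)
  have h6 : (X : ℝ) ≤ (Rj j : ℝ) * X := by nlinarith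
  have h7 : (1000000 : ℝ) * ((SBP j n e X).ncard : ℝ) ≤ 48534 * (Rj j : ℝ) * X := by nlinarith
  exact_mod_cast h7

theorem b1_not_sqQ {D : Eis} (hD : CondQ D) {u v : Eis} (hu : u ≠ 0) : u ^ 2 * D ≠ v ^ 2 := by
  have hdom := eis_isDomain
  have hpid := eis_pid
  intro h
  have h1 : u ^ 2 ∣ v ^ 2 := ⟨D, h.symm⟩
  have h2 : u ∣ v := (UniqueFactorizationMonoid.pow_dvd_pow_iff_dvd two_ne_zero).1 h1
  obtain ⟨m, rfl⟩ := h2
  rw [mul_pow] at h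
  have h3 : D = m ^ 2 := mul_left_cancel₀ (pow_ne_zero 2 hu) h
  exact hD.2.2 m (by rw [h3, sub_self]; exact dvd_zero _)

theorem countQ {j : ℕ} (hj : j ≤ 2) {n e : Eis} (he : (9 : Eis) ∣ 2 * e * n - 1) (h2 : (2 : Eis) ∣ e) :
    ∃ X₀ : ℕ, ∀ X : ℕ, X₀ ≤ X → (SBQ j n e X).Finite ∧ 1000000 * (SBQ j n e X).ncard ≤ 6067 * Rj j * X := by
  have hdom := eis_isDomain
  obtain ⟨F, hF, hT⟩ := exists_TQ hj he h2
  have htw : ∀ (X : ℕ) (s : ℝ), 0 ≤ s → s ^ 8 = (729 : ℕ) * X →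
      {g : O4 | g ∈ {g : O4 | res4 kQ g ∈ F} ∧ emb4 g ∈ RegH s}.Finite →
      (SBQ j n e X).Finite ∧ 12 * (SBQ j n e X).ncard ≤
        {g : O4 | g ∈ {g : O4 | res4 kQ g ∈ F} ∧ emb4 g ∈ RegH s}.ncard := by
    intro X s hs hX hfin
    refine ⟨b1_finQ j n e X, twelveG {g : O4 | res4 kQ g ∈ F} (SBQ j n e X) (b1_finQ j n e X)
      (fun D => -27 * D) ?_ ?_ ?_ s ?_ hfin⟩
    · intro D₁ _ D₂ _ h
      have h27 : (-27 : Eis) ≠ 0 := by decide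
      exact mul_left_cancel₀ h27 h
    · rintro D ⟨hcl, ⟨a, b, c, d, hE, hz, hL⟩, _⟩
      exact ⟨a, 3 * b, 3 * c, d, by rw [disc_three, hE], hz,
        fun p q r s hu => hT a b c d D p q r s hcl hE hL hu⟩
    · rintro D hD u v hu h
      have h27 : (27 : Eis) ≠ 0 := by decide
      exact b1_not_sqQ hD.1.2.1 (u := 27 * u) (v := v) (mul_ne_zero h27 hu) (by rw [← h]; ring)
    · intro D hD
      refine le_of_sq_le_sq ?_ (by positivity)
      rw [norm_emb_sq, ← pow_mul, hX, map_mul]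
      have h1 : (-27 : Eis).norm = 729 := by decide
      rw [h1]
      have : ((D.norm : ℤ) : ℝ) ≤ X := by exact_mod_cast hD.2.2
      push_cast
      linarith
  obtain ⟨X₀, h⟩ := z_main (k := kQ) (by norm_num) F (SBQ j n e) 729 (by norm_num) htw
    (1 / 10 ^ 6) (by norm_num)
  refine ⟨X₀, fun X hX => ?_⟩
  obtain ⟨h1, h2⟩ := h X hX
  refine ⟨h1, ?_⟩
  have hX0 : (0 : ℝ) ≤ X := Nat.cast_nonneg _
  have hR := b1_R1 j
  set W : ℝ := Real.pi ^ 3 / 24 * 1.01514 / (((kM : ℕ) : ℝ) ^ 8 * (9 / 16)) with hW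
  have hWQ : Real.pi ^ 3 / 24 * 1.01514 / (((kQ : ℕ) : ℝ) ^ 8 * (9 / 16)) = 256 * W := by
    rw [hW]
    have e1 : ((kM : ℕ) : ℝ) = 2 * ((kQ : ℕ) : ℝ) := by
      unfold kM kQ; push_cast; norm_num
    have e2 : ((kQ : ℕ) : ℝ) ≠ 0 := by unfold kQ; norm_num
    rw [e1]
    field_simp
    norm_num
  rw [hWQ] at h2
  have hW0 : 0 ≤ W := by positivity
  have hN : (F.card : ℝ) ≤
      ((5832 * Rj j * 90 * (2401 * 2304) ^ 2 * (28561 * 28224) ^ 2 : ℕ) : ℝ) := Nat.cast_le.2 hF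
  have hc := z_const
  rw [← hW] at hc
  have h3 : (F.card : ℝ) * (256 * W) * ((729 : ℕ) : ℝ) ≤ 0.375 * 0.19413 * (Rj j : ℝ) := by
    have h4 := mul_le_mul_of_nonneg_right hN hW0
    have h5 := mul_le_mul_of_nonneg_left hc (by linarith : (0 : ℝ) ≤ (Rj j : ℝ))
    push_cast at h4 h5 ⊢
    nlinarith
  have h5 : 12 * ((SBQ j n e X).ncard : ℝ) ≤ (0.375 * 0.19413 * (Rj j : ℝ) + 1 / 10 ^ 6) * X :=
    h2.trans (mul_le_mul_of_nonneg_right (by linarith) hX0)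
  have h6 : (X : ℝ) ≤ (Rj j : ℝ) * X := by nlinarith
  have h7 : (1000000 : ℝ) * ((SBQ j n e X).ncard : ℝ) ≤ 6067 * (Rj j : ℝ) * X := by nlinarith
  exact_mod_cast h7

end JP
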