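import Pool.Agent.JXC.L
import Pool.Agent.JG.Cls
import Pool.Agent.JG.UC

/-!
# [JP] a larger family: definitions

`D = λ^(2j) D'`, `λ²` does not divide `D'`, `D' = n² D₁`, `n ∈ {1, 2, 4}`, `D₁` squarefree. The forms are `(a, 3b, 3c, d)`.
-/

set_option autoImplicit false

namespace JP

open CM27 CU JZ JC JXC

/-- the value of the form `(a, 3b, 3c, d)` -/
def fv {R : Type*} [CommRing R] (a b c d x y : R) : R := val a (3 * b) (3 * c) d x y

/-- the Hessian of the form `(a, 3b, 3c, d)` -/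
def hes {R : Type*} [CommRing R] (a b c d x y : R) : R :=
  (b ^ 2 - a * c) * x ^ 2 + (b * c - a * d) * (x * y) + (c ^ 2 - b * d) * y ^ 2

/-- the class of the value `B` at `λ` -/
def psi (B D : Eis) : Eis := B * ((1 + B ^ 2 * D) ^ 2 - la ^ 2)

/-- the local condition at `λ` of the form -/
def Loc (j : ℕ) (D a b c d : Eis) : Prop :=
  ∀ x y : Eis, ¬ la ∣ hes a b c d x y → la ∣ fv a b c d x y ^ 2 * D → JG.WG j D (psi (fv a b c d x y) D)

/-- the forms: `EE = Δ`, no zeros, the local condition for the multiple by `e` -/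
def HF (Δ e : Eis) (j : ℕ) (D : Eis) : Prop :=
  ∃ a b c d : Eis, EE a b c d = Δ ∧ (∀ x y : Eis, fv a b c d x y = 0 → x = 0 ∧ y = 0) ∧
    Loc j D (e * a) (e * b) (e * c) (e * d)

/-- the condition at `λ` of the class: `λ² ∤ D'` and the conditions `la0`, `la24`, `la3` of `JG.ClG` -/
def Adm (j : ℕ) (D : Eis) : Prop :=
  ¬ la ^ 2 ∣ D ∧ (j = 0 → ¬ la ∣ D → ∀ η : Eis, (η = 1 ∨ η = -1) → ¬ la ^ 3 ∣ D - η - la ^ 2) ∧
    (j = 1 ∨ j = 2 → ¬ la ∣ D → la ∣ D + 1) ∧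
    (j = 1 → ∀ c : Eis, D = la * c → ∀ η : Eis, (η = 1 ∨ η = -1) → ¬ la ^ 2 ∣ c - (η + la))

/-- the number of the residues modulo `λ³` -/
def Rj (j : ℕ) : ℕ := if j = 0 then 22 else if j = 1 then 13 else 15

/-- odd, a square modulo `4`, not a square modulo `8` -/
def CondQ (D : Eis) : Prop :=
  ¬ (2 : Eis) ∣ D ∧ (∃ t : Eis, (4 : Eis) ∣ D - t ^ 2) ∧ ∀ x : Eis, ¬ (8 : Eis) ∣ D - x ^ 2

/-- the class of the `D₁`, not a square modulo `4` -/
def ClP (j : ℕ) (n D : Eis) : Prop := Squarefree D ∧ CondTwo D ∧ Adm j (n ^ 2 * D)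

/-- the class of the `D₁`, a square modulo `4` and not a square modulo `8` -/
def ClQ (j : ℕ) (n D : Eis) : Prop := Squarefree D ∧ CondQ D ∧ Adm j (n ^ 2 * D)

end JP
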