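import Pool.Agent.JGC.A2

/-!
# [JP-C1] the number of the `D` in residue classes modulo `k`, squarefree outside `6`

PROOF (model: `Pool/Agent/JXC/G.lean`, from `AMY` to `count_clY`, with `k` instead of `36` and `F` instead of `FY`). `AMk m X` = the elements of norm `≤ X` with `res k x ∈ F` and `m ∣ x`. For `m` prime to `6` (so to `k`, because `k ∣ 6 ^ N`): for `c : ZMod k × ZMod k` the elements with `res k x = c`, `m ∣ x` are one class modulo `k * m`
(`JC.res_surj`, `JC.res_iff`, Bezout `u k + v m = 1`; model `JGC.crt` in `Pool/Agent/JGC/A2.lean`), and `JGC.count_class (k * m) r ..` gives `| # - 2π/√3 * X / (k² m.norm) | ≤ 10 (√X + 1)`.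
So `|card (AMk m X) - 2π/√3 * X * F.card / (k² m.norm)| ≤ C (√X + 1)`. The primes of norm `≤ K`: `6 * card ≤ ∑ p ∈ PB K, card (AMk (p ^ 2) X)` (`JXC.BY1_card`, six associates), `JC.sum_primes`: `∑ 1 / norm² ≤ 429 / 1000`. The primes of norm `> K = 3 k₀²`: `≤ C X / k₀²` (`JXC.BY2_card`; or apply `JXC.BY2_card`'s proof, or `JC.count_mul`).
The element `0` removes at most one. So `ncard ≥ (2π/√3) * (F.card / k²) * (1 - 429/6000) * X - small`, `3.6275 * 0.9285 = 3.36813 > 3.368` (`JC.two_pi_bounds`); if `F.card = 0` the claim is trivial, otherwise the small terms are `≤ 0.0001 * X / k²`.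
-/

set_option autoImplicit false

namespace JP

open CM27 CU JZ JC
open scoped Classical

/-- the elements of the residue classes, divisible by `m` -/
noncomputable def c1_AM (k : ℕ) (F : Finset (ZMod k × ZMod k)) (m : Eis) (X : ℕ) : Finset Eis :=
  (norm_fin X).toFinset.filter fun x => res k x ∈ F ∧ m ∣ x

theorem c1_mem (k : ℕ) (F : Finset (ZMod k × ZMod k)) (m : Eis) (X : ℕ) (x : Eis) :
    x ∈ c1_AM k F m X ↔ x.norm ≤ X ∧ res k x ∈ F ∧ m ∣ x := by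
  rw [c1_AM, Finset.mem_filter, Set.Finite.mem_toFinset]
  exact Iff.rfl

theorem c1_crt (k : ℕ) (hk : 0 < k) (m : Eis) (hm : IsCoprime m (k : Eis)) (c : ZMod k × ZMod k) :
    ∃ r : Eis, ∀ x : Eis, (res k x = c ∧ m ∣ x) ↔ (k : Eis) * m ∣ x - r := by
  have : NeZero k := ⟨hk.ne'⟩
  obtain ⟨r, rfl⟩ := res_surj k c
  have hc := hm
  obtain ⟨u, v, huv⟩ := hm
  refine ⟨r * (u * m), fun x => ?_⟩
  rw [res_iff]
  constructor
  · rintro ⟨⟨z, hz⟩, ⟨y, hy⟩⟩
    refine hc.symm.mul_dvd ⟨z + r * v, ?_⟩ ⟨y - r * u, ?_⟩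
    · linear_combination hz - r * huv
    · linear_combination hy
  · rintro ⟨w, hw⟩
    refine ⟨⟨m * w - r * v, ?_⟩, ⟨(k : Eis) * w + r * u, ?_⟩⟩
    · linear_combination hw + r * huv
    · linear_combination hw

theorem c1_norm (k : ℕ) (m : Eis) : (((k : Eis) * m).norm : ℝ) = (k : ℝ) ^ 2 * m.norm := by
  rw [← norm_emb_sq, ← norm_emb_sq, map_mul, norm_mul, mul_pow, map_natCast]
  simp

theorem c1_card (k : ℕ) (hk : 0 < k) (F : Finset (ZMod k × ZMod k)) (m : Eis)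
    (hm : IsCoprime m (k : Eis)) (hm0 : m ≠ 0) (X : ℕ) :
    |((c1_AM k F m X).card : ℝ) - 2 * Real.pi / √3 * (X / (k : ℝ) ^ 2 * F.card) / m.norm| ≤
      10 * F.card * (√X + 1) := by
  have hdom := eis_isDomain
  have hk0 : (k : Eis) ≠ 0 := by
    intro h
    have h2 := c1_norm k 1
    have h5 : (0 : Eis).norm = 0 := by decide
    have h3 : (1 : Eis).norm = 1 := by decide
    rw [h, zero_mul, h5, h3] at h2
    have h4 : (0 : ℝ) < k := by exact_mod_cast hk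
    push_cast at h2
    nlinarith
  have h1 : (c1_AM k F m X).card = ∑ c ∈ F, ((c1_AM k F m X).filter fun x => res k x = c).card :=
    Finset.card_eq_sum_card_fiberwise fun x hx => ((c1_mem k F m X x).1 hx).2.1
  have h2 : ∀ c ∈ F, |(((c1_AM k F m X).filter fun x => res k x = c).card : ℝ) -
      2 * Real.pi / √3 * X / ((k : ℝ) ^ 2 * m.norm)| ≤ 10 * (√X + 1) := fun c hc => by
    obtain ⟨r, hr⟩ := c1_crt k hk m hm c
    have e : (((c1_AM k F m X).filter fun x => res k x = c : Finset Eis) : Set Eis) =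
        {x : Eis | (k : Eis) * m ∣ x - r ∧ x.norm ≤ X} := by
      ext x
      rw [Finset.mem_coe, Finset.mem_filter, c1_mem]
      show _ ↔ (k : Eis) * m ∣ x - r ∧ x.norm ≤ X
      rw [← hr x]
      constructor
      · rintro ⟨⟨h3, h4, h5⟩, h6⟩
        exact ⟨⟨h6, h5⟩, h3⟩
      · rintro ⟨⟨h3, h4⟩, h5⟩
        exact ⟨⟨h5, by rw [h3]; exact hc, h4⟩, h3⟩
    rw [← Set.ncard_coe_finset, e, ← c1_norm]
    exact JGC.count_class ((k : Eis) * m) r (mul_ne_zero hk0 hm0) X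
  have h3 : ((c1_AM k F m X).card : ℝ) - 2 * Real.pi / √3 * (X / (k : ℝ) ^ 2 * F.card) / m.norm =
      ∑ c ∈ F, ((((c1_AM k F m X).filter fun x => res k x = c).card : ℝ) -
        2 * Real.pi / √3 * X / ((k : ℝ) ^ 2 * m.norm)) := by
    rw [Finset.sum_sub_distrib, Finset.sum_const, h1, nsmul_eq_mul]
    push_cast
    congr 1
    have hk' : (k : ℝ) ≠ 0 := by exact_mod_cast hk.ne'
    have hm' : (m.norm : ℝ) ≠ 0 := by
      have := norm_one_le hm0
      positivity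
    field_simp
  rw [h3]
  refine (Finset.abs_sum_le_sum_abs _ _).trans ((Finset.sum_le_sum h2).trans ?_)
  rw [Finset.sum_const, nsmul_eq_mul]
  exact le_of_eq (by ring)

/-- the elements of the class with a square of a prime of norm `≤ K` -/
noncomputable def c1_B1 (k : ℕ) (F : Finset (ZMod k × ZMod k)) (K X : ℕ) : Finset Eis := (c1_AM k F 1 X).filter fun x => ∃ p ∈ PB K, p ^ 2 ∣ x

/-- the elements of the class with a square of a prime of norm `> K` -/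
noncomputable def c1_B2 (k : ℕ) (F : Finset (ZMod k × ZMod k)) (K X : ℕ) : Finset Eis :=
  (c1_AM k F 1 X).filter fun x => x ≠ 0 ∧ ∃ p, Prime p ∧ IsCoprime p 6 ∧ (K : ℤ) < p.norm ∧ p ^ 2 ∣ x

theorem c1_B1_card (k : ℕ) (F : Finset (ZMod k × ZMod k)) (K X : ℕ) :
    6 * (c1_B1 k F K X).card ≤ ∑ p ∈ PB K, (c1_AM k F (p ^ 2) X).card := by
  have hdom := eis_isDomain
  have hex : ∀ x : Eis, ∃ p : Eis, x ∈ c1_B1 k F K X → p ∈ PB K ∧ p ^ 2 ∣ x := fun x => by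
    by_cases hx : x ∈ c1_B1 k F K X
    · obtain ⟨p, h1, h2⟩ := (Finset.mem_filter.1 hx).2
      exact ⟨p, fun _ => ⟨h1, h2⟩⟩
    · exact ⟨0, fun h => absurd h hx⟩
  choose q hq using hex
  have h1 : (U6 ×ˢ c1_B1 k F K X).card ≤ ((PB K).sigma fun p => c1_AM k F (p ^ 2) X).card := by
    refine Finset.card_le_card_of_injOn (fun y => ⟨y.1 * q y.2, y.2⟩) ?_ ?_
    · rintro ⟨u, x⟩ hy
      obtain ⟨hu, hx⟩ := Finset.mem_product.1 (Finset.mem_coe.1 hy)
      obtain ⟨h2, h3⟩ := hq x hx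
      obtain ⟨h4, h5, h6⟩ := (mem_PB K _).1 h2
      have hun : IsUnit u := by
        rw [eis_isUnit_iff]
        exact U6_unit u hu
      refine Finset.mem_coe.2 (Finset.mem_sigma.2 ⟨(mem_PB K _).2 ⟨?_, ?_, ?_⟩, ?_⟩)
      · show (u * q x).norm ≤ K
        rw [map_mul, U6_unit u hu, one_mul]
        exact h4
      · exact (associated_unit_mul_left _ _ hun).symm.prime h5
      · exact (isCoprime_mul_unit_left_left hun _ _).2 h6
      · obtain ⟨h7, h8, -⟩ := (c1_mem k F 1 X x).1 (Finset.mem_filter.1 hx).1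
        refine (c1_mem k F _ X x).2 ⟨h7, h8, ?_⟩
        show (u * q x) ^ 2 ∣ x
        rw [mul_pow]
        exact (IsUnit.mul_left_dvd (hun.pow 2)).2 h3
    · rintro ⟨u, x⟩ hy ⟨u', x'⟩ hy' h
      obtain ⟨hu, hx⟩ := Finset.mem_product.1 (Finset.mem_coe.1 hy)
      simp only [Sigma.mk.injEq, heq_eq_eq] at h
      obtain ⟨h2, rfl⟩ := h
      have h3 : q x ≠ 0 := ((mem_PB K _).1 (hq x hx).1).2.1.ne_zero
      rw [mul_right_cancel₀ h3 h2]
  rw [Finset.card_product, U6_card, Finset.card_sigma] at h1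
  exact h1

theorem c1_B2_card (k₀ : ℕ) (F : Finset (ZMod k₀ × ZMod k₀)) : ∃ C : ℝ, 0 < C ∧ ∀ k X : ℕ, 1 ≤ k →
    ((c1_B2 k₀ F (3 * k ^ 2) X).card : ℝ) ≤ C * X / k ^ 2 := by
  have hdom := eis_isDomain
  obtain ⟨C, hC, hmul⟩ := count_mul
  refine ⟨C * 64, by positivity, fun k X hk => ?_⟩
  set Q : Finset Eis := (PB X).filter fun p => ((3 * k ^ 2 : ℕ) : ℤ) < p.norm with hQ
  have hsub : c1_B2 k₀ F (3 * k ^ 2) X ⊆ Q.biUnion fun p => (norm_fin X).toFinset.filter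
      fun x => x ≠ 0 ∧ p ^ 2 ∣ x := by
    intro x hx
    obtain ⟨h1, h0, p, hp, h6, hK, hd⟩ := Finset.mem_filter.1 hx
    have hX := ((c1_mem k₀ F 1 X x).1 h1).1
    refine Finset.mem_biUnion.2 ⟨p, Finset.mem_filter.2 ⟨(mem_PB X p).2 ⟨?_, hp, h6⟩, hK⟩,
      Finset.mem_filter.2 ⟨?_, h0, hd⟩⟩
    · obtain ⟨y, rfl⟩ := hd
      have hy : y ≠ 0 := by
        rintro rfl
        exact h0 (mul_zero _)
      have h2 := norm_one_le hy
      have h3 := norm_one_le hp.ne_zero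
      have h4 : ((p ^ 2 * y).norm : ℝ) ≤ X := by exact_mod_cast hX
      have h5 : ((p ^ 2 * y).norm : ℝ) = (p.norm : ℝ) ^ 2 * (y.norm : ℝ) := by
        rw [map_mul, map_pow]
        push_cast
        rfl
      have h7 : (p.norm : ℝ) ≤ X := by nlinarith
      exact_mod_cast h7
    · rw [Set.Finite.mem_toFinset]
      exact hX
  have h1 := (Finset.card_le_card hsub).trans Finset.card_biUnion_le
  have h2 : ∀ p ∈ Q, (((norm_fin X).toFinset.filter fun x => x ≠ 0 ∧ p ^ 2 ∣ x).card : ℝ) ≤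
      C * X * (1 / (p.norm : ℝ) ^ 2) := by
    intro p hp
    have hp' := ((mem_PB X p).1 (Finset.mem_filter.1 hp).1).2.1
    have h3 := hmul (p ^ 2) X (pow_ne_zero 2 hp'.ne_zero)
    have h4 : (((norm_fin X).toFinset.filter fun x => x ≠ 0 ∧ p ^ 2 ∣ x).card : ℝ) =
        ({x : Eis | x ≠ 0 ∧ p ^ 2 ∣ x ∧ x.norm ≤ X}.ncard : ℝ) := by
      rw [← Set.ncard_coe_finset]
      congr 2
      ext x
      rw [Finset.mem_coe, Finset.mem_filter, Set.Finite.mem_toFinset]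
      show x.norm ≤ X ∧ _ ↔ x ≠ 0 ∧ p ^ 2 ∣ x ∧ x.norm ≤ X
      tauto
    rw [h4]
    refine h3.trans (le_of_eq ?_)
    rw [map_pow]
    push_cast
    ring
  have h3 := sum_shell k hk Q fun p hp => by
    have h4 := (Finset.mem_filter.1 hp).2
    have h5 : p.norm ≤ 3 * (mx p : ℤ) ^ 2 := by
      rw [norm_eq]
      have a1 : p.re ^ 2 ≤ (mx p : ℤ) ^ 2 := by
        rw [← Int.natAbs_sq p.re]
        have : p.re.natAbs ≤ mx p := le_max_left _ _
        exact_mod_cast Nat.pow_le_pow_left this 2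
      have a2 : p.im ^ 2 ≤ (mx p : ℤ) ^ 2 := by
        rw [← Int.natAbs_sq p.im]
        have : p.im.natAbs ≤ mx p := le_max_right _ _
        exact_mod_cast Nat.pow_le_pow_left this 2
      nlinarith [sq_nonneg (p.re + p.im)]
    by_contra hcon
    rw [not_lt] at hcon
    have h6 : (mx p) ^ 2 ≤ k ^ 2 := Nat.pow_le_pow_left hcon 2
    have h7 : ((mx p : ℤ)) ^ 2 ≤ (k : ℤ) ^ 2 := by exact_mod_cast h6
    push_cast at h4
    linarith
  have hk0 : (1 : ℝ) ≤ k := by exact_mod_cast hk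
  calc ((c1_B2 k₀ F (3 * k ^ 2) X).card : ℝ) ≤
      ((∑ p ∈ Q, ((norm_fin X).toFinset.filter fun x => x ≠ 0 ∧ p ^ 2 ∣ x).card : ℕ) : ℝ) := by
        exact_mod_cast h1
    _ = ∑ p ∈ Q, (((norm_fin X).toFinset.filter fun x => x ≠ 0 ∧ p ^ 2 ∣ x).card : ℝ) := by
        push_cast
        rfl
    _ ≤ ∑ p ∈ Q, C * X * (1 / (p.norm : ℝ) ^ 2) := Finset.sum_le_sum h2
    _ = C * X * ∑ p ∈ Q, (1 / (p.norm : ℝ) ^ 2) := by rw [Finset.mul_sum]
    _ ≤ C * X * (64 / 9 / (k * (k + 1))) := by gcongr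
    _ ≤ C * X * (64 / k ^ 2) := by
        gcongr
        · norm_num
        · nlinarith
    _ = C * 64 * X / k ^ 2 := by ring

theorem c1_sieve (k : ℕ) (F : Finset (ZMod k × ZMod k)) (K X : ℕ) : (c1_AM k F 1 X).card ≤
    {D : Eis | (res k D ∈ F ∧ D ≠ 0 ∧ ∀ p : Eis, Prime p → IsCoprime p 6 → ¬ p ^ 2 ∣ D) ∧
      D.norm ≤ X}.ncard + (c1_B1 k F K X).card + (c1_B2 k F K X).card + 1 := by
  have hfin : {D : Eis | (res k D ∈ F ∧ D ≠ 0 ∧ ∀ p : Eis, Prime p → IsCoprime p 6 → ¬ p ^ 2 ∣ D) ∧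
      D.norm ≤ X}.Finite := (norm_fin X).subset fun x hx => hx.2
  rw [Set.ncard_eq_toFinset_card _ hfin]
  have hsub : c1_AM k F 1 X ⊆ ((hfin.toFinset ∪ c1_B1 k F K X) ∪ c1_B2 k F K X) ∪ {0} := by
    intro x hx
    obtain ⟨h1, h2, -⟩ := (c1_mem k F 1 X x).1 hx
    rw [Finset.mem_union, Finset.mem_union, Finset.mem_union]
    by_cases hx0 : x = 0
    · right
      rw [Finset.mem_singleton]
      exact hx0
    by_cases hsq : ∀ p : Eis, Prime p → IsCoprime p 6 → ¬ p ^ 2 ∣ x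
    · left; left; left
      rw [Set.Finite.mem_toFinset]
      exact ⟨⟨h2, hx0, hsq⟩, h1⟩
    · push Not at hsq
      obtain ⟨p, hp, h6, hd⟩ := hsq
      by_cases hK : p.norm ≤ K
      · left; left; right
        exact Finset.mem_filter.2 ⟨hx, p, (mem_PB K p).2 ⟨hK, hp, h6⟩, hd⟩
      · left; right
        exact Finset.mem_filter.2 ⟨hx, hx0, p, hp, h6, not_le.1 hK, hd⟩
  refine (Finset.card_le_card hsub).trans ((Finset.card_union_le _ _).trans ?_)
  have h1 := Finset.card_union_le (hfin.toFinset ∪ c1_B1 k F K X) (c1_B2 k F K X)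
  have h2 := Finset.card_union_le hfin.toFinset (c1_B1 k F K X)
  rw [Finset.card_singleton]
  omega

theorem count_sf (k : ℕ) (hk : 0 < k) (h6 : ∃ N : ℕ, (k : Eis) ∣ 6 ^ N) (F : Finset (ZMod k × ZMod k)) :
    ∃ X₀ : ℕ, ∀ X : ℕ, X₀ ≤ X → 3368 * F.card * X ≤ 1000 * k ^ 2 *
      {D : Eis | (res k D ∈ F ∧ D ≠ 0 ∧ ∀ p : Eis, Prime p → IsCoprime p 6 → ¬ p ^ 2 ∣ D) ∧ D.norm ≤ X}.ncard := by
  rcases Nat.eq_zero_or_pos F.card with hF0 | hF0
  · exact ⟨0, fun X _ => by rw [hF0]; simp⟩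
  have hN1 : (1 : ℝ) ≤ (F.card : ℝ) := by exact_mod_cast hF0
  have hk1 : (1 : ℝ) ≤ (k : ℝ) := by exact_mod_cast hk
  have hk2 : (1 : ℝ) ≤ (k : ℝ) ^ 2 := by nlinarith
  obtain ⟨C₂, hC₂, hB2⟩ := c1_B2_card k F
  obtain ⟨l, hl⟩ : ∃ l : ℕ, C₂ * (20000 * (k : ℝ) ^ 2) + 1 ≤ (l : ℝ) ^ 2 := by
    obtain ⟨l, hl⟩ := exists_nat_ge (C₂ * (20000 * (k : ℝ) ^ 2) + 1)
    refine ⟨l, hl.trans ?_⟩
    have h1 : (1 : ℝ) ≤ l := by
      have : 0 < C₂ * (20000 * (k : ℝ) ^ 2) := by positivity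
      linarith
    nlinarith
  have hCpos : 0 < C₂ * (20000 * (k : ℝ) ^ 2) := by positivity
  have hl1 : 1 ≤ l := by
    rcases Nat.eq_zero_or_pos l with h | h
    · rw [h] at hl
      norm_num at hl
      linarith
    · exact h
  set K : ℕ := 3 * l ^ 2 with hK
  have hcop : ∀ p : Eis, IsCoprime p 6 → IsCoprime (p ^ 2) (k : Eis) := by
    intro p hp
    obtain ⟨N, hN⟩ := h6
    exact IsCoprime.of_isCoprime_of_dvd_right (hp.pow) hN
  have hdom := eis_isDomain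
  set Nn : ℝ := (F.card : ℝ) with hNn
  set C₃ : ℝ := 10 * Nn + ∑ _p ∈ PB K, 10 * Nn + 1 with hC₃
  have hC₃0 : 0 ≤ C₃ := by
    rw [hC₃]
    have : 0 ≤ ∑ _p ∈ PB K, 10 * Nn := Finset.sum_nonneg fun p hp => by positivity
    positivity
  refine ⟨⌈(C₃ * (40000 * (k : ℝ) ^ 2) + 1) ^ 2⌉₊ + 1, fun X hX => ?_⟩
  have hX0 : (1 : ℝ) ≤ X := by
    have : 1 ≤ X := by omega
    exact_mod_cast this
  have hX1 : (C₃ * (40000 * (k : ℝ) ^ 2) + 1) ^ 2 ≤ X := by
    have h1 : ⌈(C₃ * (40000 * (k : ℝ) ^ 2) + 1) ^ 2⌉₊ ≤ X := by omega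
    exact (Nat.le_ceil _).trans (by exact_mod_cast h1)
  have hsX : C₃ * (40000 * (k : ℝ) ^ 2) + 1 ≤ √X := Real.le_sqrt_of_sq_le hX1
  have hsq : √X * √X = X := Real.mul_self_sqrt (by linarith)
  set q : ℝ := X / (k : ℝ) ^ 2 with hq
  have hq0 : 0 ≤ q := by positivity
  have hqk : (k : ℝ) ^ 2 * q = X := by rw [hq]; field_simp
  have hpos3 : 0 ≤ C₃ * (40000 * (k : ℝ) ^ 2) := by positivity
  have herr : C₃ * (√X + 1) ≤ q / 20000 := by
    have h1 : √X + 1 ≤ 2 * √X := by linarith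
    have h2 : C₃ * (40000 * (k : ℝ) ^ 2) * √X ≤ X := by
      calc C₃ * (40000 * (k : ℝ) ^ 2) * √X ≤ √X * √X := by
            apply mul_le_mul_of_nonneg_right _ (Real.sqrt_nonneg _)
            linarith
        _ = X := hsq
    calc C₃ * (√X + 1) ≤ C₃ * (2 * √X) := mul_le_mul_of_nonneg_left h1 hC₃0
      _ = C₃ * (40000 * (k : ℝ) ^ 2) * √X / (20000 * (k : ℝ) ^ 2) := by field_simp; ring
      _ ≤ X / (20000 * (k : ℝ) ^ 2) := by gcongr
      _ = q / 20000 := by rw [hq]; field_simp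
  obtain ⟨hpi1, hpi2⟩ := two_pi_bounds
  have hone : ((1 : Eis).norm : ℝ) = 1 := by
    have : (1 : Eis).norm = 1 := by decide
    rw [this]
    norm_num
  have h1 := (abs_le.1 (c1_card k hk F 1 isCoprime_one_left one_ne_zero X)).1
  rw [hone, div_one] at h1
  set P : ℝ := 2 * Real.pi / √3 with hP
  have h2 : (6 : ℝ) * (c1_B1 k F K X).card ≤ P * (q * Nn) * (429 / 1000) +
      (∑ _p ∈ PB K, 10 * Nn) * (√X + 1) := by
    have h3 : (6 : ℝ) * (c1_B1 k F K X).card ≤ ∑ p ∈ PB K, ((c1_AM k F (p ^ 2) X).card : ℝ) := by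
      exact_mod_cast c1_B1_card k F K X
    refine h3.trans ?_
    calc ∑ p ∈ PB K, ((c1_AM k F (p ^ 2) X).card : ℝ) ≤
        ∑ p ∈ PB K, (P * (q * Nn) * (1 / (p.norm : ℝ) ^ 2) + 10 * Nn * (√X + 1)) := by
          refine Finset.sum_le_sum fun p hp => ?_
          have hp' := ((mem_PB K p).1 hp).2
          have h4 := (abs_le.1 (c1_card k hk F (p ^ 2) (hcop p hp'.2)
            (pow_ne_zero 2 hp'.1.ne_zero) X)).2
          have e : P * (X / (k : ℝ) ^ 2 * Nn) / ((p ^ 2).norm : ℝ) =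
              P * (q * Nn) * (1 / (p.norm : ℝ) ^ 2) := by
            rw [map_pow]
            push_cast
            ring
          rw [e] at h4
          linarith
      _ = P * (q * Nn) * ∑ p ∈ PB K, (1 / (p.norm : ℝ) ^ 2) +
          (∑ _p ∈ PB K, 10 * Nn) * (√X + 1) := by
        rw [Finset.sum_add_distrib, Finset.mul_sum, Finset.sum_mul]
      _ ≤ _ := by
        have h5 := sum_primes (PB K) fun p hp => ((mem_PB K p).1 hp).2
        have h6 : 0 ≤ P * (q * Nn) := by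
          have : 0 ≤ P := by linarith
          positivity
        have := mul_le_mul_of_nonneg_left h5 h6
        linarith
  have h3 := hB2 l X hl1
  have h4 : C₂ * X / (l : ℝ) ^ 2 ≤ q / 20000 := by
    rw [hq, div_div, div_le_div_iff₀ (by linarith) (by positivity)]
    calc C₂ * X * ((k : ℝ) ^ 2 * 20000) = X * (C₂ * (20000 * (k : ℝ) ^ 2)) := by ring
      _ ≤ X * (l : ℝ) ^ 2 := by
        apply mul_le_mul_of_nonneg_left _ (by linarith)
        linarith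
  set SS : Set Eis := {D : Eis | (res k D ∈ F ∧ D ≠ 0 ∧ ∀ p : Eis, Prime p → IsCoprime p 6 → ¬ p ^ 2 ∣ D) ∧
      D.norm ≤ X} with hSS
  have h5 : ((c1_AM k F 1 X).card : ℝ) ≤ (SS.ncard : ℝ) + (c1_B1 k F K X).card +
      (c1_B2 k F K X).card + 1 := by exact_mod_cast c1_sieve k F K X
  have h8 : C₃ * (√X + 1) = 10 * Nn * (√X + 1) + (∑ _p ∈ PB K, 10 * Nn) * (√X + 1) + (√X + 1) := by
    rw [hC₃]
    ring
  have h9 : 0 ≤ 10 * Nn * (√X + 1) := by positivity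
  have h10 : 0 ≤ (∑ _p ∈ PB K, 10 * Nn) * (√X + 1) :=
    mul_nonneg (Finset.sum_nonneg fun p hp => by positivity) (by positivity)
  have h11 : 0 ≤ √(X : ℝ) := Real.sqrt_nonneg _
  have h12 : 3.6275 * (q * Nn) ≤ P * (q * Nn) := by
    apply mul_le_mul_of_nonneg_right hpi1
    positivity
  have h13 : q ≤ q * Nn := by nlinarith
  have h14 : 3.368 * (q * Nn) ≤ (SS.ncard : ℝ) := by
    linarith
  have h7 : (3368 : ℝ) * Nn * X ≤ 1000 * (k : ℝ) ^ 2 * (SS.ncard : ℝ) := by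
    calc (3368 : ℝ) * Nn * X = 1000 * (k : ℝ) ^ 2 * (3.368 * (q * Nn)) := by
          rw [← hqk]; ring
      _ ≤ 1000 * (k : ℝ) ^ 2 * (SS.ncard : ℝ) := by
          apply mul_le_mul_of_nonneg_left h14
          positivity
  rw [hNn] at h7
  exact_mod_cast h7

end JP
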