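import Pool.Agent.JP.Base
import Pool.Agent.JC.C4
import Pool.Agent.JC.C3
import Pool.Agent.JC.C2

/-!
# [JP-C2] the residues of the classes

`adm_res`: PROOF. Work in `QA 9`: `la ^ k ∣ z ↔ el ^ (4 - k) * rd 9 z = 0` for `k ≤ 3` (`9 = la ^ 4 * om`; `JC.el3_iff` is `k = 1`; prove `k = 2`, `3` in the same way). So `Adm j D` is implied by the decidable condition on `X = rd 9 D`:
`el ^ 2 * X ≠ 0 ∧ (j = 0 → el ^ 3 * X ≠ 0 → el * (X - 1 - el ^ 2) ≠ 0 ∧ el * (X + 1 - el ^ 2) ≠ 0) ∧ (j = 1 ∨ j = 2 → el ^ 3 * X ≠ 0 → el ^ 3 * (X + 1) = 0) ∧ (j = 1 → el ^ 3 * X = 0 → el * (X - el * (1 + el)) ≠ 0 ∧ el * (X - el * (-1 + el)) ≠ 0)`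
(for the last: if `D = la * c` and `la ^ 2 ∣ c - (η + la)` then `la ^ 3 ∣ D - la * (η + la)`). `A` is the set of the `(u, v)` such that `X = rd 9 n ^ 2 * ⟨u, v⟩` satisfies the condition; for each of the nine cases `(j, n)` the card is `3 * Rj j` (`66`, `39`, `45`): `decide +kernel` (`interval_cases j`, `rcases hn`).

`four_res`: `CondTwo`: `JC.condTwo_iff` (file `Pool/Agent/JC/C3.lean`): `12` residues modulo `4`. `eight_res`: `CondQ D`: `D` odd, `≡ t² mod 4` and not a square modulo `8`: `6` residues modulo `8`. Work in `QA 8`: the set of the `(u, v)` with: (`¬ (u, v)` both even), `∃ t : QA 8, 4` divides `X - t²` (i.e. `2 * (X - t ^ 2) = 0` in `QA 8`), `∀ t : QA 8, X ≠ t ^ 2`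
(`decide +kernel`; `rd_dvd 8`). For `∃ t : Eis` lift `t` by `JC.res_surj`.

`crt2`: as `JGC.crt4` (`Pool/Agent/JGC/L2.lean`, `L2_c`, `L2_c_res`): `F = (A ×ˢ B).image (fun x => L2_c h x.1 x.2)`, `L2_c` is injective (`ZMod.chineseRemainder` is an equivalence), so the card is the product; if `res (m * n) D = L2_c h x y = L2_c h (res m D') (res n D')`.. : apply the projections: `ZMod.chineseRemainder h ((z : ZMod (m * n))) = (z, z)`.

`sqfree_of`: PROOF. As at the end of `JXC.sieveY` / `JXC.class_primeY` (`Pool/Agent/JXC/G.lean`): if not squarefree there is a prime `p` with `p ^ 2 ∣ D` (`squarefree_iff_no_irreducibles`); if `¬ IsCoprime p 6` then `p ∣ 6 = 2 * (-om ^ 2 * la ^ 2)`, so `p` is associated to `2` or `la`, and `4 ∣ D` or `la ^ 2 ∣ D`.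
-/

set_option autoImplicit false

namespace JP

open CM27 CU JZ JC JXC

/-- the condition modulo `9` -/
abbrev c2a_cnd (j : ℕ) (X : QA 9) : Prop :=
  el ^ 2 * X ≠ 0 ∧
    (j = 0 → el ^ 3 * X ≠ 0 → el * (X - 1 - el ^ 2) ≠ 0 ∧ el * (X + 1 - el ^ 2) ≠ 0) ∧
    (j = 1 ∨ j = 2 → el ^ 3 * X ≠ 0 → el ^ 3 * (X + 1) = 0) ∧
    (j = 1 → el ^ 3 * X = 0 → el * (X - el * (1 + el)) ≠ 0 ∧ el * (X - el * (-1 + el)) ≠ 0)

private theorem c2a_dvd {k l : ℕ} (hkl : l + k = 4) {z : Eis} (h : la ^ k ∣ z) :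
    el ^ l * rd 9 z = 0 := by
  obtain ⟨c, rfl⟩ := h
  rw [map_mul, map_pow, rd_la, ← mul_assoc, ← pow_add, hkl, el_four, zero_mul]

private theorem c2a_adm {j : ℕ} {D : Eis} (h : c2a_cnd j (rd 9 D)) : Adm j D := by
  obtain ⟨h1, h2, h3, h4⟩ := h
  refine ⟨fun hd => h1 (c2a_dvd (k := 2) (l := 2) rfl hd), ?_, ?_, ?_⟩
  · intro hj hla η hη hd
    have h5 : el ^ 3 * rd 9 D ≠ 0 := fun h0 => hla ((el3_iff D).1 h0)
    obtain ⟨h6, h7⟩ := h2 hj h5
    have h8 := c2a_dvd (k := 3) (l := 1) rfl hd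
    rw [pow_one, map_sub, map_sub, map_pow, rd_la] at h8
    rcases hη with rfl | rfl
    · rw [map_one] at h8
      exact h6 h8
    · rw [map_neg, map_one, sub_neg_eq_add] at h8
      exact h7 h8
  · intro hj hla
    have h5 : el ^ 3 * rd 9 D ≠ 0 := fun h0 => hla ((el3_iff D).1 h0)
    rw [← el3_iff, map_add, map_one]
    exact h3 hj h5
  · intro hj c hc η hη hd
    have h5 : el ^ 3 * rd 9 D = 0 := (el3_iff D).2 ⟨c, hc⟩
    obtain ⟨h6, h7⟩ := h4 hj h5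
    have h9 : la ^ 3 ∣ D - la * (η + la) := by
      obtain ⟨e, he⟩ := hd
      refine ⟨e, ?_⟩
      rw [hc]
      linear_combination la * he
    have h8 := c2a_dvd (k := 3) (l := 1) rfl h9
    rw [pow_one, map_sub, map_mul, map_add, rd_la] at h8
    rcases hη with rfl | rfl
    · rw [map_one] at h8
      exact h6 h8
    · rw [map_neg, map_one] at h8
      exact h7 h8

/-- the residues -/
def c2a_A (j : ℕ) (m : QA 9) : Finset (ZMod 9 × ZMod 9) :=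
  Finset.univ.filter fun c => c2a_cnd j (m ^ 2 * ⟨c.1, c.2⟩)

private theorem c2a_mem {j : ℕ} {n D : Eis} (h : res 9 D ∈ c2a_A j (rd 9 n)) : Adm j (n ^ 2 * D) := by
  have h1 := (Finset.mem_filter.1 h).2
  apply c2a_adm
  rw [map_mul, map_pow]
  exact h1

private theorem c2a_card (j : ℕ) (hj : j ≤ 2) (m : QA 9) (hm : m = 1 ∨ m = 2 ∨ m = 4) :
    3 * Rj j ≤ (c2a_A j m).card := by
  interval_cases j <;> rcases hm with rfl | rfl | rfl <;> decide +kernel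

theorem adm_res {j : ℕ} (hj : j ≤ 2) {n : Eis} (hn : n = 1 ∨ n = 2 ∨ n = 4) : ∃ A : Finset (ZMod 9 × ZMod 9),
    3 * Rj j ≤ A.card ∧ ∀ D : Eis, res 9 D ∈ A → Adm j (n ^ 2 * D) := by
  refine ⟨c2a_A j (rd 9 n), c2a_card j hj _ ?_, fun D hD => c2a_mem hD⟩
  rcases hn with rfl | rfl | rfl
  · exact Or.inl (map_one _)
  · exact Or.inr (Or.inl (map_ofNat _ 2))
  · exact Or.inr (Or.inr (map_ofNat _ 4))

theorem four_res : ∃ A : Finset (ZMod 4 × ZMod 4), 12 ≤ A.card ∧ ∀ D : Eis, res 4 D ∈ A → CondTwo D := by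
  refine ⟨Finset.univ.filter fun c : ZMod 4 × ZMod 4 => ¬ ((c.1 = 0 ∧ c.2 = 0) ∨ (c.1 = 1 ∧ c.2 = 0) ∨
    (c.1 = 0 ∧ c.2 = 1) ∨ (c.1 = 3 ∧ c.2 = 3)), by decide +kernel, fun D hD => ?_⟩
  rw [Finset.mem_filter] at hD
  rw [condTwo_iff]
  intro h
  apply hD.2
  have key : ∀ z a : ℤ, z % 4 = a → ((z : ℤ) : ZMod 4) = ((a : ℤ) : ZMod 4) := by
    intro z a hz
    rw [← hz]
    exact (ZMod.intCast_mod z 4).symm
  rcases h with ⟨h1, h2⟩ | ⟨h1, h2⟩ | ⟨h1, h2⟩ | ⟨h1, h2⟩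
  · exact Or.inl ⟨key _ _ h1, key _ _ h2⟩
  · exact Or.inr (Or.inl ⟨key _ _ h1, key _ _ h2⟩)
  · exact Or.inr (Or.inr (Or.inl ⟨key _ _ h1, key _ _ h2⟩))
  · exact Or.inr (Or.inr (Or.inr ⟨key _ _ h1, key _ _ h2⟩))

/-- the condition modulo `8` -/
def c2b_P (c : ZMod 8 × ZMod 8) : Prop :=
  (4 : QA 8) * ⟨c.1, c.2⟩ ≠ 0 ∧ (∃ t : ZMod 8 × ZMod 8, (2 : QA 8) * (⟨c.1, c.2⟩ - ⟨t.1, t.2⟩ ^ 2) = 0) ∧
    ∀ t : ZMod 8 × ZMod 8, (⟨c.1, c.2⟩ : QA 8) ≠ ⟨t.1, t.2⟩ ^ 2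

instance : DecidablePred c2b_P := fun c => by
  unfold c2b_P
  infer_instance

theorem eight_res : ∃ A : Finset (ZMod 8 × ZMod 8), 6 ≤ A.card ∧ ∀ D : Eis, res 8 D ∈ A → CondQ D := by
  have hdom := eis_isDomain
  refine ⟨Finset.univ.filter fun c : ZMod 8 × ZMod 8 => c2b_P c, by decide +kernel, fun D hD => ?_⟩
  rw [Finset.mem_filter] at hD
  obtain ⟨-, h1, ⟨t, h2⟩, h3⟩ := hD
  have hrd : ∀ z : Eis, (⟨(res 8 z).1, (res 8 z).2⟩ : QA 8) = rd 8 z := fun z => rfl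
  rw [hrd] at h1 h2
  simp only [hrd] at h3
  refine ⟨?_, ?_, ?_⟩
  · rintro ⟨k, hk⟩
    apply h1
    have e : (4 : QA 8) * rd 8 D = rd 8 (8 * k) := by
      rw [hk, map_mul, map_mul, map_ofNat, map_ofNat]
      ring
    rw [e, rd_dvd]
    exact ⟨k, by push_cast; ring⟩
  · obtain ⟨r, hr⟩ := res_surj 8 t
    refine ⟨r, ?_⟩
    rw [← hr, hrd, ← map_pow, ← map_sub] at h2
    have h4 : rd 8 (2 * (D - r ^ 2)) = 0 := by
      rw [map_mul, map_ofNat]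
      exact h2
    rw [rd_dvd] at h4
    obtain ⟨k, hk⟩ := h4
    refine ⟨k, ?_⟩
    have h5 : (2 : Eis) * (D - r ^ 2) = 2 * (4 * k) := by
      rw [hk]
      push_cast
      ring
    exact mul_left_cancel₀ two_prime.ne_zero h5
  · intro x hx
    have h4 : rd 8 (D - x ^ 2) = 0 := by
      rw [rd_dvd]
      exact_mod_cast hx
    rw [map_sub, map_pow, sub_eq_zero] at h4
    exact h3 (res 8 x) h4

theorem c2b_crt {m n : ℕ} (h : m.Coprime n) (z : ℤ) :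
    (ZMod.chineseRemainder h).symm ((z : ZMod m), (z : ZMod n)) = (z : ZMod (m * n)) := by
  rw [RingEquiv.symm_apply_eq, map_intCast]
  rfl

/-- one component -/
def c2b_c {m n : ℕ} (h : m.Coprime n) (x : ZMod m × ZMod m) (y : ZMod n × ZMod n) :
    ZMod (m * n) × ZMod (m * n) :=
  ((ZMod.chineseRemainder h).symm (x.1, y.1), (ZMod.chineseRemainder h).symm (x.2, y.2))

theorem c2b_c_res {m n : ℕ} (h : m.Coprime n) (x : Eis) :
    c2b_c h (res m x) (res n x) = res (m * n) x := by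
  unfold c2b_c res
  rw [c2b_crt, c2b_crt]

theorem c2b_inj {m n : ℕ} (h : m.Coprime n) {x x' : ZMod m × ZMod m} {y y' : ZMod n × ZMod n}
    (he : c2b_c h x y = c2b_c h x' y') : x = x' ∧ y = y' := by
  unfold c2b_c at he
  rw [Prod.mk.injEq] at he
  have h1 := (ZMod.chineseRemainder h).symm.injective he.1
  have h2 := (ZMod.chineseRemainder h).symm.injective he.2
  rw [Prod.mk.injEq] at h1 h2
  exact ⟨Prod.ext h1.1 h2.1, Prod.ext h1.2 h2.2⟩

theorem crt2 {m n : ℕ} (h : m.Coprime n) (A : Finset (ZMod m × ZMod m)) (B : Finset (ZMod n × ZMod n)) :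
    ∃ F : Finset (ZMod (m * n) × ZMod (m * n)), A.card * B.card ≤ F.card ∧
      ∀ D : Eis, res (m * n) D ∈ F → res m D ∈ A ∧ res n D ∈ B := by
  classical
  refine ⟨(A ×ˢ B).image fun x => c2b_c h x.1 x.2, ?_, ?_⟩
  · rw [Finset.card_image_of_injective, Finset.card_product]
    rintro ⟨x, y⟩ ⟨x', y'⟩ he
    obtain ⟨h1, h2⟩ := c2b_inj h he
    exact Prod.ext h1 h2
  · intro D hD
    obtain ⟨⟨x, y⟩, hxy, he⟩ := Finset.mem_image.1 hD
    rw [← c2b_c_res h] at he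
    obtain ⟨h1, h2⟩ := c2b_inj h he
    obtain ⟨hx, hy⟩ := Finset.mem_product.1 hxy
    dsimp only at hx hy h1 h2
    exact ⟨h1 ▸ hx, h2 ▸ hy⟩

theorem sqfree_of {D : Eis} (h0 : D ≠ 0) (h : ∀ p : Eis, Prime p → IsCoprime p 6 → ¬ p ^ 2 ∣ D) (hl : ¬ la ^ 2 ∣ D)
    (h2 : ¬ (4 : Eis) ∣ D) : Squarefree D := by
  have hdom := eis_isDomain
  have hpid := eis_pid
  by_contra hsq
  rw [squarefree_iff_no_irreducibles h0] at hsq
  push Not at hsq
  obtain ⟨p, hp, hd⟩ := hsq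
  have hpp : Prime p := hp.prime
  rw [← sq] at hd
  apply h p hpp _ hd
  rw [Prime.coprime_iff_not_dvd hpp]
  intro h6
  have h6' : (6 : Eis) = 2 * (-om ^ 2 * la ^ 2) := by decide
  rw [h6'] at h6
  rcases hpp.dvd_or_dvd h6 with h3 | h3
  · have h4 : (2 : Eis) ∣ p := (hpp.associated_of_dvd two_prime h3).symm.dvd
    apply h2
    have h5 : (2 : Eis) ^ 2 ∣ D := (pow_dvd_pow_of_dvd h4 2).trans hd
    have e : (2 : Eis) ^ 2 = 4 := by norm_num
    rwa [e] at h5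
  · have h4 : p ∣ la := by
      rcases hpp.dvd_or_dvd h3 with h5 | h5
      · exfalso
        apply hpp.not_isUnit
        refine isUnit_of_dvd_unit h5 ?_
        rw [eis_isUnit_iff]
        decide
      · exact hpp.dvd_of_dvd_pow h5
    have h5 : (la : Eis) ∣ p := (hpp.associated_of_dvd la_prime' h4).symm.dvd
    exact hl ((pow_dvd_pow_of_dvd h5 2).trans hd)

end JP
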