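import Pool.Agent.JP.C1
import Pool.Agent.JP.C2

/-!
# [JP-C3] the number of the `D` of the classes

PROOF. `A` from `adm_res hj hn`, `B` from `four_res` (`eight_res`), `F` from `crt2 (m := 9) (n := 4) (by norm_num) A B` (`n := 8`), `36 * Rj j ≤ F.card` (`18 * Rj j ≤ F.card`), `count_sf (9 * 4) ..` (`(9 * 4 : ℕ) ∣ 6 ^ 2`; `9 * 8 ∣ 6 ^ 3`).
The set of `count_sf` is contained in `{D | ClP j n D ∧ D.norm ≤ X}` (`sqfree_of`: `¬ la ^ 2 ∣ D` because `¬ la ^ 2 ∣ n ^ 2 * D`; `¬ 4 ∣ D` from `CondTwo D 0`, or from `¬ 2 ∣ D`), which is finite (`norm_fin X`): `Set.ncard_le_ncard`.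
`3368 * (36 * Rj j) * X ≤ 1000 * 36 ^ 2 * ncard`, so `93555 * Rj j * X ≤ 1000000 * ncard` (`3368 * 36 * 1000000 = 121248000000 ≥ 93555 * 1296000 = 121247280000`); `3368 * 18 * 1000000 = 60624000000 ≥ 11694 * 5184000 = 60621696000`.
-/

set_option autoImplicit false

namespace JP

open CM27 CU JZ JC JXC
open scoped Classical

private theorem c3_la {n D : Eis} (h : ¬ la ^ 2 ∣ n ^ 2 * D) : ¬ la ^ 2 ∣ D :=
  fun h' => h (h'.mul_left _)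

theorem classP {j : ℕ} (hj : j ≤ 2) {n : Eis} (hn : n = 1 ∨ n = 2 ∨ n = 4) : ∃ X₀ : ℕ, ∀ X : ℕ, X₀ ≤ X →
    {D : Eis | ClP j n D ∧ D.norm ≤ X}.Finite ∧ 93555 * Rj j * X ≤ 1000000 * {D : Eis | ClP j n D ∧ D.norm ≤ X}.ncard := by
  obtain ⟨A, hA, hA'⟩ := adm_res hj hn
  obtain ⟨B, hB, hB'⟩ := four_res
  obtain ⟨F, hF, hF'⟩ := crt2 (m := 9) (n := 4) (by norm_num) A B
  have hdvd : ((9 * 4 : ℕ) : Eis) ∣ 6 ^ 2 := by
    refine ⟨1, ?_⟩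
    push_cast
    ring
  obtain ⟨X₀, hX₀⟩ := count_sf (9 * 4) (by norm_num) ⟨2, hdvd⟩ F
  refine ⟨X₀, fun X hX => ?_⟩
  have hfin : {D : Eis | ClP j n D ∧ D.norm ≤ X}.Finite :=
    (norm_fin X).subset fun D hD => hD.2
  refine ⟨hfin, ?_⟩
  have hsub : {D : Eis | (res (9 * 4) D ∈ F ∧ D ≠ 0 ∧ ∀ p : Eis, Prime p → IsCoprime p 6 → ¬ p ^ 2 ∣ D) ∧
      D.norm ≤ X} ⊆ {D : Eis | ClP j n D ∧ D.norm ≤ X} := by
    rintro D ⟨⟨h1, h2, h3⟩, h4⟩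
    obtain ⟨h5, h6⟩ := hF' D h1
    have h7 := hA' D h5
    have h8 := hB' D h6
    refine ⟨⟨sqfree_of h2 h3 (c3_la h7.1) ?_, h8, h7⟩, h4⟩
    have := h8 0
    simpa using this
  have h1 := Set.ncard_le_ncard hsub hfin
  have h2 := hX₀ X hX
  have h3 : 36 * Rj j ≤ F.card := by
    calc 36 * Rj j = (3 * Rj j) * 12 := by ring
      _ ≤ A.card * B.card := Nat.mul_le_mul hA hB
      _ ≤ F.card := hF
  set M := {D : Eis | ClP j n D ∧ D.norm ≤ X}.ncard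
  set m := {D : Eis | (res (9 * 4) D ∈ F ∧ D ≠ 0 ∧ ∀ p : Eis, Prime p → IsCoprime p 6 → ¬ p ^ 2 ∣ D) ∧
      D.norm ≤ X}.ncard
  have h4 : 3368 * (36 * Rj j) * X ≤ 1000 * (9 * 4) ^ 2 * M := by
    calc 3368 * (36 * Rj j) * X ≤ 3368 * F.card * X :=
          Nat.mul_le_mul_right _ (Nat.mul_le_mul_left _ h3)
      _ ≤ 1000 * (9 * 4) ^ 2 * m := h2
      _ ≤ _ := Nat.mul_le_mul_left _ h1
  have h5 : 3368 * (36 * Rj j) * X = 121248 * (Rj j * X) := by ring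
  have h6 : 1000 * (9 * 4) ^ 2 * M = 1296000 * M := by norm_num
  rw [h5, h6] at h4
  have h7 : 93555 * Rj j * X = 93555 * (Rj j * X) := by ring
  rw [h7]
  omega

theorem classQ {j : ℕ} (hj : j ≤ 2) {n : Eis} (hn : n = 1 ∨ n = 2 ∨ n = 4) : ∃ X₀ : ℕ, ∀ X : ℕ, X₀ ≤ X →
    {D : Eis | ClQ j n D ∧ D.norm ≤ X}.Finite ∧ 11694 * Rj j * X ≤ 1000000 * {D : Eis | ClQ j n D ∧ D.norm ≤ X}.ncard := by
  obtain ⟨A, hA, hA'⟩ := adm_res hj hn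
  obtain ⟨B, hB, hB'⟩ := eight_res
  obtain ⟨F, hF, hF'⟩ := crt2 (m := 9) (n := 8) (by norm_num) A B
  have hdvd : ((9 * 8 : ℕ) : Eis) ∣ 6 ^ 3 := by
    refine ⟨3, ?_⟩
    push_cast
    norm_num
  obtain ⟨X₀, hX₀⟩ := count_sf (9 * 8) (by norm_num) ⟨3, hdvd⟩ F
  refine ⟨X₀, fun X hX => ?_⟩
  have hfin : {D : Eis | ClQ j n D ∧ D.norm ≤ X}.Finite :=
    (norm_fin X).subset fun D hD => hD.2
  refine ⟨hfin, ?_⟩
  have hsub : {D : Eis | (res (9 * 8) D ∈ F ∧ D ≠ 0 ∧ ∀ p : Eis, Prime p → IsCoprime p 6 → ¬ p ^ 2 ∣ D) ∧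
      D.norm ≤ X} ⊆ {D : Eis | ClQ j n D ∧ D.norm ≤ X} := by
    rintro D ⟨⟨h1, h2, h3⟩, h4⟩
    obtain ⟨h5, h6⟩ := hF' D h1
    have h7 := hA' D h5
    have h8 := hB' D h6
    refine ⟨⟨sqfree_of h2 h3 (c3_la h7.1) ?_, h8, h7⟩, h4⟩
    intro h9
    exact h8.1 ((show (2 : Eis) ∣ 4 from ⟨2, by norm_num⟩).trans h9)
  have h1 := Set.ncard_le_ncard hsub hfin
  have h2 := hX₀ X hX
  have h3 : 18 * Rj j ≤ F.card := by
    calc 18 * Rj j = (3 * Rj j) * 6 := by ring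
      _ ≤ A.card * B.card := Nat.mul_le_mul hA hB
      _ ≤ F.card := hF
  set M := {D : Eis | ClQ j n D ∧ D.norm ≤ X}.ncard
  set m := {D : Eis | (res (9 * 8) D ∈ F ∧ D ≠ 0 ∧ ∀ p : Eis, Prime p → IsCoprime p 6 → ¬ p ^ 2 ∣ D) ∧
      D.norm ≤ X}.ncard
  have h4 : 3368 * (18 * Rj j) * X ≤ 1000 * (9 * 8) ^ 2 * M := by
    calc 3368 * (18 * Rj j) * X ≤ 3368 * F.card * X :=
          Nat.mul_le_mul_right _ (Nat.mul_le_mul_left _ h3)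
      _ ≤ 1000 * (9 * 8) ^ 2 * m := h2
      _ ≤ _ := Nat.mul_le_mul_left _ h1
  have h5 : 3368 * (18 * Rj j) * X = 60624 * (Rj j * X) := by ring
  have h6 : 1000 * (9 * 8) ^ 2 * M = 5184000 * M := by norm_num
  rw [h5, h6] at h4
  have h7 : 11694 * Rj j * X = 11694 * (Rj j * X) := by ring
  rw [h7]
  omega

end JP
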