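import Pool.Agent.JP.Base
import Pool.Agent.JG.P
import Pool.Agent.JC.C4

/-!
# [JP-Y1] the class `ClG`; uniqueness of the decomposition

`clG_gen`: PROOF. Let `D = la ^ (2 j) * (n ^ 2 * D₁)`. `2` and `la` are primes (`JC.two_prime`, `JC.la_prime'`), not associated (`IsCoprime la 2`: `la * a + 2 b = 1`), `eis_isDomain`, `eis_pid`.
`free`: `p ^ 6 ∣ D`. If `p ∣ la` (`p` associated to `la`): `la ^ 6 ∣ la ^ (2 j) * (n² D₁)`, `2 j ≤ 4`, so `la ^ 2 ∣ n ^ 2 * D₁`, a contradiction to `hA.1`. If `p ∣ 2`: `2 ^ 6 ∣ la ^ (2 j) * (n² D₁)`, so `2 ^ 6 ∣ n ^ 2 * D₁` (coprime to `la`), `n ^ 2 ∣ 2 ^ 4`, so `2 ^ 2 ∣ D₁`, a contradiction to squarefree.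
Otherwise `p` is prime to `la` and to `n`, so `p ^ 6 ∣ D₁`, a contradiction.
`nsq`: `x ^ 2 = D`: `(la ^ j * n) ^ 2 ∣ x ^ 2`, so `la ^ j * n ∣ x` (`UniqueFactorizationMonoid.pow_dvd_pow_iff_dvd` as in `JC.not_sq`, file `Pool/Agent/JC/S.lean`), `D₁ = y ^ 2`, a contradiction to `h8 y`.
`odd`: `p ^ 2 ∣ D`, `p ∤ 6`, so `p ^ 2 ∣ D₁` (prime to `la` and `2`), a contradiction to squarefree.
`two`: `c` odd. `n = 1`: if `D = c`: `8 ∣ la ^ (2 j) * D₁ - x ^ 2`; `la` is invertible modulo `8` (`la ^ 6 = -27`; `IsCoprime la 8`: `la * l = 1 + 8 m`), so `8 ∣ D₁ - (l ^ j * x) ^ 2`, a contradiction to `h8`. If `D = 2 ^ 2 * c`: `2 ^ 2 ∣ D₁`, a contradiction. `n = 2`: `D = c` is impossible (`2 ∣ D`); `D = 2 ^ 2 * c`: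
`c = la ^ (2 j) * D₁`, as before. `n = 4`: `16 ∣ D`, so `D = c` and `D = 2 ^ 2 * c` are impossible (`2 ∣ c`).
`la0`: `¬ la ∣ D` gives `j = 0`, `D = n ^ 2 * D₁`, `hA.2.1`. `la24`: `D = la ^ 2 * c = la ^ (2 * 1) * c`, `¬ la ^ 2 ∣ c`: `JG.m_unique` gives `j = 1`, `n ^ 2 * D₁ = c`, `hA.2.2.1`; the same for `la ^ 4 * c` with `j = 2`. `la3`: `D = la ^ 3 * c = la ^ (2 * 1) * (la * c)`, `¬ la ^ 2 ∣ la * c`: `j = 1`, `n ^ 2 * D₁ = la * c`, `hA.2.2.2`.

`par_unique`: PROOF. `JG.m_unique` gives `j = j'`, `n ^ 2 * D = n' ^ 2 * D'`. If `n = n'` cancel. Otherwise, e.g. `n = 1`, `n' = 2`: `D = 2 * 2 * D'`, a contradiction to squarefree (`2` is not a unit); `n = 1`, `n' = 4`: `D = 16 D'`; `n = 2`, `n' = 4`: `D = 4 D'`; and symmetric.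
-/

set_option autoImplicit false

namespace JP

open CM27 CU JZ JC JXC
open JG (ClG)

theorem y1a_six : (la : Eis) ^ 6 = -27 := by decide

theorem y1a_ne : (la : Eis) ≠ 0 := by decide

theorem y1a_not_sq {D₁ : Eis} (hs : Squarefree D₁) {p : Eis} (hp : Prime p) : ¬ p ^ 2 ∣ D₁ := by
  intro h
  rw [sq] at h
  exact hp.not_isUnit (hs p h)

theorem y1a_la_two {p : Eis} (hp : Prime p) (h1 : p ∣ la) (h2 : p ∣ 2) : False := by
  have hdom := eis_isDomain
  have h3 : (2 : Eis) ∣ p := (hp.associated_of_dvd two_prime h2).symm.dvd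
  have h4 : (2 : Eis) ∣ la := h3.trans h1
  have h5 : (2 : Eis) ∣ la ^ 6 := h4.trans (dvd_pow_self _ (by norm_num))
  rw [y1a_six] at h5
  have h6 : (2 : Eis) ∣ 1 := by
    have e : (1 : Eis) = 2 * (-13) - (-27) := by norm_num
    rw [e]
    exact dvd_sub (dvd_mul_right _ _) h5
  exact two_prime.not_isUnit (isUnit_of_dvd_one h6)

theorem y1a_inv : ∃ l m : Eis, la * l = 1 + 8 * m := by
  refine ⟨5 * la ^ 5, -17, ?_⟩
  have e : la * (5 * la ^ 5) = 5 * la ^ 6 := by ring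
  rw [e, y1a_six]
  norm_num

theorem y1a_pow8 {z m : Eis} (h : z = 1 + 8 * m) (k : ℕ) : (8 : Eis) ∣ z ^ k - 1 := by
  induction k with
  | zero => simp
  | succ k ih =>
    have e : z ^ (k + 1) - 1 = (z ^ k - 1) * z + (z - 1) := by ring
    rw [e]
    refine dvd_add (ih.mul_right _) ?_
    rw [h]
    exact ⟨m, by ring⟩

theorem y1a_eight {j : ℕ} {D₁ : Eis} (h8 : ∀ x : Eis, ¬ (8 : Eis) ∣ D₁ - x ^ 2) (x : Eis) :
    ¬ (8 : Eis) ∣ la ^ (2 * j) * D₁ - x ^ 2 := by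
  intro h
  obtain ⟨l, m, hl⟩ := y1a_inv
  apply h8 (l ^ j * x)
  have e : D₁ - (l ^ j * x) ^ 2 = l ^ (2 * j) * (la ^ (2 * j) * D₁ - x ^ 2) -
      ((la * l) ^ (2 * j) - 1) * D₁ := by
    rw [mul_pow la l, mul_pow (l ^ j) x, ← pow_mul, mul_comm j 2]
    ring
  rw [e]
  exact dvd_sub (h.mul_left _) ((y1a_pow8 hl _).mul_right _)

theorem clG_gen {j : ℕ} {n D₁ : Eis} (hj : j ≤ 2) (hn : n = 1 ∨ n = 2 ∨ n = 4) (hs : Squarefree D₁)
    (h8 : ∀ x : Eis, ¬ (8 : Eis) ∣ D₁ - x ^ 2) (hA : Adm j (n ^ 2 * D₁)) : ClG (la ^ (2 * j) * (n ^ 2 * D₁)) := by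
  have hdom := eis_isDomain
  have hpid := eis_pid
  have hla := la_prime'
  have h2p := two_prime
  have hsq : ∀ p : Eis, Prime p → ¬ p ^ 2 ∣ D₁ := fun p hp => y1a_not_sq hs hp
  obtain ⟨e, he, hne⟩ : ∃ e : ℕ, e ≤ 2 ∧ n ^ 2 = (2 : Eis) ^ (2 * e) := by
    rcases hn with rfl | rfl | rfl
    · exact ⟨0, by norm_num, by norm_num⟩
    · exact ⟨1, by norm_num, by norm_num⟩
    · exact ⟨2, by norm_num, by norm_num⟩
  obtain ⟨hA1, hA0, hA24, hA3⟩ := hA
  have hgen : ∀ p : Eis, Prime p → ¬ p ∣ la → ¬ p ∣ 2 → ∀ k : ℕ, p ^ k ∣ la ^ (2 * j) * (n ^ 2 * D₁) →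
      p ^ k ∣ D₁ := by
    intro p hp h1 h2 k h3
    have h4 := hp.pow_dvd_of_dvd_mul_left k (fun h => h1 (hp.dvd_of_dvd_pow h)) h3
    rw [hne] at h4
    exact hp.pow_dvd_of_dvd_mul_left k (fun h => h2 (hp.dvd_of_dvd_pow h)) h4
  have h2la : ¬ (2 : Eis) ∣ la ^ (2 * j) := fun h =>
    y1a_la_two h2p (h2p.dvd_of_dvd_pow h) dvd_rfl
  refine ⟨?_, ?_, ?_, ?_, ?_, ?_, ?_⟩
  · -- free
    intro p hp h6
    by_cases h1 : p ∣ la
    · have h3 : la ∣ p := (hp.associated_of_dvd hla h1).symm.dvd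
      have h4 : la ^ 6 ∣ la ^ (2 * j) * (n ^ 2 * D₁) := (pow_dvd_pow_of_dvd h3 6).trans h6
      have h5 : la ^ 6 = la ^ (2 * j) * la ^ (6 - 2 * j) := by
        rw [← pow_add]
        congr 1
        omega
      rw [h5] at h4
      have h7 := (mul_dvd_mul_iff_left (pow_ne_zero (2 * j) y1a_ne)).1 h4
      exact hA1 ((pow_dvd_pow la (by omega)).trans h7)
    · by_cases h2 : p ∣ 2
      · have h3 : (2 : Eis) ∣ p := (hp.associated_of_dvd h2p h2).symm.dvd
        have h4 : (2 : Eis) ^ 6 ∣ la ^ (2 * j) * (n ^ 2 * D₁) := (pow_dvd_pow_of_dvd h3 6).trans h6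
        have h5 := h2p.pow_dvd_of_dvd_mul_left 6 h2la h4
        have h7 : (2 : Eis) ^ 6 = 2 ^ (2 * e) * 2 ^ (6 - 2 * e) := by
          rw [← pow_add]
          congr 1
          omega
        rw [hne, h7] at h5
        have h8' := (mul_dvd_mul_iff_left (pow_ne_zero (2 * e) h2p.ne_zero)).1 h5
        exact hsq 2 h2p ((pow_dvd_pow 2 (by omega)).trans h8')
      · exact hsq p hp ((pow_dvd_pow p (by norm_num)).trans (hgen p hp h1 h2 6 h6))
  · -- not a square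
    rintro ⟨x, hx⟩
    have h1 : (la ^ j * 2 ^ e) ^ 2 ∣ x ^ 2 := by
      rw [hx, hne]
      exact ⟨D₁, by rw [mul_pow, ← pow_mul, ← pow_mul, mul_comm j 2, mul_comm e 2, mul_assoc]⟩
    have h2 : la ^ j * 2 ^ e ∣ x := (UniqueFactorizationMonoid.pow_dvd_pow_iff_dvd two_ne_zero).1 h1
    obtain ⟨y, rfl⟩ := h2
    have h3 : (la ^ j * 2 ^ e) ^ 2 * y ^ 2 = (la ^ j * 2 ^ e) ^ 2 * D₁ := by
      rw [← mul_pow, hx, hne, mul_pow, ← pow_mul, ← pow_mul, mul_comm j 2, mul_comm e 2, mul_assoc]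
    have h4 : y ^ 2 = D₁ := mul_left_cancel₀ (pow_ne_zero 2 (mul_ne_zero (pow_ne_zero _ y1a_ne)
      (pow_ne_zero _ h2p.ne_zero))) h3
    exact h8 y (by rw [h4, sub_self]; exact dvd_zero _)
  · -- odd primes
    intro p c hp h6 _ hD x _
    have h6' : (6 : Eis) = 2 * (-om ^ 2 * la ^ 2) := by decide
    have h1 : ¬ p ∣ la := fun h => h6 (by
      rw [h6']
      exact ((h.trans (dvd_pow_self _ two_ne_zero)).mul_left _).mul_left _)
    have h2 : ¬ p ∣ 2 := fun h => h6 (by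
      rw [h6']
      exact h.mul_right _)
    apply hsq p hp
    apply hgen p hp h1 h2 2
    rcases hD with hD | hD
    · rw [hD]
      exact dvd_mul_right _ _
    · rw [hD]
      exact (pow_dvd_pow p (by norm_num)).mul_right _
  · -- two
    intro c hc hD x
    have h4 : (2 : Eis) ^ 2 = 4 := by norm_num
    have h16 : (4 : Eis) ^ 2 = 16 := by norm_num
    rcases hn with hn' | hn' | hn'
    · rw [hn', one_pow, one_mul] at hD
      rcases hD with hD | hD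
      · rw [← hD]
        exact y1a_eight h8 x
      · exfalso
        apply hsq 2 h2p
        exact h2p.pow_dvd_of_dvd_mul_left 2 h2la ⟨c, hD⟩
    · rw [hn'] at hD
      rcases hD with hD | hD
      · exfalso
        apply hc
        rw [← hD]
        exact ((dvd_pow_self _ two_ne_zero).mul_right _).mul_left _
      · have h1 : (2 : Eis) ^ 2 * (la ^ (2 * j) * D₁) = 2 ^ 2 * c := by
          rw [← hD]
          ring
        have h3 := mul_left_cancel₀ (pow_ne_zero 2 h2p.ne_zero) h1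
        rw [← h3]
        exact y1a_eight h8 x
    · rw [hn'] at hD
      rcases hD with hD | hD
      · exfalso
        apply hc
        rw [← hD]
        have h2d : (2 : Eis) ∣ 4 := ⟨2, by norm_num⟩
        exact ((h2d.trans (dvd_pow_self _ two_ne_zero)).mul_right _).mul_left _
      · exfalso
        have h1 : (2 : Eis) ^ 2 * (2 * (2 * (la ^ (2 * j) * D₁))) = 2 ^ 2 * c := by
          rw [← hD]
          ring
        have h3 := mul_left_cancel₀ (pow_ne_zero 2 h2p.ne_zero) h1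
        exact hc ⟨_, h3.symm⟩
  · -- la0
    intro h0 η hη
    have hj0 : j = 0 := by
      by_contra hj0
      apply h0
      exact (dvd_pow_self _ (by omega)).mul_right _
    subst hj0
    rw [mul_zero, pow_zero, one_mul] at h0 ⊢
    exact hA0 rfl h0 η hη
  · -- la24
    intro c hc hD
    have hc2 : ¬ la ^ 2 ∣ c := fun h => hc ((dvd_pow_self _ two_ne_zero).trans h)
    rcases hD with hD | hD
    · obtain ⟨h1, h2⟩ := JG.m_unique (m := j) (m' := 1) (by rw [hD]) hA1 hc2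
      rw [← h2] at hc ⊢
      exact hA24 (Or.inl h1) hc
    · obtain ⟨h1, h2⟩ := JG.m_unique (m := j) (m' := 2) (by rw [hD]) hA1 hc2
      rw [← h2] at hc ⊢
      exact hA24 (Or.inr h1) hc
  · -- la3
    intro c hc hD η hη
    have hc2 : ¬ la ^ 2 ∣ la * c := fun h => by
      rw [sq] at h
      exact hc ((mul_dvd_mul_iff_left y1a_ne).1 h)
    obtain ⟨h1, h2⟩ := JG.m_unique (m := j) (m' := 1) (D'' := la * c) (by rw [hD]; ring) hA1 hc2
    exact hA3 h1 c h2 η hη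

private theorem y1b_four {X Y : Eis} (hs : Squarefree X) (h : X = 4 * Y) : False := by
  have h1 : (2 : Eis) * 2 ∣ X := ⟨Y, by rw [h]; ring⟩
  exact JC.two_prime.not_isUnit (hs 2 h1)

theorem par_unique {j j' : ℕ} {n n' D D' : Eis} (hn : n = 1 ∨ n = 2 ∨ n = 4) (hn' : n' = 1 ∨ n' = 2 ∨ n' = 4)
    (hs : Squarefree D) (hs' : Squarefree D') (h2 : ¬ la ^ 2 ∣ n ^ 2 * D) (h2' : ¬ la ^ 2 ∣ n' ^ 2 * D')
    (h : la ^ (2 * j) * (n ^ 2 * D) = la ^ (2 * j') * (n' ^ 2 * D')) : j = j' ∧ n = n' ∧ D = D' := by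
  have hdom : IsDomain Eis := eis_isDomain
  obtain ⟨hj, he⟩ := JG.m_unique h h2 h2'
  have h20 : (2 : Eis) ≠ 0 := JC.two_prime.ne_zero
  have h40 : (4 : Eis) ≠ 0 := by
    have : (4 : Eis) = 2 * 2 := by norm_num
    rw [this]
    exact mul_ne_zero h20 h20
  refine ⟨hj, ?_⟩
  rcases hn with rfl | rfl | rfl <;> rcases hn' with rfl | rfl | rfl
  · exact ⟨rfl, by linear_combination he⟩
  · exact (y1b_four hs (by linear_combination he : D = 4 * D')).elim
  · exact (y1b_four hs (by linear_combination he : D = 4 * (4 * D'))).elim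
  · exact (y1b_four hs' (by linear_combination -he : D' = 4 * D)).elim
  · refine ⟨rfl, mul_left_cancel₀ h40 ?_⟩
    linear_combination he
  · refine (y1b_four hs (mul_left_cancel₀ h40 ?_ : D = 4 * D')).elim
    linear_combination he
  · exact (y1b_four hs' (by linear_combination -he : D' = 4 * (4 * D))).elim
  · refine (y1b_four hs' (mul_left_cancel₀ h40 ?_ : D' = 4 * D)).elim
    linear_combination -he
  · refine ⟨rfl, mul_left_cancel₀ h40 (mul_left_cancel₀ h40 ?_)⟩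
    linear_combination he

end JP
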