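import Pool.Agent.JP.A12
import Pool.Agent.JP.B1
import Pool.Agent.JP.C3
import Pool.Agent.JP.Y1
import Pool.Agent.JZR.Count

/-!
# [JP-Y2] assembly: the number of the `D` with `ClG D` and `UCG D`
-/

set_option autoImplicit false

namespace JP

open CM27 CU JZ JC JXC
open JG (ClG UCG)
open scoped Classical

/-- the good `D₁` of the first type -/
def GP (j : ℕ) (n e : Eis) (X : ℕ) : Set Eis := {D | ClP j n D ∧ ¬ HF (4 * D) e j (n ^ 2 * D) ∧ D.norm ≤ X}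

/-- the good `D₁` of the second type -/
def GQ (j : ℕ) (n e : Eis) (X : ℕ) : Set Eis := {D | ClQ j n D ∧ ¬ HF D e j (n ^ 2 * D) ∧ D.norm ≤ X}

theorem goodP {j : ℕ} (hj : j ≤ 2) {n e : Eis} (hn : n = 1 ∨ n = 2 ∨ n = 4) (he : (9 : Eis) ∣ e * n - 1) :
    ∃ X₀ : ℕ, ∀ X : ℕ, X₀ ≤ X → 45021 * (Rj j * X) ≤ 1000000 * (GP j n e X).ncard := by
  obtain ⟨X₁, h₁⟩ := classP hj hn
  obtain ⟨X₂, h₂⟩ := countP (n := n) hj he
  refine ⟨X₁ + X₂, fun X hX => ?_⟩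
  obtain ⟨f1, n1⟩ := h₁ X (by omega)
  obtain ⟨f2, n2⟩ := h₂ X (by omega)
  have hf : (GP j n e X).Finite := (norm_fin X).subset fun x hx => hx.2.2
  have hsub : {D : Eis | ClP j n D ∧ D.norm ≤ X} ⊆ GP j n e X ∪ SBP j n e X := by
    rintro D ⟨h1, h2⟩
    by_cases h : HF (4 * D) e j (n ^ 2 * D)
    · exact Or.inr ⟨h1, h, h2⟩
    · exact Or.inl ⟨h1, h, h2⟩
  have h3 := (Set.ncard_le_ncard hsub (hf.union f2)).trans (Set.ncard_union_le _ _)
  generalize {D : Eis | ClP j n D ∧ D.norm ≤ X}.ncard = a at *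
  generalize (GP j n e X).ncard = b at *
  generalize (SBP j n e X).ncard = c at *
  have e1 : 93555 * Rj j * X = 93555 * (Rj j * X) := by ring
  have e2 : 48534 * Rj j * X = 48534 * (Rj j * X) := by ring
  rw [e1] at n1
  rw [e2] at n2
  generalize Rj j * X = y at *
  omega

theorem goodQ {j : ℕ} (hj : j ≤ 2) {n e : Eis} (hn : n = 1 ∨ n = 2 ∨ n = 4) (he : (9 : Eis) ∣ 2 * e * n - 1)
    (h2 : (2 : Eis) ∣ e) :
    ∃ X₀ : ℕ, ∀ X : ℕ, X₀ ≤ X → 5627 * (Rj j * X) ≤ 1000000 * (GQ j n e X).ncard := by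
  obtain ⟨X₁, h₁⟩ := classQ hj hn
  obtain ⟨X₂, h₂⟩ := countQ (n := n) hj he h2
  refine ⟨X₁ + X₂, fun X hX => ?_⟩
  obtain ⟨f1, n1⟩ := h₁ X (by omega)
  obtain ⟨f2, n2⟩ := h₂ X (by omega)
  have hf : (GQ j n e X).Finite := (norm_fin X).subset fun x hx => hx.2.2
  have hsub : {D : Eis | ClQ j n D ∧ D.norm ≤ X} ⊆ GQ j n e X ∪ SBQ j n e X := by
    rintro D ⟨h1, h2⟩
    by_cases h : HF D e j (n ^ 2 * D)
    · exact Or.inr ⟨h1, h, h2⟩
    · exact Or.inl ⟨h1, h, h2⟩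
  have h3 := (Set.ncard_le_ncard hsub (hf.union f2)).trans (Set.ncard_union_le _ _)
  generalize {D : Eis | ClQ j n D ∧ D.norm ≤ X}.ncard = a at *
  generalize (GQ j n e X).ncard = b at *
  generalize (SBQ j n e X).ncard = c at *
  have e1 : 11694 * Rj j * X = 11694 * (Rj j * X) := by ring
  have e2 : 6067 * Rj j * X = 6067 * (Rj j * X) := by ring
  rw [e1] at n1
  rw [e2] at n2
  generalize Rj j * X = y at *
  omega

/-- the image -/
def Ph (j i : ℕ) (D : Eis) : Eis := la ^ (2 * j) * ((2 ^ i) ^ 2 * D)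

theorem Ph_norm (j i : ℕ) (D : Eis) : (Ph j i D).norm = 9 ^ j * 16 ^ i * D.norm := by
  have h3 : (la : Eis).norm = 3 := by decide
  have h4 : (2 : Eis).norm = 4 := by decide
  have e2 : ((4 : ℤ) ^ i) ^ 2 = 16 ^ i := by rw [← pow_mul, mul_comm, pow_mul]; norm_num
  have e3 : (3 : ℤ) ^ (2 * j) = 9 ^ j := by rw [pow_mul]; norm_num
  rw [Ph, map_mul, map_mul, map_pow, map_pow, map_pow, h3, h4, e2, e3]
  ring

theorem Ph_inj (j i : ℕ) : Function.Injective (Ph j i) := by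
  have hdom := eis_isDomain
  intro x y h
  unfold Ph at h
  have h1 := mul_left_cancel₀ (pow_ne_zero _ (show (la : Eis) ≠ 0 by decide)) h
  exact mul_left_cancel₀ (pow_ne_zero _ (pow_ne_zero _ (show (2 : Eis) ≠ 0 by decide))) h1

theorem n_of {i : ℕ} (hi : i ≤ 2) : (2 : Eis) ^ i = 1 ∨ (2 : Eis) ^ i = 2 ∨ (2 : Eis) ^ i = 4 := by
  interval_cases i
  · exact Or.inl (by norm_num)
  · exact Or.inr (Or.inl (by norm_num))
  · exact Or.inr (Or.inr (by norm_num))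

/-- the multipliers -/
def eP (i : ℕ) : Eis := if i = 0 then 1 else if i = 1 then 5 else 7

/-- the multipliers -/
def eQ (i : ℕ) : Eis := if i = 0 then 14 else if i = 1 then 16 else 8

theorem eP_spec {i : ℕ} (hi : i ≤ 2) : (9 : Eis) ∣ eP i * 2 ^ i - 1 := by
  interval_cases i
  · exact ⟨0, by simp [eP]⟩
  · exact ⟨1, by simp [eP]; norm_num⟩
  · exact ⟨3, by simp [eP]; norm_num⟩

theorem eQ_spec {i : ℕ} (hi : i ≤ 2) : (9 : Eis) ∣ 2 * eQ i * 2 ^ i - 1 := by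
  interval_cases i
  · exact ⟨3, by simp [eQ]; norm_num⟩
  · exact ⟨7, by simp [eQ]; norm_num⟩
  · exact ⟨7, by simp [eQ]; norm_num⟩

theorem eQ_two {i : ℕ} (hi : i ≤ 2) : (2 : Eis) ∣ eQ i := by
  interval_cases i
  · exact ⟨7, by simp [eQ]; norm_num⟩
  · exact ⟨8, by simp [eQ]; norm_num⟩
  · exact ⟨4, by simp [eQ]; norm_num⟩

theorem not_la_n (i : ℕ) : ¬ la ∣ (2 : Eis) ^ i := by
  intro h
  have h1 := JC.la_prime.dvd_of_dvd_pow h
  have h2 : la ∣ (3 : Eis) - 2 := dvd_sub (by rw [JC.la_three]; exact (dvd_pow_self la two_ne_zero).mul_left _) h1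
  have h3 : (3 : Eis) - 2 = 1 := by norm_num
  rw [h3] at h2
  exact JC.la_prime.not_isUnit (isUnit_of_dvd_one h2)

/-- the pieces: `b` the type, `j`, `i` -/
def Pc (X : ℕ) (t : Bool × Fin 3 × Fin 3) : Set Eis :=
  Ph t.2.1 t.2.2 '' (if t.1 then GP t.2.1 (2 ^ (t.2.2 : ℕ)) (eP t.2.2) (X / (9 ^ (t.2.1 : ℕ) * 16 ^ (t.2.2 : ℕ)))
    else GQ t.2.1 (2 ^ (t.2.2 : ℕ)) (eQ t.2.2) (X / (9 ^ (t.2.1 : ℕ) * 16 ^ (t.2.2 : ℕ))))

theorem Ph_norm_le {j i X : ℕ} {D : Eis} (h : D.norm ≤ (X / (9 ^ j * 16 ^ i) : ℕ)) : (Ph j i D).norm ≤ X := by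
  rw [Ph_norm]
  have h1 : ((9 ^ j * 16 ^ i : ℕ) : ℤ) * D.norm ≤ ((9 ^ j * 16 ^ i : ℕ) : ℤ) * ((X / (9 ^ j * 16 ^ i) : ℕ) : ℤ) :=
    mul_le_mul_of_nonneg_left h (by positivity)
  have h2 : (9 ^ j * 16 ^ i) * (X / (9 ^ j * 16 ^ i)) ≤ X := Nat.mul_div_le X _
  have h3 : (((9 ^ j * 16 ^ i) * (X / (9 ^ j * 16 ^ i)) : ℕ) : ℤ) ≤ X := by exact_mod_cast h2
  push_cast at h1 h3 ⊢
  linarith

theorem clP_eight {j : ℕ} {n D : Eis} (h : ClP j n D) : ∀ x : Eis, ¬ (8 : Eis) ∣ D - x ^ 2 := by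
  intro x hx
  have h4 : (4 : Eis) ∣ 8 := ⟨2, by norm_num⟩
  exact h.2.1 x (h4.trans hx)

/-- the elements of the pieces -/
theorem mem_Pc {X : ℕ} {t : Bool × Fin 3 × Fin 3} {D : Eis} (h : D ∈ Pc X t) :
    ∃ D₁ : Eis, D = la ^ (2 * (t.2.1 : ℕ)) * ((2 ^ (t.2.2 : ℕ)) ^ 2 * D₁) ∧ Squarefree D₁ ∧ Adm t.2.1 ((2 ^ (t.2.2 : ℕ)) ^ 2 * D₁) ∧
      (∀ x : Eis, ¬ (8 : Eis) ∣ D₁ - x ^ 2) ∧ ((∃ x : Eis, (4 : Eis) ∣ D₁ - x ^ 2) ↔ t.1 = false) ∧ D.norm ≤ X ∧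
      (ClG D → UCG D) := by
  obtain ⟨b, j, i⟩ := t
  obtain ⟨D₁, h1, rfl⟩ := h
  have hi : (i : ℕ) ≤ 2 := by omega
  dsimp only at h1 ⊢
  cases b with
  | true =>
    rw [if_pos rfl] at h1
    refine ⟨D₁, rfl, h1.1.1, h1.1.2.2, clP_eight h1.1, ?_, Ph_norm_le h1.2.2, fun hG => ?_⟩
    · constructor
      · rintro ⟨x, hx⟩
        exact absurd hx (h1.1.2.1 x)
      · intro hh
        exact absurd hh (by decide)
    · exact uc_of_P (not_la_n i) (eP_spec hi) hG h1.1 h1.2.1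
  | false =>
    rw [if_neg (by decide)] at h1
    refine ⟨D₁, rfl, h1.1.1, h1.1.2.2, h1.1.2.1.2.2, ?_, Ph_norm_le h1.2.2, fun hG => ?_⟩
    · exact ⟨fun _ => rfl, fun _ => h1.1.2.1.2.1⟩
    · exact uc_of_Q (not_la_n i) (eQ_spec hi) hG h1.1 h1.2.1

theorem Pc_sub (X : ℕ) (t : Bool × Fin 3 × Fin 3) :
    Pc X t ⊆ {D : Eis | JZR.SixthPowerFree D ∧ D.norm ≤ X ∧ (ClG D ∧ UCG D)} := by
  intro D hD
  obtain ⟨D₁, rfl, h1, h2, h3, -, h4, h5⟩ := mem_Pc hD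
  have hG : ClG (la ^ (2 * (t.2.1 : ℕ)) * ((2 ^ (t.2.2 : ℕ)) ^ 2 * D₁)) :=
    clG_gen (by omega) (n_of (by omega)) h1 h3 h2
  exact ⟨⟨JG.nz hG, hG.free⟩, h4, hG, h5 hG⟩

theorem Pc_disj (X : ℕ) {t t' : Bool × Fin 3 × Fin 3} (h : t ≠ t') : Disjoint (Pc X t) (Pc X t') := by
  rw [Set.disjoint_left]
  intro D h1 h2
  apply h
  obtain ⟨D₁, e1, a1, a2, -, a4, -, -⟩ := mem_Pc h1
  obtain ⟨D₂, e2, b1, b2, -, b4, -, -⟩ := mem_Pc h2
  obtain ⟨c1, c2, c3⟩ := par_unique (n_of (by omega)) (n_of (by omega)) a1 b1 a2.1 b2.1 (e1.symm.trans e2)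
  obtain ⟨b, j, i⟩ := t
  obtain ⟨b', j', i'⟩ := t'
  dsimp only at *
  subst c3
  have hj : j = j' := Fin.ext c1
  have hi : i = i' := by
    apply Fin.ext
    have hN := congrArg (fun x : Eis => x.norm) c2
    have h4 : (2 : Eis).norm = 4 := by decide
    simp only [map_pow, h4] at hN
    exact Nat.pow_right_injective (le_refl 4 |>.trans' (by norm_num)) (by exact_mod_cast hN)
  have hb : b = b' := by
    cases b <;> cases b' <;> simp_all
  rw [hj, hi, hb]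

theorem sum_le {ι : Type*} (s : Finset ι) (f : ι → Set Eis) (T : Set Eis) (hT : T.Finite) (hf : ∀ t ∈ s, f t ⊆ T)
    (hd : ∀ t ∈ s, ∀ t' ∈ s, t ≠ t' → Disjoint (f t) (f t')) : ∑ t ∈ s, (f t).ncard ≤ T.ncard := by
  have hfin : ∀ t ∈ s, (f t).Finite := fun t ht => hT.subset (hf t ht)
  have h1 : ∀ t ∈ s, (f t).ncard = (hT.toFinset.filter fun x => x ∈ f t).card := by
    intro t ht
    rw [← Set.ncard_coe_finset]
    congr 1
    ext x
    simp only [Finset.coe_filter, Set.Finite.mem_toFinset, Set.mem_ofPred_eq]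
    exact ⟨fun hx => ⟨hf t ht hx, hx⟩, fun hx => hx.2⟩
  rw [Finset.sum_congr rfl h1, ← Finset.card_biUnion]
  · rw [Set.ncard_eq_toFinset_card _ hT]
    apply Finset.card_le_card
    intro x hx
    rw [Finset.mem_biUnion] at hx
    obtain ⟨t, -, ht⟩ := hx
    exact (Finset.mem_filter.1 ht).1
  · intro t ht t' ht' hne
    show Disjoint (hT.toFinset.filter fun x => x ∈ f t) (hT.toFinset.filter fun x => x ∈ f t')
    rw [Finset.disjoint_left]
    intro x hx hx'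
    exact Set.disjoint_left.1 (hd t ht t' ht' hne) (Finset.mem_filter.1 hx).2 (Finset.mem_filter.1 hx').2

theorem Pc_card (X : ℕ) (b : Bool) (j i : Fin 3) : (Pc X (b, j, i)).ncard =
    (if b then GP j (2 ^ (i : ℕ)) (eP i) (X / (9 ^ (j : ℕ) * 16 ^ (i : ℕ)))
      else GQ j (2 ^ (i : ℕ)) (eQ i) (X / (9 ^ (j : ℕ) * 16 ^ (i : ℕ)))).ncard :=
  Set.ncard_image_of_injective _ (Ph_inj _ _)

/-- the number of the `D` with `ClG D` and `UCG D` -/
theorem count_good : ∃ X₀ : ℕ, ∀ X : ℕ, X₀ ≤ X →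
    50648 * (22 * (X + X / 16 + X / 256) + 13 * (X / 9 + X / 144 + X / 2304) + 15 * (X / 81 + X / 1296 + X / 20736)) ≤
      1000000 * JZR.count (fun D => ClG D ∧ UCG D) X := by
  choose X₁ h₁ using fun (p : Fin 3 × Fin 3) => goodP (j := p.1) (by omega) (n := 2 ^ (p.2 : ℕ)) (e := eP p.2)
    (n_of (by omega)) (eP_spec (by omega))
  choose X₂ h₂ using fun (p : Fin 3 × Fin 3) => goodQ (j := p.1) (by omega) (n := 2 ^ (p.2 : ℕ)) (e := eQ p.2)
    (n_of (by omega)) (eQ_spec (by omega)) (eQ_two (by omega))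
  refine ⟨20736 * (∑ p, (X₁ p + X₂ p) + 1), fun X hX => ?_⟩
  have hq : ∀ p : Fin 3 × Fin 3, X₁ p + X₂ p ≤ X / (9 ^ (p.1 : ℕ) * 16 ^ (p.2 : ℕ)) := by
    intro p
    have h0 : X₁ p + X₂ p ≤ ∑ p, (X₁ p + X₂ p) :=
      Finset.single_le_sum (f := fun p => X₁ p + X₂ p) (fun _ _ => Nat.zero_le _) (Finset.mem_univ p)
    have h3 : 9 ^ (p.1 : ℕ) * 16 ^ (p.2 : ℕ) ≤ 20736 := by
      obtain ⟨j, i⟩ := p
      fin_cases j <;> fin_cases i <;> norm_num
    have h4 : 0 < 9 ^ (p.1 : ℕ) * 16 ^ (p.2 : ℕ) := by positivity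
    rw [Nat.le_div_iff_mul_le h4]
    calc (X₁ p + X₂ p) * (9 ^ (p.1 : ℕ) * 16 ^ (p.2 : ℕ)) ≤ (∑ p, (X₁ p + X₂ p) + 1) * 20736 :=
          Nat.mul_le_mul (by omega) h3
      _ ≤ X := by linarith
  have hsum := sum_le Finset.univ (Pc X) _ (JZR.finite_le (fun D => ClG D ∧ UCG D) X) (fun t _ => Pc_sub X t)
    (fun t _ t' _ hne => Pc_disj X hne)
  have hP : ∀ j i : Fin 3, 45021 * (Rj j * (X / (9 ^ (j : ℕ) * 16 ^ (i : ℕ)))) ≤ 1000000 * (Pc X (true, j, i)).ncard := by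
    intro j i
    have h := h₁ (j, i) (X / (9 ^ (j : ℕ) * 16 ^ (i : ℕ))) (by have := hq (j, i); dsimp only at this ⊢; omega)
    rw [Pc_card, if_pos rfl]
    exact h
  have hQ : ∀ j i : Fin 3, 5627 * (Rj j * (X / (9 ^ (j : ℕ) * 16 ^ (i : ℕ)))) ≤ 1000000 * (Pc X (false, j, i)).ncard := by
    intro j i
    have h := h₂ (j, i) (X / (9 ^ (j : ℕ) * 16 ^ (i : ℕ))) (by have := hq (j, i); dsimp only at this ⊢; omega)
    rw [Pc_card, if_neg (by decide)]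
    exact h
  have hexp : ∑ t : Bool × Fin 3 × Fin 3, (Pc X t).ncard =
      ∑ j : Fin 3, ∑ i : Fin 3, ((Pc X (true, j, i)).ncard + (Pc X (false, j, i)).ncard) := by
    rw [Fintype.sum_prod_type, Fintype.sum_bool, Fintype.sum_prod_type, Fintype.sum_prod_type, ← Finset.sum_add_distrib]
    refine Finset.sum_congr rfl fun j _ => ?_
    rw [← Finset.sum_add_distrib]
  rw [hexp] at hsum
  simp only [Fin.sum_univ_three] at hsum
  have r0 : Rj ((0 : Fin 3) : ℕ) = 22 := rfl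
  have r1 : Rj ((1 : Fin 3) : ℕ) = 13 := rfl
  have r2 : Rj ((2 : Fin 3) : ℕ) = 15 := rfl
  have a00 := hP 0 0
  have a01 := hP 0 1
  have a02 := hP 0 2
  have a10 := hP 1 0
  have a11 := hP 1 1
  have a12 := hP 1 2
  have a20 := hP 2 0
  have a21 := hP 2 1
  have a22 := hP 2 2
  have b00 := hQ 0 0
  have b01 := hQ 0 1
  have b02 := hQ 0 2
  have b10 := hQ 1 0
  have b11 := hQ 1 1
  have b12 := hQ 1 2
  have b20 := hQ 2 0
  have b21 := hQ 2 1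
  have b22 := hQ 2 2
  rw [r0] at a00 a01 a02 b00 b01 b02
  rw [r1] at a10 a11 a12 b10 b11 b12
  rw [r2] at a20 a21 a22 b20 b21 b22
  have e0 : ((0 : Fin 3) : ℕ) = 0 := rfl
  have e1 : ((1 : Fin 3) : ℕ) = 1 := rfl
  have e2 : ((2 : Fin 3) : ℕ) = 2 := rfl
  rw [e0] at a00 a01 a02 a10 a20 b00 b01 b02 b10 b20
  rw [e1] at a01 a10 a11 a12 a21 b01 b10 b11 b12 b21
  rw [e2] at a02 a12 a20 a21 a22 b02 b12 b20 b21 b22
  norm_num at a00 a01 a02 a10 a11 a12 a20 a21 a22 b00 b01 b02 b10 b11 b12 b20 b21 b22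
  show _ ≤ 1000000 * {D : Eis | JZR.SixthPowerFree D ∧ D.norm ≤ X ∧ (ClG D ∧ UCG D)}.ncard
  generalize {D : Eis | JZR.SixthPowerFree D ∧ D.norm ≤ X ∧ (ClG D ∧ UCG D)}.ncard = N at *
  generalize (Pc X (true, 0, 0)).ncard = p00 at *
  generalize (Pc X (true, 0, 1)).ncard = p01 at *
  generalize (Pc X (true, 0, 2)).ncard = p02 at *
  generalize (Pc X (true, 1, 0)).ncard = p10 at *
  generalize (Pc X (true, 1, 1)).ncard = p11 at *
  generalize (Pc X (true, 1, 2)).ncard = p12 at *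
  generalize (Pc X (true, 2, 0)).ncard = p20 at *
  generalize (Pc X (true, 2, 1)).ncard = p21 at *
  generalize (Pc X (true, 2, 2)).ncard = p22 at *
  generalize (Pc X (false, 0, 0)).ncard = q00 at *
  generalize (Pc X (false, 0, 1)).ncard = q01 at *
  generalize (Pc X (false, 0, 2)).ncard = q02 at *
  generalize (Pc X (false, 1, 0)).ncard = q10 at *
  generalize (Pc X (false, 1, 1)).ncard = q11 at *
  generalize (Pc X (false, 1, 2)).ncard = q12 at *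
  generalize (Pc X (false, 2, 0)).ncard = q20 at *
  generalize (Pc X (false, 2, 1)).ncard = q21 at *
  generalize (Pc X (false, 2, 2)).ncard = q22 at *
  generalize X / 16 = x1 at *
  generalize X / 256 = x2 at *
  generalize X / 9 = x3 at *
  generalize X / 144 = x4 at *
  generalize X / 2304 = x5 at *
  generalize X / 81 = x6 at *
  generalize X / 1296 = x7 at *
  generalize X / 20736 = x8 at *
  linarith

/-- more than `35` per cent of all sixth-power-free `D` -/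
theorem main_count : ∃ X₀ : ℕ, ∀ X : ℕ, X₀ ≤ X →
    3515 * JZR.count (fun _ => True) X ≤ 10000 * JZR.count (fun D => ClG D ∧ UCG D) X := by
  obtain ⟨X1, h1⟩ := count_good
  obtain ⟨X4, h4⟩ := JC.count_all
  refine ⟨X1 + X4 + 100000, fun X hX => ?_⟩
  have n1 := h1 X (by omega)
  obtain ⟨f4, n4⟩ := h4 X (by omega)
  have a2 : JZR.count (fun _ => True) X ≤ {D : Eis | D ≠ 0 ∧ D.norm ≤ X}.ncard :=
    Set.ncard_le_ncard (fun D hD => ⟨hD.1.1, hD.2.1⟩) f4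
  have hX' : 100000 ≤ X := by omega
  have b1 : X ≤ 16 * (X / 16) + 15 := by omega
  have b2 : X ≤ 256 * (X / 256) + 255 := by omega
  have b3 : X ≤ 9 * (X / 9) + 8 := by omega
  have b4 : X ≤ 144 * (X / 144) + 143 := by omega
  have b5 : X ≤ 2304 * (X / 2304) + 2303 := by omega
  have b6 : X ≤ 81 * (X / 81) + 80 := by omega
  have b7 : X ≤ 1296 * (X / 1296) + 1295 := by omega
  have b8 : X ≤ 20736 * (X / 20736) + 20735 := by omega
  clear h1 h4 f4 hX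
  generalize X / 16 = x1 at *
  generalize X / 256 = x2 at *
  generalize X / 9 = x3 at *
  generalize X / 144 = x4 at *
  generalize X / 2304 = x5 at *
  generalize X / 81 = x6 at *
  generalize X / 1296 = x7 at *
  generalize X / 20736 = x8 at *
  generalize JZR.count (fun _ => True) X = c1 at *
  generalize JZR.count (fun D => ClG D ∧ UCG D) X = c2 at *
  generalize {D : Eis | D ≠ 0 ∧ D.norm ≤ X}.ncard = c3 at *
  linarith

end JP
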