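import Pool.Agent.J2C.Z
import Pool.Agent.JGC.A8
import Pool.Agent.JP.Y2

/-!
# [JP-Fin] the proportions of the sixth-power-free `D`
-/

set_option autoImplicit false

open Filter Topology
open scoped Classical

namespace JP

open CM27 JZ JC

/-- inclusion and exclusion -/
theorem count_add (P Q : Eis → Prop) (X : ℕ) :
    JZR.count P X + JZR.count Q X ≤ JZR.count (fun D => P D ∧ Q D) X + JZR.count (fun _ => True) X := by
  have f1 := JZR.finite_le P X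
  have f2 := JZR.finite_le Q X
  have b1 := Set.ncard_union_add_ncard_inter {D : Eis | JZR.SixthPowerFree D ∧ D.norm ≤ X ∧ P D}
    {D : Eis | JZR.SixthPowerFree D ∧ D.norm ≤ X ∧ Q D} f1 f2
  have b2 : ({D : Eis | JZR.SixthPowerFree D ∧ D.norm ≤ X ∧ P D} ∪
      {D : Eis | JZR.SixthPowerFree D ∧ D.norm ≤ X ∧ Q D}).ncard ≤ JZR.count (fun _ => True) X := by
    refine Set.ncard_le_ncard ?_ (JZR.finite_le _ X)
    rintro D (hD | hD)
    · exact ⟨hD.1, hD.2.1, trivial⟩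
    · exact ⟨hD.1, hD.2.1, trivial⟩
  have b3 : ({D : Eis | JZR.SixthPowerFree D ∧ D.norm ≤ X ∧ P D} ∩
      {D : Eis | JZR.SixthPowerFree D ∧ D.norm ≤ X ∧ Q D}).ncard ≤
      JZR.count (fun D => P D ∧ Q D) X := by
    refine Set.ncard_le_ncard ?_ (JZR.finite_le _ X)
    rintro D ⟨hD, hD'⟩
    exact ⟨hD.1, hD.2.1, hD.2.2, hD'.2.2⟩
  show {D : Eis | JZR.SixthPowerFree D ∧ D.norm ≤ X ∧ P D}.ncard +
    {D : Eis | JZR.SixthPowerFree D ∧ D.norm ≤ X ∧ Q D}.ncard ≤ _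
  omega

theorem count_le {P Q : Eis → Prop} (h : ∀ D, JZR.SixthPowerFree D → P D → Q D) (X : ℕ) :
    JZR.count P X ≤ JZR.count Q X :=
  Set.ncard_le_ncard (fun D hD => ⟨hD.1, hD.2.1, h D hD.1 hD.2.2⟩) (JZR.finite_le Q X)

/-- the proportions -/
theorem counts (P₂ P₃ R : Eis → Prop) (h₂ : ∀ D, JZR.SixthPowerFree D → JT.Cl2 D → P₂ D)
    (h₃ : ∀ D, JZR.SixthPowerFree D → JG.ClG D → P₃ D)
    (hR : ∀ D, JZR.SixthPowerFree D → JG.ClG D → JG.UCG D → R D) :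
    ∃ X₀ : ℕ, ∀ X : ℕ, X₀ ≤ X →
      95 * JZR.count (fun _ => True) X ≤ 100 * JZR.count P₂ X ∧
      76 * JZR.count (fun _ => True) X ≤ 100 * JZR.count P₃ X ∧
      71 * JZR.count (fun _ => True) X ≤ 100 * JZR.count (fun D => P₂ D ∧ P₃ D) X ∧
      351 * JZR.count (fun _ => True) X ≤ 1000 * JZR.count (fun D => P₃ D ∧ R D) X ∧
      301 * JZR.count (fun _ => True) X ≤ 1000 * JZR.count (fun D => P₂ D ∧ P₃ D ∧ R D) X := by
  obtain ⟨X₀, h0⟩ := main_count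
  obtain ⟨X₁, h1⟩ := J2C.count_cl2
  obtain ⟨X₂, h2⟩ := JGC.count_clG
  refine ⟨X₀ + X₁ + X₂, fun X hX => ?_⟩
  have a1 := h2 X (by omega)
  have a2 := h0 X (by omega)
  have a3 := h1 X (by omega)
  have c1 : JZR.count (fun D => JT.Cl2 D) X ≤ JZR.count P₂ X := count_le h₂ X
  have c2 : JZR.count (fun D => JG.ClG D) X ≤ JZR.count P₃ X := count_le h₃ X
  have c3 : JZR.count (fun D => JG.ClG D ∧ JG.UCG D) X ≤ JZR.count (fun D => P₃ D ∧ R D) X :=
    count_le (fun D hs h => ⟨h₃ D hs h.1, hR D hs h.1 h.2⟩) X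
  have c4 : JZR.count P₂ X + JZR.count P₃ X ≤ JZR.count (fun D => P₂ D ∧ P₃ D) X + JZR.count (fun _ => True) X :=
    count_add P₂ P₃ X
  have c5 : JZR.count P₂ X + JZR.count (fun D => P₃ D ∧ R D) X ≤
      JZR.count (fun D => P₂ D ∧ P₃ D ∧ R D) X + JZR.count (fun _ => True) X := count_add P₂ (fun D => P₃ D ∧ R D) X
  generalize JZR.count (fun _ => True) X = t at *
  generalize JZR.count (fun D => JT.Cl2 D) X = x1 at *
  generalize JZR.count (fun D => JG.ClG D) X = x2 at *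
  generalize JZR.count P₂ X = x3 at *
  generalize JZR.count P₃ X = x4 at *
  generalize JZR.count (fun D => JG.ClG D ∧ JG.UCG D) X = x5 at *
  generalize JZR.count (fun D => P₃ D ∧ R D) X = x6 at *
  generalize JZR.count (fun D => P₂ D ∧ P₃ D) X = x7 at *
  generalize JZR.count (fun D => P₂ D ∧ P₃ D ∧ R D) X = x8 at *
  refine ⟨?_, ?_, ?_, ?_, ?_⟩
  all_goals omega

end JP
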