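import Pool.Agent.JP.Base
import Pool.Agent.JG.TG
import Pool.Agent.JD.G1

/-!
# [JP-QR] the ring of integers of `F` as `ℤ[ω] + ℤ[ω] θ`: definitions

`Quad Δ s τ`: `s² = Δ`, `τ s = - s`. `θ - τ θ = s` and the integers of `F` are `ℤ[ω] + ℤ[ω] θ`.
-/

set_option autoImplicit false

open NumberField IsDedekindDomain
open scoped Classical

namespace JP

open CM27 CF JZ JC JXC
open CU (la om eE)
open JD (Quad jF jK OvLa InM)
open JXD (N1)
open JG (WG UCG ClG PG Qs NoBadP LamP LC)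

/-- the integers of `F` are `ℤ[ω] + ℤ[ω] θ`, `θ - τ θ = s`, `s² = Δ` -/
structure QR {F : Type} [Field F] [NumberField F] [Algebra KK F] (Δ : Eis) (s θ : F) (τ : F ≃ₐ[KK] F) : Prop where
  quad : Quad Δ s τ
  th : θ - τ θ = s
  int : IsIntegral ℤ θ
  gen : ∀ z : F, IsIntegral ℤ z → ∃ a b : Eis, z = jF F a + jF F b * θ
  ne : Δ ≠ 0

end JP
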