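import Pool.Agent.JP.Base

/-!
# [JP-R5a] the special point for `λ ∣ D`; the positions

`disc_hes`: `EE = (b c - a d)² - 4 (b² - a c) (c² - b d)` (`unfold EE; ring`).

`typeR`: PROOF. `λ ∣ EE = 4 D` and `λ ∣ c² - b d = hes a b c d 0 1`, so `λ ∣ b c - a d`. If `λ ∣ b² - a c` then `λ² ∣ EE = 4 D`, `λ² ∣ D` (`IsCoprime`, or `D = 7 * (4 D) - 27 D` and `λ² ∣ 27`), a contradiction. If `λ ∤ d`: modulo `λ`, `d² (b² - a c) = (b d)² - c (a d) d ≡ (c²)² - c (b c) d = c⁴ - c² (b d) ≡ 0`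
(explicitly `d² (b² - a c) = (b d - c²) (b d + c²) + c⁴ - a c d²` and `a d ≡ b c`, `a c d² ≡ b c² d ≡ c⁴`), so `λ ∣ b² - a c` (`la_prime`), a contradiction. So `λ ∣ d`, `λ ∣ c²`, `λ ∣ c`, and `λ ∤ b` because `λ ∤ b² - a c`.

`posU`: PROOF. If `¬ la ∣ a`: `JXC.exists_root3 a d ha` gives `t ∈ P9` with `la ∣ a t³ + d`; `fv a b c d t 1 = (a t³ + d) + 3 (b t² + c t)`, `la ∣ 3`.

`posR`: PROOF. `la ∣ EE = 4 D`, so modulo `λ` the discriminant `m² - 4 l n` of `l x² + m x y + n y²` (`l = b² - a c`, `m = b c - a d`, `n = c² - b d`) is `0`. `hes 1 0 = l`. If `¬ la ∣ l`: `∃ t ∈ P9, la ∣ l t² + m t + n`: finite check on the residues: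
`∀ l m n : QA 9`, but this is `81³` cases; use residues modulo `λ` instead: `res3` (`JC.res3 : ∃ t ∈ P9, la ∣ x - t`) for `l`, `m`, `n`, then the statement for `l m n t ∈ P9` (`decide`-able: `∀ l ∈ P9, ∀ m ∈ P9, ∀ n ∈ P9, (l ≠ 0 → m ^ 2 - 4 l n ≡ 0 → ∃ t ∈ P9, ..)`, with `la ∣ x` replaced by
`(x.re + x.im) % 3 = 0`, `CU.la_dvd_iff`). Or directly: `t = m l` (up to a representative in `P9`): `l t² + m t + n` with `t = m l`, `l² ≡ 1`: `l m² + m² l + n = 2 l m² + n ≡ - l m² + n`, and `m² ≡ 4 l n ≡ l n`, `- l² n + n ≡ 0`.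
-/

set_option autoImplicit false

namespace JP

open CM27 CU JZ JC JXC

private theorem r5a_la3 : (la : Eis) ∣ 3 := ⟨-om ^ 2 * la, by rw [JC.la_three]; ring⟩

private theorem r5a_sq {l : Eis} (h : ¬ la ∣ l) : la ∣ l ^ 2 - 1 := by
  obtain ⟨s, hs, h1⟩ := JC.res3 l
  have hs' : s = 0 ∨ s = 1 ∨ s = -1 := by
    simpa [P9] using hs
  rcases hs' with rfl | rfl | rfl
  · exact absurd (by simpa using h1) h
  · have e : l ^ 2 - 1 = (l - 1) * (l + 1) := by ring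
    rw [e]
    exact Dvd.dvd.mul_right h1 _
  · have e : l ^ 2 - 1 = (l - -1) * (l - 1) := by ring
    rw [e]
    exact Dvd.dvd.mul_right h1 _

theorem disc_hes (a b c d : Eis) : EE a b c d = (b * c - a * d) ^ 2 - 4 * (b ^ 2 - a * c) * (c ^ 2 - b * d) := by
  unfold EE
  ring

theorem typeR {a b c d D : Eis} (hD : la ∣ D) (hD2 : ¬ la ^ 2 ∣ D) (h : EE a b c d = 4 * D) (h0 : la ∣ hes a b c d 0 1) :
    la ∣ c ∧ la ∣ d ∧ ¬ la ∣ b := by
  have hn : la ∣ c ^ 2 - b * d := by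
    have e : hes a b c d 0 1 = c ^ 2 - b * d := by unfold hes; ring
    rwa [e] at h0
  have hdisc : (b * c - a * d) ^ 2 = 4 * D + 4 * (b ^ 2 - a * c) * (c ^ 2 - b * d) := by
    have := disc_hes a b c d
    rw [h] at this
    linear_combination -this
  have hm : la ∣ b * c - a * d := by
    apply JC.la_prime.dvd_of_dvd_pow (n := 2)
    rw [hdisc]
    exact dvd_add (Dvd.dvd.mul_left hD _) (Dvd.dvd.mul_left hn _)
  have hl : ¬ la ∣ b ^ 2 - a * c := by
    intro hl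
    apply hD2
    have h4 : la ^ 2 ∣ 4 * D := by
      have e : 4 * D = (b * c - a * d) ^ 2 - 4 * ((b ^ 2 - a * c) * (c ^ 2 - b * d)) := by
        linear_combination -hdisc
      rw [e]
      refine dvd_sub (pow_dvd_pow_of_dvd hm 2) (Dvd.dvd.mul_left ?_ _)
      rw [pow_two]
      exact mul_dvd_mul hl hn
    have h27 : (la : Eis) ^ 2 ∣ 27 := ⟨-om ^ 2 * 9, by
      have := JC.la_three
      linear_combination 9 * this⟩
    have e : D = 7 * (4 * D) - 27 * D := by ring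
    rw [e]
    exact dvd_sub (Dvd.dvd.mul_left h4 _) (Dvd.dvd.mul_right h27 _)
  have hd : la ∣ d := by
    have e : d ^ 2 * (b ^ 2 - a * c) = c * d * (b * c - a * d) - b * d * (c ^ 2 - b * d) := by ring
    have h1 : la ∣ d ^ 2 * (b ^ 2 - a * c) := by
      rw [e]
      exact dvd_sub (Dvd.dvd.mul_left hm _) (Dvd.dvd.mul_left hn _)
    rcases JC.la_prime.dvd_or_dvd h1 with h2 | h2
    · exact JC.la_prime.dvd_of_dvd_pow h2
    · exact absurd h2 hl
  have hc : la ∣ c := by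
    apply JC.la_prime.dvd_of_dvd_pow (n := 2)
    have e : c ^ 2 = (c ^ 2 - b * d) + b * d := by ring
    rw [e]
    exact dvd_add hn (Dvd.dvd.mul_left hd _)
  refine ⟨hc, hd, fun hb => hl ?_⟩
  exact dvd_sub (by rw [pow_two]; exact Dvd.dvd.mul_left hb _) (Dvd.dvd.mul_left hc _)

theorem posU {a b c d : Eis} (ha : ¬ la ∣ a) : ∃ t ∈ P9, la ∣ fv a b c d t 1 := by
  obtain ⟨t, ht, h1⟩ := exists_root3 a d ha
  refine ⟨t, ht, ?_⟩
  have e : fv a b c d t 1 = (a * t ^ 3 + d) + 3 * (b * t ^ 2 + c * t) := by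
    unfold fv val
    ring
  rw [e]
  exact dvd_add h1 (Dvd.dvd.mul_right r5a_la3 _)

theorem posR {a b c d D : Eis} (hD : la ∣ D) (h : EE a b c d = 4 * D) :
    la ∣ hes a b c d 1 0 ∨ ∃ t ∈ P9, la ∣ hes a b c d t 1 := by
  by_cases hl : la ∣ b ^ 2 - a * c
  · left
    have e : hes a b c d 1 0 = b ^ 2 - a * c := by unfold hes; ring
    rw [e]
    exact hl
  · right
    obtain ⟨t, ht, hδ⟩ := JC.res3 ((b * c - a * d) * (b ^ 2 - a * c))
    refine ⟨t, ht, ?_⟩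
    have hε := r5a_sq hl
    have hη : la ∣ (b * c - a * d) ^ 2 - 4 * (b ^ 2 - a * c) * (c ^ 2 - b * d) := by
      rw [← disc_hes, h]
      exact Dvd.dvd.mul_left hD _
    have h9 : (la : Eis) ∣ 9 := by
      have e : (9 : Eis) = 3 * 3 := by norm_num
      rw [e]
      exact Dvd.dvd.mul_left r5a_la3 _
    generalize hL : b ^ 2 - a * c = l at *
    generalize hM : b * c - a * d = m at *
    generalize hN : c ^ 2 - b * d = n at *
    have e : hes a b c d t 1 = (m * l - t) * (l * (m * l - t) - 2 * l ^ 2 * m - m) +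
        (l ^ 2 - 1) * (l * m ^ 2 + 8 * n) + (m ^ 2 - 4 * l * n) * (2 * l) + 9 * n := by
      unfold hes
      rw [hL, hM, hN]
      ring
    rw [e]
    exact dvd_add (dvd_add (dvd_add (Dvd.dvd.mul_right hδ _) (Dvd.dvd.mul_right hε _))
      (Dvd.dvd.mul_right hη _)) (Dvd.dvd.mul_right h9 _)

end JP
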