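import Pool.Agent.JP.Base
import Pool.Agent.JC.C4
import Pool.Agent.JC.T4

/-!
# [JP-R8] the residues modulo `4` and `2`

`c4p`: PROOF. `JC.c4` (import `Pool.Agent.JC.A` or the file with `JC.c4`) with `la ^ 2 * D`: `disc = -27 * (4 * D) = 4 * la ^ 4 * (la ^ 2 * D)` (`la ^ 6 = -27`, `by decide`), and `CondTwo (la ^ 2 * D)`: if `4 ∣ la ^ 2 D - m²` then with `l` such that `4 ∣ la * l - 1` (find `l` : `la = 1 - ω`, e.g. by
`decide`: `la * (la ^ 5 * (-27)⁻¹)`..: `-27 ≡ 1 mod 4`, so `la ^ 6 ≡ 1 mod 4` and `l = la ^ 5`): `4 ∣ D - (l m)²`.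

`c2q`: PROOF. `disc a b c d = (b c + a d)² + 4 (- a c³ - b³ d - 7 a² d²) + 16 a b c d` (ring). `C` is the set of the residues `(a, b, c, d)` in `Z4 2` (i.e. over the field with four elements `QA 2`) with `u = b c + a d ≠ 0` and `v = a c³ + b³ d + a² d² ≠ w² + u w` for all `w`:
`C = Finset.univ.filter (..)` for `QA 2 × QA 2 × QA 2 × QA 2` mapped by `toZ 2`; it has `90` elements (`decide +kernel`, `256` cases times `4`). Membership: if `2 ∣ u` then `2 ∣ disc = -27 D`, so `2 ∣ D` (`-27` is odd), a contradiction. If `v ≡ w² + u w mod 2` then `disc ≡ u² + 4 v' ≡ (u + 2 w)² mod 8`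
(`v' = - a c³ - b³ d - 7 a² d² ≡ v mod 2`), so `8 ∣ -27 D - (u + 2 w)²`; `-27 = (3 (1 + 2 ω))²` (`decide`), and `3 (1 + 2 ω)` is invertible modulo `8` (with `(3 (1 + 2 ω))² = -27 ≡ 5`, so the inverse is `k = 5 * 3 (1 + 2 ω)`: `k * 3 (1 + 2 ω) ≡ 25 ≡ 1 mod 8`): `8 ∣ D - (k (u + 2 w))²`
(`k² * (-27) ≡ 1 mod 8`), a contradiction. `rd_dvd 2`, `res4_eq`.
-/

set_option autoImplicit false

namespace JP

open CM27 CU JZ JC JXC

theorem r8_two {D : Eis} (h : CondTwo D) : CondTwo (la ^ 2 * D) := by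
  rintro m ⟨k, hk⟩
  refine h (la ^ 5 * m) ⟨la ^ 10 * k - 182 * D, ?_⟩
  have h1 : (la : Eis) ^ 12 = 729 := by decide
  linear_combination la ^ 10 * hk - D * h1

theorem c4p : ∃ C : Finset (Z4 4), C.card ≤ 11520 ∧ ∀ a b c d D : Eis, CondTwo D →
    disc a b c d = -27 * (4 * D) → res4 4 (a, b, c, d) ∈ C := by
  obtain ⟨C, hC, h⟩ := c4
  refine ⟨C, hC, fun a b c d D hD hd => h a b c d (la ^ 2 * D) (r8_two hD) ?_⟩
  have h1 : (la : Eis) ^ 6 = -27 := by decide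
  rw [hd]
  linear_combination -(4 * D) * h1

/-- the residues modulo `2` -/
def r8S : Finset (QA 2 × QA 2 × QA 2 × QA 2) := Finset.univ.filter fun v =>
  v.2.1 * v.2.2.1 + v.1 * v.2.2.2 ≠ 0 ∧ ∀ w : QA 2, v.1 * v.2.2.1 ^ 3 + v.2.1 ^ 3 * v.2.2.2 +
    v.1 ^ 2 * v.2.2.2 ^ 2 ≠ w ^ 2 + (v.2.1 * v.2.2.1 + v.1 * v.2.2.2) * w

theorem r8S_card : r8S.card ≤ 90 := by decide +kernel

theorem r8_lift (w : QA 2) : ∃ x : Eis, rd 2 x = w := by
  refine ⟨⟨(w.re.val : ℤ), (w.im.val : ℤ)⟩, ?_⟩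
  apply QuadraticAlgebra.ext
  · change (((w.re.val : ℤ)) : ZMod 2) = w.re
    simp
  · change (((w.im.val : ℤ)) : ZMod 2) = w.im
    simp

theorem r8_two_zero : (2 : QA 2) = 0 := by decide

theorem c2q : ∃ C : Finset (Z4 2), C.card ≤ 90 ∧ ∀ a b c d D : Eis, CondQ D →
    disc a b c d = -27 * D → res4 2 (a, b, c, d) ∈ C := by
  classical
  refine ⟨r8S.image (toZ 2), Finset.card_image_le.trans r8S_card, fun a b c d D hD h => ?_⟩
  rw [res4_eq]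
  refine Finset.mem_image_of_mem _ ?_
  refine Finset.mem_filter.2 ⟨Finset.mem_univ _, ?_, ?_⟩
  · intro h0
    change rd 2 b * rd 2 c + rd 2 a * rd 2 d = 0 at h0
    rw [← map_mul, ← map_mul, ← map_add, rd_dvd] at h0
    obtain ⟨k, hk⟩ := h0
    push_cast at hk
    apply hD.1
    refine ⟨14 * D + (b * c + a * d) * k + 2 * (-a * c ^ 3 - b ^ 3 * d - 7 * a ^ 2 * d ^ 2) + 8 * a * b * c * d, ?_⟩
    unfold disc at h
    linear_combination -h + (b * c + a * d) * hk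
  · intro w0 h0
    change rd 2 a * rd 2 c ^ 3 + rd 2 b ^ 3 * rd 2 d + rd 2 a ^ 2 * rd 2 d ^ 2 =
      w0 ^ 2 + (rd 2 b * rd 2 c + rd 2 a * rd 2 d) * w0 at h0
    obtain ⟨w, rfl⟩ := r8_lift w0
    have h1 : rd 2 (-a * c ^ 3 - b ^ 3 * d - 7 * a ^ 2 * d ^ 2 - (w ^ 2 + (b * c + a * d) * w)) = 0 := by
      simp only [map_sub, map_add, map_mul, map_pow, map_neg, map_ofNat]
      linear_combination -h0 - (3 * rd 2 a ^ 2 * rd 2 d ^ 2 + rd 2 w ^ 2 +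
        (rd 2 b * rd 2 c + rd 2 a * rd 2 d) * rd 2 w) * r8_two_zero
    rw [rd_dvd] at h1
    obtain ⟨k, hk⟩ := h1
    push_cast at hk
    have hs : (3 * (1 + 2 * om) : Eis) ^ 2 = -27 := by decide
    refine hD.2.2 (5 * (3 * (1 + 2 * om)) * (b * c + a * d + 2 * w)) ⟨-2278 * D + 25 * (-27) * (k + 2 * a * b * c * d), ?_⟩
    unfold disc at h
    linear_combination -25 * (b * c + a * d + 2 * w) ^ 2 * hs + 25 * 27 * h - 4 * 25 * 27 * hk

end JP
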