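import Pool.Agent.JGC.B9

/-!
# [JP-T1] twelve forms for every `D`: general version

PROOF. Copy `Pool/Agent/JGC/B9.lean` and `tw_key`, `tw_inj`, `tw_mem` of `Pool/Agent/JC/S.lean`. A good form for `N = κ D` is `GoodN T N g`: `exists_goodN` as `JGC.exists_goodH`: `a b c d` from `hF D hD`, `disc = κ D ≠ 0` (`hsq D hD 1 0 one_ne_zero`), `redH` gives `p q r s` with `p s - q r = 1`;
`P_ne`: if `kP = 0` then `key_disc` gives `27 a² κ D = - kQ²`, i.e. `-27 * (a ^ 2 * κ D) = kQ ^ 2`, a contradiction to `hsq`; `Q_ne`: `kQ_val` and no zeros, as in the model; `mem`: `act_act` as in the model.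
`tw_injN`: as `JC.tw_inj` (`disc (tw g u n) = disc g`, so `κ D₁ = κ D₂`, `D₁ = D₂` by `hκ`). `tw_regN`: as `JGC.tw_regH` with the hypothesis `‖emb N‖ ≤ s ^ 4` instead of `36 ‖emb D‖ ≤ s ^ 4` (the last part of the proof: `‖emb (disc ..)‖ = 27 ‖emb g.1‖ ^ 4 * ‖A ^ 3 - B ^ 3‖ ^ 2`, now directly `≤ s ^ 4`).
`twelveG`: as `JGC.twelveH` / `JGC.twelveXH` (`Set.ncard_prod`, `Set.ncard_le_ncard_of_injOn`).
-/

set_option autoImplicit false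

namespace JP

open CM27 CU JZ JC JX JXC JGC

/-- a good form of discriminant `N` -/
structure GoodN (T : Set O4) (N : Eis) (g : O4) : Prop where
  disc_eq : disc g.1 g.2.1 g.2.2.1 g.2.2.2 = N
  a_ne : g.1 ≠ 0
  P_ne : kP g.1 g.2.1 g.2.2.1 ≠ 0
  Q_ne : kQ g.1 g.2.1 g.2.2.1 g.2.2.2 ≠ 0
  mem : ∀ p q r s : Eis, IsUnit (p * s - q * r) →
    (cA g.1 g.2.1 g.2.2.1 g.2.2.2 p q r s, cB g.1 g.2.1 g.2.2.1 g.2.2.2 p q r s,
      cC g.1 g.2.1 g.2.2.1 g.2.2.2 p q r s, cD g.1 g.2.1 g.2.2.1 g.2.2.2 p q r s) ∈ T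
  parH : ∃ z A B : ℂ, Cf (emb g.1) (emb g.2.1) (emb g.2.2.1) (emb g.2.2.2) z A B ∧
    A ^ 3 ≠ B ^ 3 ∧ ∀ n : Eis, Rd (z - hh A B - emb n) A B

theorem t1_exists (T : Set O4) {N a b c d : Eis} (hN : disc a b c d = N)
    (hz : ∀ x y : Eis, val a b c d x y = 0 → x = 0 ∧ y = 0)
    (hT : ∀ p q r s : Eis, IsUnit (p * s - q * r) →
      (cA a b c d p q r s, cB a b c d p q r s, cC a b c d p q r s, cD a b c d p q r s) ∈ T)
    (hsq : ∀ u v : Eis, u ≠ 0 → -27 * (u ^ 2 * N) ≠ v ^ 2) : ∃ g : O4, GoodN T N g := by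
  have hdom := eis_isDomain
  have hN0 : N ≠ 0 := by
    rintro rfl
    exact hsq 1 0 one_ne_zero (by ring)
  have hd0 : disc a b c d ≠ 0 := by
    rw [hN]
    exact hN0
  obtain ⟨p, q, r, s, hdet, hA, z, Az, Bz, hCf, hne, hRd⟩ := redH _ _ _ _ hd0 hz
  set A' := cA a b c d p q r s with hA'
  set B' := cB a b c d p q r s with hB'
  set C' := cC a b c d p q r s with hC'
  set D' := cD a b c d p q r s with hD'
  have e1 : disc A' B' C' D' = N := by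
    rw [hA', hB', hC', hD', disc_act, hdet, one_pow, one_mul, hN]
  have hz2 : ∀ x y : Eis, val A' B' C' D' x y = 0 → x = 0 ∧ y = 0 := fun x y h => by
    rw [hA', hB', hC', hD', val_act] at h
    obtain ⟨h1, h2⟩ := hz _ _ h
    constructor
    · linear_combination s * h1 - q * h2 - x * hdet
    · linear_combination p * h2 - r * h1 - y * hdet
  refine ⟨(A', B', C', D'), ⟨e1, hA, fun hP => ?_, fun hQ => ?_, fun p' q' r' s' hu => ?_,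
    ⟨z, Az, Bz, hCf, hne, hRd⟩⟩⟩
  · have hk := key_disc A' B' C' D'
    have hP' : kP A' B' C' = 0 := hP
    rw [hP', e1] at hk
    refine hsq A' (kQ A' B' C' D') hA ?_
    linear_combination -hk
  · have hv := kQ_val A' B' C' D'
    have hQ' : kQ A' B' C' D' = 0 := hQ
    rw [hQ', mul_zero] at hv
    have := (hz2 _ _ hv).2
    exact mul_ne_zero (by decide) hA this
  · obtain ⟨f1, f2, f3, f4⟩ := act_act a b c d p q r s p' q' r' s'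
    rw [f1, f2, f3, f4]
    refine hT _ _ _ _ ?_
    have : (p * p' + q * r') * (r * q' + s * s') - (p * q' + q * s') * (r * p' + s * r') =
        p' * s' - q' * r' := by
      linear_combination (p' * s' - q' * r') * hdet
    rw [this]
    exact hu

theorem t1_inj {T : Set O4} {N₁ N₂ : Eis} {g₁ g₂ : O4} (h₁ : GoodN T N₁ g₁) (h₂ : GoodN T N₂ g₂)
    (hg : N₁ = N₂ → g₁ = g₂) {u₁ u₂ : Eis × Eis} (hu₁ : u₁.1 ^ 6 = 1 ∧ u₁.2 ^ 2 = 1)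
    (hu₂ : u₂.1 ^ 6 = 1 ∧ u₂.2 ^ 2 = 1) {n₁ n₂ : Eis} (h : tw g₁ u₁ n₁ = tw g₂ u₂ n₂) :
    N₁ = N₂ ∧ u₁ = u₂ := by
  have hdom := eis_isDomain
  obtain ⟨a1, a2, a3, a4⟩ := tw_key g₁ hu₁ n₁
  obtain ⟨b1, b2, b3, b4⟩ := tw_key g₂ hu₂ n₂
  rw [h] at a1 a2 a3 a4
  have hD : N₁ = N₂ := by
    rw [← h₁.disc_eq, ← h₂.disc_eq, ← a1, ← b1]
  have hgg := hg hD
  subst hgg
  rw [b2] at a2
  rw [b3] at a3
  rw [b4] at a4
  have c1 : u₂.1 ^ 3 = u₁.1 ^ 3 := mul_right_cancel₀ h₁.a_ne a2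
  have c2 : u₂.1 ^ 2 = u₁.1 ^ 2 := mul_right_cancel₀ h₁.P_ne a3
  have hu0 : u₁.1 ≠ 0 := by
    intro h0
    rw [h0] at hu₁
    simp at hu₁
  have c3 : u₁.1 = u₂.1 := by
    apply mul_left_cancel₀ (pow_ne_zero 2 hu0)
    linear_combination u₂.1 * c2 - c1
  have c4 : u₁.2 = u₂.2 := by
    have c5 := mul_right_cancel₀ h₁.Q_ne a4
    rw [c1] at c5
    exact (mul_right_cancel₀ (pow_ne_zero 3 hu0) c5).symm
  exact ⟨hD, Prod.ext c3 c4⟩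

theorem t1_mem {T : Set O4} {N : Eis} {g : O4} (hg : GoodN T N g) {u : Eis × Eis}
    (hu : u.1 ^ 6 = 1 ∧ u.2 ^ 2 = 1) (n : Eis) : tw g u n ∈ T := by
  refine hg.mem _ _ _ _ ?_
  apply IsUnit.of_pow_eq_one (n := 2) _ two_ne_zero
  calc (u.1 * (u.2 * u.1 ^ 5) - u.1 * n * 0) ^ 2 = (u.1 ^ 6) ^ 2 * u.2 ^ 2 := by ring
    _ = 1 := by rw [hu.1, hu.2]; ring

theorem t1_reg {T : Set O4} {N : Eis} {g : O4} (hg : GoodN T N g) {u : Eis × Eis}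
    (hu : u.1 ^ 6 = 1 ∧ u.2 ^ 2 = 1) {s : ℝ} (hs : ‖emb N‖ ≤ s ^ 4) :
    ∃ n : Eis, emb4 (tw g u n) ∈ RegH s := by
  obtain ⟨z, A, B, hCf, hne, hRd⟩ := hg.parH
  have hpar := b9_par hCf hne hRd
  obtain ⟨h6, h2⟩ := hu
  have e6 : emb u.1 ^ 6 = 1 := by rw [← map_pow, h6, map_one]
  have e2 : emb u.2 ^ 2 = 1 := by rw [← map_pow, h2, map_one]
  have hn1 : ‖emb u.1‖ = 1 := by
    have : ‖emb u.1‖ ^ 6 = 1 := by rw [← norm_pow, e6, norm_one]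
    exact (pow_eq_one_iff_of_nonneg (norm_nonneg _) (by norm_num)).1 this
  have hn2 : ‖emb u.2‖ = 1 := by
    have : ‖emb u.2‖ ^ 2 = 1 := by rw [← norm_pow, e2, norm_one]
    exact (pow_eq_one_iff_of_nonneg (norm_nonneg _) (by norm_num)).1 this
  have hdisc := par_disc hpar
  obtain ⟨hb, hc, hd, hr1, hr2⟩ := hpar
  set ζ := emb u.1 with hζ
  set ε := emb u.2 with hε
  have hk : ‖ε * ζ ^ 4‖ = 1 := by rw [norm_mul, norm_pow, hn1, hn2, one_pow, one_mul]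
  obtain ⟨n, hn⟩ := hex_exists (ε * ζ ^ 4 * (z - hh A B))
  have hz' : ε * ζ ^ 4 * z - emb n - hh (ε * ζ ^ 4 * A) (ε * ζ ^ 4 * B) =
      ε * ζ ^ 4 * (z - hh A B) - emb n := by
    rw [b9_hh hk]
    ring
  refine ⟨n, ?_, ε * ζ ^ 4 * z - emb n, ε * ζ ^ 4 * A, ε * ζ ^ 4 * B, ⟨?_, ?_, ?_⟩, ?_, ?_, ?_, ?_⟩
  · intro h0
    have h0' : emb (tw g u n).1 = 0 := h0
    rw [(tw_key g ⟨h6, h2⟩ n).2.1, map_mul, map_pow, ← hζ] at h0'
    have hdom := eis_isDomain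
    rcases mul_eq_zero.1 h0' with h | h
    · have := pow_eq_zero_iff (by norm_num) |>.1 h
      rw [this, norm_zero] at hn1
      exact zero_ne_one hn1
    · exact hg.a_ne (emb_injective (by rw [h, map_zero]))
  · show emb (cB g.1 g.2.1 g.2.2.1 g.2.2.2 u.1 (u.1 * n) 0 (u.2 * u.1 ^ 5)) =
      -3 * emb (cA g.1 g.2.1 g.2.2.1 g.2.2.2 u.1 (u.1 * n) 0 (u.2 * u.1 ^ 5)) * _
    simp only [cA, cB, val, map_add, map_mul, map_pow, map_ofNat, map_zero, hb, hc, hd, ← hζ, ← hε]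
    ring
  · show emb (cC g.1 g.2.1 g.2.2.1 g.2.2.2 u.1 (u.1 * n) 0 (u.2 * u.1 ^ 5)) =
      emb (cA g.1 g.2.1 g.2.2.1 g.2.2.2 u.1 (u.1 * n) 0 (u.2 * u.1 ^ 5)) * _
    simp only [cA, cC, val, map_add, map_mul, map_pow, map_ofNat, map_zero, hb, hc, hd, ← hζ, ← hε]
    ring
  · show emb (cD g.1 g.2.1 g.2.2.1 g.2.2.2 u.1 (u.1 * n) 0 (u.2 * u.1 ^ 5)) =
      emb (cA g.1 g.2.1 g.2.2.1 g.2.2.2 u.1 (u.1 * n) 0 (u.2 * u.1 ^ 5)) * _
    simp only [cA, cD, val, map_add, map_mul, map_pow, map_zero, hb, hc, hd, ← hζ, ← hε]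
    ring
  · rw [hz']
    exact hn
  · rw [hz']
    -- the norm of the new centre
    have e7 : ε * ζ ^ 4 * (z - hh A B) - emb n =
        ε * ζ ^ 4 * (z - hh A B - emb (u.2 * u.1 ^ 2 * n)) := by
      rw [map_mul, map_mul, map_pow, ← hζ, ← hε]
      linear_combination emb n * ε ^ 2 * e6 + emb n * e2
    refine b9_rd hk (κ := z - hh A B - emb (u.2 * u.1 ^ 2 * n)) ?_ (hRd _)
    rw [e7, norm_mul, hk, one_mul]
  · simp only [norm_mul, norm_pow, hn1, hn2, one_pow, one_mul, mul_one]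
    exact hr2
  · have e3 : (ε * ζ ^ 4 * A) ^ 3 - (ε * ζ ^ 4 * B) ^ 3 = (ε * ζ ^ 4) ^ 3 * (A ^ 3 - B ^ 3) := by ring
    rw [e3]
    have e4 : ‖(emb4 (tw g u n)).1‖ = ‖emb g.1‖ := by
      show ‖emb (tw g u n).1‖ = _
      rw [(tw_key g ⟨h6, h2⟩ n).2.1, map_mul, map_pow, ← hζ, norm_mul, norm_pow, hn1, one_pow,
        one_mul]
    rw [e4]
    simp only [norm_mul, norm_pow, hn1, hn2, one_pow, one_mul]
    have e5 : emb (disc g.1 g.2.1 g.2.2.1 g.2.2.2) = disc (emb g.1) (emb g.2.1) (emb g.2.2.1)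
        (emb g.2.2.2) := by
      simp only [disc, map_sub, map_add, map_mul, map_pow, map_ofNat]
    have e7 : ‖emb (disc g.1 g.2.1 g.2.2.1 g.2.2.2)‖ =
        27 * ‖emb g.1‖ ^ 4 * ‖A ^ 3 - B ^ 3‖ ^ 2 := by
      rw [e5, hdisc, norm_mul, norm_mul, norm_neg, norm_pow, norm_pow]
      norm_num
    rw [← e7, hg.disc_eq]
    exact hs

/-- Twelve forms for every `D`. -/
theorem twelveG (T : Set O4) (SS : Set Eis) (hSS : SS.Finite) (κ : Eis → Eis) (hκ : Set.InjOn κ SS)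
    (hF : ∀ D ∈ SS, ∃ a b c d : Eis, disc a b c d = κ D ∧ (∀ x y : Eis, val a b c d x y = 0 → x = 0 ∧ y = 0) ∧
      ∀ p q r s : Eis, IsUnit (p * s - q * r) →
        (cA a b c d p q r s, cB a b c d p q r s, cC a b c d p q r s, cD a b c d p q r s) ∈ T)
    (hsq : ∀ D ∈ SS, ∀ u v : Eis, u ≠ 0 → -27 * (u ^ 2 * κ D) ≠ v ^ 2) (s : ℝ)
    (hs : ∀ D ∈ SS, ‖emb (κ D)‖ ≤ s ^ 4) (hfin : {g : O4 | g ∈ T ∧ emb4 g ∈ RegH s}.Finite) :
    12 * SS.ncard ≤ {g : O4 | g ∈ T ∧ emb4 g ∈ RegH s}.ncard := by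
  classical
  have hex : ∀ D : Eis, ∃ g : O4, D ∈ SS → GoodN T (κ D) g := fun D => by
    by_cases hD : D ∈ SS
    · obtain ⟨a, b, c, d, h1, h2, h3⟩ := hF D hD
      obtain ⟨g, hg⟩ := t1_exists T h1 h2 h3 (hsq D hD)
      exact ⟨g, fun _ => hg⟩
    · exact ⟨(0, 0, 0, 0), fun h => absurd h hD⟩
  choose g hg using hex
  have hex2 : ∀ (D : Eis) (u : Eis × Eis), ∃ n : Eis, D ∈ SS → u ∈ U12 →
      emb4 (tw (g D) u n) ∈ RegH s := fun D u => by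
    by_cases hD : D ∈ SS
    · by_cases hu : u ∈ U12
      · obtain ⟨n, hn⟩ := t1_reg (hg D hD) (U12_prop u hu) (hs D hD)
        exact ⟨n, fun _ _ => hn⟩
      · exact ⟨0, fun _ h => absurd h hu⟩
    · exact ⟨0, fun h => absurd h hD⟩
  choose n hn using hex2
  have hcard : 12 * SS.ncard = (SS ×ˢ (U12 : Set (Eis × Eis))).ncard := by
    rw [Set.ncard_prod, Set.ncard_coe_finset, U12_card, mul_comm]
  rw [hcard]
  refine Set.ncard_le_ncard_of_injOn (fun x => tw (g x.1) x.2 (n x.1 x.2)) ?_ ?_ hfin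
  · rintro ⟨D, u⟩ ⟨hD, hu⟩
    exact ⟨t1_mem (hg D hD) (U12_prop u hu) _, hn D u hD hu⟩
  · rintro ⟨D₁, u₁⟩ ⟨hD₁, hu₁⟩ ⟨D₂, u₂⟩ ⟨hD₂, hu₂⟩ h
    obtain ⟨h1, h2⟩ := t1_inj (hg D₁ hD₁) (hg D₂ hD₂)
      (fun h => congrArg g (hκ hD₁ hD₂ h)) (U12_prop u₁ hu₁) (U12_prop u₂ hu₂) h
    exact Prod.ext (hκ hD₁ hD₂ h1) h2

end JP
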